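import Pool.Agent.GB.Top

set_option autoImplicit false

/-!
# Module AIP: the clopen sets of `K` have the approximate interpolation property
-/

namespace Pool.Agent.GB

open Set Filter Topology MeasureTheory T

theorem aip_meas (x : T) : MeasurableSet {t : K | t.1 x = true} :=
  (isClopen_term x).isOpen.measurableSet

theorem aip_cnt_meas (a : ℕ → T) (n : ℕ) : Measurable fun t : K => cnt t.1 a n := by
  classical
  have e : (fun t : K => cnt t.1 a n) = fun t : K =>
      ∑ v ∈ Finset.range ((n + 1) ^ 2), if t.1 (w a n v) = true then 1 else 0 := by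
    funext t
    rw [cnt, Finset.card_filter]
  rw [e]
  refine Finset.measurable_fun_sum _ fun v _ => ?_
  exact Measurable.ite (aip_meas _) measurable_const measurable_const

/-- the error sets -/
def aipZ (a : ℕ → T) (n v : ℕ) : Set K := {t : K | zv t.1 a n v = true}

theorem aipZ_eq (a : ℕ → T) (n v : ℕ) :
    aipZ a n v = {t : K | t.1 (w a n v) = true} ∩ {t : K | cnt t.1 a n ≤ n} := by
  ext t
  simp [aipZ, zv]

theorem aipZ_meas (a : ℕ → T) (n v : ℕ) : MeasurableSet (aipZ a n v) := by
  rw [aipZ_eq]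
  exact (aip_meas _).inter ((aip_cnt_meas a n) (measurableSet_Iic (a := n)))

theorem aip_sum_le (a : ℕ → T) (n : ℕ) (t : K) :
    ∑ v ∈ Finset.range ((n + 1) ^ 2), (aipZ a n v).indicator (fun _ => (1 : ENNReal)) t ≤ n := by
  classical
  by_cases h : cnt t.1 a n ≤ n
  · have e : ∀ v, (aipZ a n v).indicator (fun _ => (1 : ENNReal)) t =
        if t.1 (w a n v) = true then 1 else 0 := by
      intro v
      rw [aipZ_eq, Set.indicator_apply]
      simp only [Set.mem_inter_iff, Set.mem_ofPred_eq, h, and_true]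
    simp only [e]
    rw [← Finset.sum_filter, Finset.sum_const, nsmul_one]
    have : ((Finset.range ((n + 1) ^ 2)).filter (fun v => t.1 (w a n v) = true)).card ≤ n := h
    exact_mod_cast this
  · have e : ∀ v, (aipZ a n v).indicator (fun _ => (1 : ENNReal)) t = 0 := by
      intro v
      rw [aipZ_eq, Set.indicator_apply]
      simp [h]
    simp only [e]
    simp

theorem aip_exists (a : ℕ → T) (n : ℕ) (μ : Measure K) (hμ : μ univ ≤ 1) :
    ∃ v, μ (aipZ a n v) ≤ ENNReal.ofReal (1 / (n + 1)) := by
  by_contra hcon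
  push Not at hcon
  have h1 : ∑ v ∈ Finset.range ((n + 1) ^ 2), μ (aipZ a n v) ≤ n := by
    have e : ∀ v, μ (aipZ a n v) = ∫⁻ t, (aipZ a n v).indicator (fun _ => (1 : ENNReal)) t ∂μ := by
      intro v
      rw [lintegral_indicator (aipZ_meas a n v)]
      simp
    simp only [e]
    rw [← lintegral_finsetSum' _ fun v _ =>
      (measurable_const.indicator (aipZ_meas a n v)).aemeasurable]
    calc ∫⁻ t, ∑ v ∈ Finset.range ((n + 1) ^ 2),
            (aipZ a n v).indicator (fun _ => (1 : ENNReal)) t ∂μ
        ≤ ∫⁻ _, (n : ENNReal) ∂μ := lintegral_mono fun t => aip_sum_le a n t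
      _ = n * μ univ := by rw [lintegral_const]
      _ ≤ n * 1 := by gcongr
      _ = n := mul_one _
  have h2 : ∑ _v ∈ Finset.range ((n + 1) ^ 2), ENNReal.ofReal (1 / (n + 1)) ≤
      ∑ v ∈ Finset.range ((n + 1) ^ 2), μ (aipZ a n v) :=
    Finset.sum_le_sum fun v _ => (hcon v).le
  rw [Finset.sum_const, Finset.card_range, nsmul_eq_mul] at h2
  have h3 : (((n + 1) ^ 2 : ℕ) : ENNReal) * ENNReal.ofReal (1 / (n + 1)) =
      ENNReal.ofReal ((n : ℝ) + 1) := by
    rw [← ENNReal.ofReal_natCast, ← ENNReal.ofReal_mul (by positivity)]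
    congr 1
    push_cast
    field_simp
  rw [h3] at h2
  have h4 : ENNReal.ofReal ((n : ℝ) + 1) ≤ ENNReal.ofReal (n : ℝ) := by
    rw [ENNReal.ofReal_natCast]
    exact h2.trans h1
  rw [ENNReal.ofReal_le_ofReal_iff (by positivity)] at h4
  linarith

theorem K_AIP : AIP K := by
  intro A E hA hdisj hE hEA μ hμ
  choose a ha using fun n => exists_term_of_clopen (A n) (hA n)
  choose e he using fun n => exists_term_of_clopen (E n) (hE n)
  choose g hg using fun n => aip_exists a n (μ n) (hμ n)
  refine ⟨{t : K | t.1 (b a e g) = true}, isClopen_term _, fun n => ?_⟩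
  refine (measure_mono ?_).trans (hg n)
  intro t ht
  by_contra hz
  have hz' : zv t.1 a n (g n) = false := by
    have : ¬ zv t.1 a n (g n) = true := hz
    simpa using this
  have key : t ∈ A n → (t.1 (b a e g) = true ↔ t ∈ E n) := by
    intro hA
    have h1 : t.1 (a n) = true := by rw [ha n] at hA; exact hA
    have h2 : ∀ m < n, t.1 (a m) = false := by
      intro m hm
      by_contra hc
      have : t ∈ A m := by
        rw [ha m]
        simpa using hc
      exact Set.disjoint_left.1 (hdisj hm.ne) this hA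
    rw [t.2.b a e g n h1 h2 hz', he n]
    exact Iff.rfl
  rcases ht with ⟨⟨h1, h2⟩, h3⟩ | ⟨h1, h2⟩
  · exact h3 ((key h2).1 h1)
  · exact h2 ⟨(key (hEA n h1)).2 h1, hEA n h1⟩

end Pool.Agent.GB
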