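import Pool.Agent.GB.Defs

set_option autoImplicit false

/-!
# Basic facts on evaluation and rank
-/

namespace Pool.Agent.GB

open Set T

theorem ev_bot (h : T → Bool) : ev h bot = false := rfl

theorem ev_imp (h : T → Bool) (x y : T) : ev h (imp x y) = (!ev h x || ev h y) := rfl

theorem ev_w (h : T → Bool) (a : ℕ → T) (n v : ℕ) : ev h (w a n v) = h (w a n v) := rfl

theorem cnt_congr {t t' : T → Bool} {a : ℕ → T} {n : ℕ}
    (h : ∀ v < (n + 1) ^ 2, t (w a n v) = t' (w a n v)) : cnt t a n = cnt t' a n := by
  unfold cnt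
  congr 1
  apply Finset.filter_congr
  intro v hv
  rw [h v (Finset.mem_range.1 hv)]

theorem zv_congr {t t' : T → Bool} {a : ℕ → T} {n v : ℕ}
    (h : ∀ v' < (n + 1) ^ 2, t (w a n v') = t' (w a n v')) (hv : t (w a n v) = t' (w a n v)) :
    zv t a n v = zv t' a n v := by
  unfold zv
  rw [cnt_congr h, hv]

theorem zv_ev (h : T → Bool) (a : ℕ → T) (n v : ℕ) : zv (ev h) a n v = zv h a n v :=
  zv_congr (fun _ _ => rfl) rfl

theorem ev_b_of (h : T → Bool) (a e : ℕ → T) (g : ℕ → ℕ) (n : ℕ) (h1 : ev h (a n) = true)
    (h2 : ∀ m < n, ev h (a m) = false) :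
    ev h (b a e g) = if zv h a n (g n) = true then h (b a e g) else ev h (e n) := by
  classical
  have H : ∃ n, ev h (a n) = true := ⟨n, h1⟩
  have hn : Nat.find H = n := by
    rw [Nat.find_eq_iff]
    refine ⟨h1, fun m hm => ?_⟩
    rw [h2 m hm]
    simp
  have h3 : ev h (b a e g) = if H : ∃ n, ev h (a n) = true then
        (if zv h a (Nat.find H) (g (Nat.find H)) = true then h (b a e g)
          else ev h (e (Nat.find H)))
      else h (b a e g) := rfl
  rw [h3, dif_pos H, hn]

theorem ev_b_none (h : T → Bool) (a e : ℕ → T) (g : ℕ → ℕ) (h1 : ∀ n, ev h (a n) = false) :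
    ev h (b a e g) = h (b a e g) := by
  classical
  have H : ¬ ∃ n, ev h (a n) = true := by
    rintro ⟨n, hn⟩
    rw [h1 n] at hn
    exact Bool.false_ne_true hn
  have h3 : ev h (b a e g) = if H : ∃ n, ev h (a n) = true then
        (if zv h a (Nat.find H) (g (Nat.find H)) = true then h (b a e g)
          else ev h (e (Nat.find H)))
      else h (b a e g) := rfl
  rw [h3, dif_neg H]

/-- either no `a n` holds, or there is a first one -/
theorem first_or (t : T → Bool) (a : ℕ → T) :
    (∀ n, t (a n) = false) ∨ ∃ n, t (a n) = true ∧ ∀ m < n, t (a m) = false := by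
  classical
  by_cases H : ∃ n, t (a n) = true
  · right
    refine ⟨Nat.find H, Nat.find_spec H, fun m hm => ?_⟩
    have := Nat.find_min H hm
    simpa using this
  · left
    intro n
    by_contra hn
    exact H ⟨n, by simpa using hn⟩

theorem first_unique {t : T → Bool} {a : ℕ → T} {n n' : ℕ} (h1 : t (a n) = true)
    (h2 : ∀ m < n, t (a m) = false) (h1' : t (a n') = true) (h2' : ∀ m < n', t (a m) = false) :
    n = n' := by
  rcases lt_trichotomy n n' with h | h | h
  · rw [h2' n h] at h1
    exact absurd h1 Bool.false_ne_true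
  · exact h
  · rw [h2 n' h] at h1'
    exact absurd h1' Bool.false_ne_true

/-- the value of a free generator is its raw bit -/
theorem ev_of_not_det (h : T → Bool) (x : T) (hx : ¬ Det (ev h) x) : ev h x = h x := by
  cases x with
  | bot => exact absurd trivial hx
  | imp x y => exact absurd trivial hx
  | w a n v => rfl
  | b a e g =>
    rcases first_or (ev h) a with h1 | ⟨n, h1, h2⟩
    · exact ev_b_none h a e g h1
    · rw [ev_b_of h a e g n h1 h2]
      have h3 : zv h a n (g n) = true := by
        by_contra hcon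
        apply hx
        refine ⟨n, h1, h2, ?_⟩
        rw [zv_ev]
        simpa using hcon
      rw [if_pos h3]

theorem ev_inK (h : T → Bool) : InK (ev h) := by
  refine ⟨rfl, fun _ _ => rfl, ?_⟩
  intro a e g n h1 h2 h3
  rw [zv_ev] at h3
  rw [ev_b_of h a e g n h1 h2, if_neg (by rw [h3]; exact Bool.false_ne_true)]

/-- a point of `K` -/
noncomputable def pt (h : T → Bool) : K := ⟨ev h, ev_inK h⟩

theorem ev_self {t : T → Bool} (ht : InK t) : ev t = t := by
  funext x
  induction x with
  | bot => exact ht.bot.symm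
  | imp x y ihx ihy => rw [ev_imp, ihx, ihy, ht.imp]
  | w a n v => rfl
  | b a e g iha ihe =>
    by_cases hd : Det (ev t) (b a e g)
    · obtain ⟨n, h1, h2, h3⟩ := hd
      rw [(ev_inK t).b a e g n h1 h2 h3, ihe]
      rw [zv_ev] at h3
      refine (ht.b a e g n ?_ ?_ h3).symm
      · rw [← iha]
        exact h1
      · intro m hm
        rw [← iha]
        exact h2 m hm
    · exact ev_of_not_det t _ hd

/-- a valuation is determined on a term by its values on the generators of the term -/
theorem eq_of_gens {t t' : T → Bool} (ht : InK t) (ht' : InK t') (x : T)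
    (h : ∀ y ∈ gens x, t y = t' y) : t x = t' x := by
  classical
  induction x with
  | bot => rw [ht.bot, ht'.bot]
  | imp x y ihx ihy =>
    rw [ht.imp, ht'.imp, ihx (fun z hz => h z ?_), ihy (fun z hz => h z ?_)]
    · exact Finset.mem_union_right _ hz
    · exact Finset.mem_union_left _ hz
  | w a n v => exact h _ (Finset.mem_singleton_self _)
  | b a e g _ _ => exact h _ (Finset.mem_singleton_self _)

theorem isGen_of_mem_gens {x y : T} (h : y ∈ gens x) : isGen y := by
  classical
  induction x with
  | bot => exact absurd h (Finset.notMem_empty _)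
  | imp x z ihx ihz =>
    rcases Finset.mem_union.1 h with h | h
    · exact ihx h
    · exact ihz h
  | w a n v =>
    rw [Finset.mem_singleton.1 h]
    trivial
  | b a e g _ _ =>
    rw [Finset.mem_singleton.1 h]
    trivial

theorem rk_le_of_mem_gens {x y : T} (h : y ∈ gens x) : rk y ≤ rk x := by
  classical
  induction x with
  | bot => exact absurd h (Finset.notMem_empty _)
  | imp x z ihx ihz =>
    rcases Finset.mem_union.1 h with h | h
    · exact (ihx h).trans (le_max_left _ _)
    · exact (ihz h).trans (le_max_right _ _)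
  | w a n v => rw [Finset.mem_singleton.1 h]
  | b a e g _ _ => rw [Finset.mem_singleton.1 h]

theorem rk_w (a : ℕ → T) (n v : ℕ) : rk (w a n v) = rk (w a 0 0) := rfl

theorem rk_a_lt_w (a : ℕ → T) (k n v : ℕ) : rk (a k) < rk (w a n v) := by
  have h1 : rk (w a n v) = ⨆ k, Order.succ (rk (a k)) := rfl
  rw [h1]
  exact lt_of_lt_of_le (Order.lt_succ _) (Ordinal.le_iSup _ k)

theorem rk_w_lt_b (a e : ℕ → T) (g : ℕ → ℕ) (n v : ℕ) : rk (w a n v) < rk (b a e g) := by
  have h1 : rk (b a e g) = Order.succ (max (⨆ k, Order.succ (rk (a k)))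
    (⨆ k, Order.succ (rk (e k)))) := rfl
  rw [h1]
  exact lt_of_le_of_lt (le_max_left _ _) (Order.lt_succ _)

theorem rk_a_lt_b (a e : ℕ → T) (g : ℕ → ℕ) (k : ℕ) : rk (a k) < rk (b a e g) :=
  (rk_a_lt_w a k 0 0).trans (rk_w_lt_b a e g 0 0)

theorem rk_e_lt_b (a e : ℕ → T) (g : ℕ → ℕ) (k : ℕ) : rk (e k) < rk (b a e g) := by
  have h1 : rk (b a e g) = Order.succ (max (⨆ k, Order.succ (rk (a k)))
    (⨆ k, Order.succ (rk (e k)))) := rfl
  rw [h1]
  have h2 : rk (e k) < ⨆ k, Order.succ (rk (e k)) :=
    lt_of_lt_of_le (Order.lt_succ _) (Ordinal.le_iSup (fun k => Order.succ (rk (e k))) k)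
  exact (h2.trans_le (le_max_right _ _)).trans (Order.lt_succ _)

/-- the value of a term depends only on raw bits of rank at most the rank of the term -/
theorem ev_local {h h' : T → Bool} (x : T) (H : ∀ y, rk y ≤ rk x → h y = h' y) :
    ev h x = ev h' x := by
  induction x with
  | bot => rfl
  | imp x y ihx ihy =>
    rw [ev_imp, ev_imp, ihx (fun z hz => H z (hz.trans (le_max_left _ _))),
      ihy (fun z hz => H z (hz.trans (le_max_right _ _)))]
  | w a n v => exact H _ le_rfl
  | b a e g iha ihe =>
    have ha : ∀ k, ev h (a k) = ev h' (a k) := fun k =>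
      iha k (fun z hz => H z (hz.trans (rk_a_lt_b a e g k).le))
    have he : ∀ k, ev h (e k) = ev h' (e k) := fun k =>
      ihe k (fun z hz => H z (hz.trans (rk_e_lt_b a e g k).le))
    have hw : ∀ n v, h (w a n v) = h' (w a n v) := fun n v =>
      H _ (rk_w_lt_b a e g n v).le
    rcases first_or (ev h) a with h1 | ⟨n, h1, h2⟩
    · rw [ev_b_none h a e g h1, ev_b_none h' a e g (fun n => by rw [← ha]; exact h1 n)]
      exact H _ le_rfl
    · rw [ev_b_of h a e g n h1 h2, ev_b_of h' a e g n (by rw [← ha]; exact h1)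
        (fun m hm => by rw [← ha]; exact h2 m hm), he, H _ le_rfl,
        zv_congr (fun v _ => hw n v) (hw n _)]

/-- the value of a generator depends only on its raw bit and on raw bits of smaller rank -/
theorem ev_gen_local {h h' : T → Bool} (x : T) (hx : isGen x) (hxx : h x = h' x)
    (H : ∀ y, rk y < rk x → h y = h' y) : ev h x = ev h' x := by
  cases x with
  | bot => exact absurd hx id
  | imp x y => exact absurd hx id
  | w a n v => exact hxx
  | b a e g =>
    have ha : ∀ k, ev h (a k) = ev h' (a k) := fun k =>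
      ev_local _ (fun z hz => H z (hz.trans_lt (rk_a_lt_b a e g k)))
    have he : ∀ k, ev h (e k) = ev h' (e k) := fun k =>
      ev_local _ (fun z hz => H z (hz.trans_lt (rk_e_lt_b a e g k)))
    have hw : ∀ n v, h (w a n v) = h' (w a n v) := fun n v =>
      H _ (rk_w_lt_b a e g n v)
    rcases first_or (ev h) a with h1 | ⟨n, h1, h2⟩
    · rw [ev_b_none h a e g h1, ev_b_none h' a e g (fun n => by rw [← ha]; exact h1 n)]
      exact hxx
    · rw [ev_b_of h a e g n h1 h2, ev_b_of h' a e g n (by rw [← ha]; exact h1)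
        (fun m hm => by rw [← ha]; exact h2 m hm), he, hxx,
        zv_congr (fun v _ => hw n v) (hw n _)]

/-- changing raw bits which are determined does not change the valuation -/
theorem ev_overwrite {h h' : T → Bool} (H : ∀ x, h x ≠ h' x → Det (ev h') x) : ev h = ev h' := by
  have hw : ∀ a n v, h (w a n v) = h' (w a n v) := by
    intro a n v
    by_contra hcon
    exact H _ hcon
  funext x
  induction x with
  | bot => rfl
  | imp x y ihx ihy => rw [ev_imp, ev_imp, ihx, ihy]
  | w a n v => exact hw a n v
  | b a e g iha ihe =>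
    rcases first_or (ev h) a with h1 | ⟨n, h1, h2⟩
    · rw [ev_b_none h a e g h1, ev_b_none h' a e g (fun n => by rw [← iha]; exact h1 n)]
      by_contra hcon
      obtain ⟨n, h3, _⟩ := H _ hcon
      rw [← iha, h1 n] at h3
      exact Bool.false_ne_true h3
    · rw [ev_b_of h a e g n h1 h2, ev_b_of h' a e g n (by rw [← iha]; exact h1)
        (fun m hm => by rw [← iha]; exact h2 m hm), ihe,
        zv_congr (fun v _ => hw a n v) (hw a n _)]
      by_cases hz : zv h' a n (g n) = true
      · rw [if_pos hz, if_pos hz]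
        by_contra hcon
        obtain ⟨n', h3, h4, h5⟩ := H _ hcon
        have h6 : n' = n := first_unique h3 h4 (by rw [← iha]; exact h1)
          (fun m hm => by rw [← iha]; exact h2 m hm)
        subst h6
        rw [zv_ev, hz] at h5
        exact Bool.false_ne_true h5.symm
      · rw [if_neg hz, if_neg hz]

end Pool.Agent.GB
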