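import Pool.Agent.GB.Defs

set_option autoImplicit false

/-!
# Module C: terms are coded by points of the Cantor set
-/

namespace Pool.Agent.GB

open Set T

abbrev CodeX : Type := ℕ → Bool

abbrev CodeS : Type :=
  Unit ⊕ ((CodeX × CodeX) ⊕ (((ℕ → CodeX) × (ℕ × ℕ)) ⊕ ((ℕ → CodeX) × ((ℕ → CodeX) × (ℕ → ℕ)))))

theorem code_card_X : Cardinal.mk CodeX = Cardinal.continuum := by
  rw [Cardinal.mk_arrow]
  simp

theorem code_card_NX : Cardinal.mk (ℕ → CodeX) = Cardinal.continuum := by
  rw [Cardinal.mk_arrow, code_card_X]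
  simp

theorem code_card_NN : Cardinal.mk (ℕ → ℕ) = Cardinal.continuum := by
  rw [Cardinal.mk_arrow]
  simp

theorem code_exists : ∃ J : CodeS → CodeX, Function.Injective J := by
  have h : Cardinal.mk CodeS ≤ Cardinal.mk CodeX := by
    have hN : Cardinal.mk (ℕ × ℕ) ≤ Cardinal.continuum := by
      rw [Cardinal.mk_prod]
      simp [Cardinal.aleph0_le_continuum]
    have h1 : Cardinal.mk (CodeX × CodeX) ≤ Cardinal.continuum := by
      rw [Cardinal.mk_prod, Cardinal.lift_id, code_card_X,
        Cardinal.continuum_mul_self]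
    have h2 : Cardinal.mk ((ℕ → CodeX) × (ℕ × ℕ)) ≤ Cardinal.continuum := by
      rw [Cardinal.mk_prod, Cardinal.lift_id, Cardinal.lift_id, code_card_NX]
      exact (mul_le_mul_right hN _).trans Cardinal.continuum_mul_self.le
    have h3 : Cardinal.mk ((ℕ → CodeX) × ((ℕ → CodeX) × (ℕ → ℕ))) ≤ Cardinal.continuum := by
      rw [Cardinal.mk_prod, Cardinal.mk_prod, code_card_NX, code_card_NN]
      simp
    have h0 : Cardinal.mk Unit ≤ Cardinal.continuum := by
      rw [Cardinal.mk_unit]
      exact Cardinal.one_le_aleph0.trans Cardinal.aleph0_le_continuum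
    have hadd : ∀ a b : Cardinal.{0}, a ≤ Cardinal.continuum → b ≤ Cardinal.continuum →
        a + b ≤ Cardinal.continuum := fun a b ha hb =>
      (add_le_add ha hb).trans Cardinal.continuum_add_self.le
    rw [code_card_X, Cardinal.mk_sum, Cardinal.mk_sum, Cardinal.mk_sum]
    simp only [Cardinal.lift_id]
    exact hadd _ _ h0 (hadd _ _ h1 (hadd _ _ h2 h3))
  obtain ⟨J⟩ := h
  exact ⟨J, J.injective⟩

noncomputable def codeR (J : CodeS → CodeX) : T → CodeX
  | T.bot => J (Sum.inl ())
  | T.imp x y => J (Sum.inr (Sum.inl (codeR J x, codeR J y)))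
  | T.w a n v => J (Sum.inr (Sum.inr (Sum.inl (fun k => codeR J (a k), (n, v)))))
  | T.b a e g => J (Sum.inr (Sum.inr (Sum.inr (fun k => codeR J (a k), (fun k => codeR J (e k), g)))))

theorem exists_code : ∃ r : T → (ℕ → Bool), Function.Injective r := by
  obtain ⟨J, hJ⟩ := code_exists
  refine ⟨codeR J, fun x => ?_⟩
  induction x with
  | bot =>
    intro y h
    cases y with
    | bot => rfl
    | imp _ _ => exact absurd (hJ h) (by simp)
    | w _ _ _ => exact absurd (hJ h) (by simp)
    | b _ _ _ => exact absurd (hJ h) (by simp)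
  | imp x1 x2 ih1 ih2 =>
    intro y h
    cases y with
    | bot => exact absurd (hJ h) (by simp)
    | imp y1 y2 =>
      have := hJ h
      simp only [Sum.inr.injEq, Sum.inl.injEq, Prod.mk.injEq] at this
      rw [ih1 this.1, ih2 this.2]
    | w _ _ _ => exact absurd (hJ h) (by simp)
    | b _ _ _ => exact absurd (hJ h) (by simp)
  | w a n v ih =>
    intro y h
    cases y with
    | bot => exact absurd (hJ h) (by simp)
    | imp _ _ => exact absurd (hJ h) (by simp)
    | w a' n' v' =>
      have := hJ h
      simp only [Sum.inr.injEq, Sum.inl.injEq, Prod.mk.injEq] at this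
      have e : a = a' := funext fun k => ih k (congrFun this.1 k)
      rw [e, this.2.1, this.2.2]
    | b _ _ _ => exact absurd (hJ h) (by simp)
  | b a e g iha ihe =>
    intro y h
    cases y with
    | bot => exact absurd (hJ h) (by simp)
    | imp _ _ => exact absurd (hJ h) (by simp)
    | w _ _ _ => exact absurd (hJ h) (by simp)
    | b a' e' g' =>
      have := hJ h
      simp only [Sum.inr.injEq, Prod.mk.injEq] at this
      have e1 : a = a' := funext fun k => iha k (congrFun this.1 k)
      have e2 : e = e' := funext fun k => ihe k (congrFun this.2.1 k)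
      rw [e1, e2, this.2.2]

end Pool.Agent.GB
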