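import Mathlib

set_option autoImplicit false

/-!
# Every probability measure on `Γ → Bool` is an image of a product of uniform measures
-/

namespace Pool.Agent.GB

open Set Filter Topology MeasureTheory ProbabilityTheory

namespace Coup

/-- the uniform measure -/
noncomputable def nu : Measure ℝ := volume.restrict (Icc (0 : ℝ) 1)

instance : IsProbabilityMeasure nu := ⟨by
  simp [nu]⟩

lemma nu_lt {a : ℝ} (h0 : 0 ≤ a) (h1 : a ≤ 1) : nu {u | u < a} = ENNReal.ofReal a := by
  unfold nu
  rw [Measure.restrict_apply (show MeasurableSet {u : ℝ | u < a} from measurableSet_Iio)]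
  have : {u : ℝ | u < a} ∩ Icc 0 1 = Ico 0 a := by
    ext u
    simp only [mem_inter_iff, Set.mem_ofPred_eq, mem_Icc, mem_Ico]
    constructor
    · rintro ⟨h2, h3, h4⟩
      exact ⟨h3, h2⟩
    · rintro ⟨h2, h3⟩
      exact ⟨h3, h2, by linarith⟩
  rw [this, Real.volume_Ico, sub_zero]

/-- the product measure -/
noncomputable def P (Γ : Type) : Measure (Γ → ℝ) := Measure.infinitePi (fun _ : Γ => nu)

instance instProbP (Γ : Type) : IsProbabilityMeasure (P Γ) := by
  unfold P
  infer_instance

lemma map_eval {Γ : Type} (g : Γ) : (P Γ).map (fun U => U g) = nu := by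
  unfold P
  exact Measure.infinitePi_map_eval (fun _ : Γ => nu) g

lemma indep_coord {Γ : Type} : iIndepFun (fun (i : Γ) (U : Γ → ℝ) => U i) (P Γ) := by
  rw [iIndepFun_iff_map_fun_eq_infinitePi_map (fun i => measurable_pi_apply i)]
  simp only [map_eval]
  exact Measure.map_id

/-- cylinders -/
def cyl {I : Type} (s : Finset I) : Set (I → Bool) := {t | ∀ i ∈ s, t i = true}

lemma meas_cyl {I : Type} (s : Finset I) : MeasurableSet (cyl s) := by
  have : cyl s = ⋂ i ∈ s, (fun t : I → Bool => t i) ⁻¹' {true} := by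
    ext t
    simp [cyl]
  rw [this]
  exact Finset.measurableSet_biInter s fun i _ => measurable_pi_apply i (measurableSet_singleton _)

lemma ext_cyl {I : Type} (μ ν : Measure (I → Bool)) [IsProbabilityMeasure μ]
    [IsProbabilityMeasure ν] (h : ∀ s : Finset I, μ (cyl s) = ν (cyl s)) : μ = ν := by
  classical
  apply ext_of_generate_finite (Set.range (cyl (I := I)))
  · apply le_antisymm
    · apply iSup_le
      intro i
      rw [← measurable_iff_comap_le]
      apply @measurable_to_bool _ (MeasurableSpace.generateFrom (Set.range (cyl (I := I))))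
      apply MeasurableSpace.measurableSet_generateFrom
      refine ⟨{i}, ?_⟩
      ext t
      simp [cyl]
    · apply MeasurableSpace.generateFrom_le
      rintro _ ⟨s, rfl⟩
      exact meas_cyl s
  · rintro _ ⟨s, rfl⟩ _ ⟨t, rfl⟩ _
    refine ⟨s ∪ t, ?_⟩
    ext x
    simp only [cyl, Set.mem_ofPred_eq, mem_inter_iff, Finset.mem_union]
    constructor
    · exact fun h => ⟨fun i hi => h i (Or.inl hi), fun i hi => h i (Or.inr hi)⟩
    · rintro ⟨h1, h2⟩ i (hi | hi)
      · exact h1 i hi
      · exact h2 i hi
  · rintro _ ⟨s, rfl⟩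
    exact h s
  · rw [measure_univ, measure_univ]

variable {Γ : Type} [LinearOrder Γ]

/-- restriction -/
def res (g : Γ) (t : Γ → Bool) : Iio g → Bool := fun i => t i

lemma meas_res (g : Γ) : Measurable (res g) :=
  measurable_pi_lambda _ fun i => measurable_pi_apply i.1

/-- conditional probability of the value `true` -/
noncomputable def G (μ : Measure (Γ → Bool)) [IsFiniteMeasure μ] (g : Γ) (x : Iio g → Bool) : ℝ :=
  ((condDistrib (fun t : Γ → Bool => t g) (res g) μ) x {true}).toReal

lemma meas_G (μ : Measure (Γ → Bool)) [IsFiniteMeasure μ] (g : Γ) : Measurable (G μ g) := by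
  unfold G
  exact (Kernel.measurable_coe _ (measurableSet_singleton true)).ennreal_toReal

lemma G_nonneg (μ : Measure (Γ → Bool)) [IsFiniteMeasure μ] (g : Γ) (x : Iio g → Bool) :
    0 ≤ G μ g x := ENNReal.toReal_nonneg

lemma G_le_one (μ : Measure (Γ → Bool)) [IsFiniteMeasure μ] (g : Γ) (x : Iio g → Bool) :
    G μ g x ≤ 1 := by
  unfold G
  apply ENNReal.toReal_le_of_le_ofReal zero_le_one
  rw [ENNReal.ofReal_one]
  exact prob_le_one

lemma ofReal_G (μ : Measure (Γ → Bool)) [IsFiniteMeasure μ] (g : Γ) (x : Iio g → Bool) :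
    ENNReal.ofReal (G μ g x) = (condDistrib (fun t : Γ → Bool => t g) (res g) μ) x {true} := by
  unfold G
  rw [ENNReal.ofReal_toReal (measure_ne_top _ _)]

variable [WellFoundedLT Γ]

open Classical in
/-- the coupling -/
noncomputable def Psi (μ : Measure (Γ → Bool)) [IsFiniteMeasure μ] (U : Γ → ℝ) : Γ → Bool :=
  WellFounded.fix (C := fun _ => Bool) (wellFounded_lt (α := Γ))
    (fun g rec => decide (U g < G μ g (fun i => rec i.1 i.2)))

open Classical in
lemma Psi_eq (μ : Measure (Γ → Bool)) [IsFiniteMeasure μ] (U : Γ → ℝ) (g : Γ) :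
    Psi μ U g = decide (U g < G μ g (res g (Psi μ U))) := by
  unfold Psi
  rw [WellFounded.fix_eq]
  rfl

open Classical in
lemma meas_dec (μ : Measure (Γ → Bool)) [IsFiniteMeasure μ] (g : Γ) {Ω : Type*}
    [MeasurableSpace Ω] {u : Ω → ℝ} {X : Ω → (Iio g → Bool)} (hu : Measurable u)
    (hX : Measurable X) : Measurable (fun ω => decide (u ω < G μ g (X ω))) := by
  apply measurable_to_bool
  have : (fun ω => decide (u ω < G μ g (X ω))) ⁻¹' {true} = {ω | u ω < G μ g (X ω)} := by
    ext ω
    simp
  rw [this]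
  exact measurableSet_lt hu ((meas_G μ g).comp hX)

/-- the `σ`-algebra of a coordinate -/
@[reducible] def cg (i : Γ) : MeasurableSpace (Γ → ℝ) := MeasurableSpace.comap (fun U => U i) inferInstance

lemma cg_le (i : Γ) : cg i ≤ (inferInstance : MeasurableSpace (Γ → ℝ)) :=
  (measurable_pi_apply i).comap_le

lemma meas_Psi (μ : Measure (Γ → Bool)) [IsFiniteMeasure μ] (g : Γ) :
    Measurable[⨆ i ∈ Iic g, cg i] (fun U => Psi μ U g) := by
  induction g using WellFoundedLT.induction with
  | ind g ih =>
    have e : (fun U => Psi μ U g) = fun U => @decide (U g < G μ g (res g (Psi μ U)))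
        (Classical.propDecidable _) := by
      funext U
      rw [Psi_eq]
    rw [e]
    refine @meas_dec Γ _ _ μ _ g (Γ → ℝ) (⨆ i ∈ Iic g, cg i) _ _ ?_ ?_
    · rw [measurable_iff_comap_le]
      exact le_iSup₂_of_le (f := fun i (_ : i ∈ Iic g) => cg i) g self_mem_Iic le_rfl
    · refine @measurable_pi_lambda (Γ → ℝ) (Iio g) (fun _ => Bool) (⨆ i ∈ Iic g, cg i) _ _ ?_
      intro j
      have hle : (⨆ i ∈ Iic j.1, cg i) ≤ ⨆ i ∈ Iic g, cg i :=
        biSup_mono fun i hi => le_trans hi (le_of_lt j.2)
      exact (ih j.1 j.2).mono hle le_rfl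

lemma iSup_cg_le (S : Set Γ) : (⨆ i ∈ S, cg i) ≤ (inferInstance : MeasurableSpace (Γ → ℝ)) :=
  iSup₂_le fun i _ => cg_le i

lemma measurable_Psi (μ : Measure (Γ → Bool)) [IsFiniteMeasure μ] : Measurable (Psi μ) :=
  measurable_pi_lambda _ fun g => (meas_Psi μ g).mono (iSup_cg_le _) le_rfl

lemma meas_res_Psi (μ : Measure (Γ → Bool)) [IsFiniteMeasure μ] (g : Γ) :
    Measurable[⨆ i ∈ Iio g, cg i] (fun U => res g (Psi μ U)) := by
  refine @measurable_pi_lambda (Γ → ℝ) (Iio g) (fun _ => Bool) (⨆ i ∈ Iio g, cg i) _ _ ?_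
  intro j
  have hle : (⨆ i ∈ Iic j.1, cg i) ≤ ⨆ i ∈ Iio g, cg i :=
    biSup_mono fun i hi => lt_of_le_of_lt hi j.2
  exact (meas_Psi μ j.1).mono hle le_rfl

lemma joint (μ : Measure (Γ → Bool)) [IsFiniteMeasure μ] (g : Γ) :
    (P Γ).map (fun U => (res g (Psi μ U), U g)) = ((P Γ).map (fun U => res g (Psi μ U))).prod nu := by
  have hX : Measurable (fun U => res g (Psi μ U)) := (meas_res_Psi μ g).mono (iSup_cg_le _) le_rfl
  have hY : Measurable (fun U : Γ → ℝ => U g) := measurable_pi_apply g
  have hind : IndepFun (fun U => res g (Psi μ U)) (fun U : Γ → ℝ => U g) (P Γ) := by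
    rw [IndepFun_iff_Indep]
    have h1 : iIndep (fun i : Γ => cg i) (P Γ) := by
      have := (iIndepFun_iff_iIndep _ _ _).mp (indep_coord (Γ := Γ))
      exact this
    have h2 := indep_iSup_of_disjoint (fun i => cg_le i) h1 (S := Iio g) (T := {g})
      (by simp)
    refine indep_of_indep_of_le_left (indep_of_indep_of_le_right h2 ?_) ?_
    · exact le_iSup₂_of_le (f := fun i (_ : i ∈ ({g} : Set Γ)) => cg i) g rfl le_rfl
    · rw [← measurable_iff_comap_le]
      exact meas_res_Psi μ g
  rw [(indepFun_iff_map_prod_eq_prod_map_map hX.aemeasurable hY.aemeasurable).mp hind, map_eval]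

open Classical in
lemma pointwise (μ : Measure (Γ → Bool)) [IsFiniteMeasure μ] (g : Γ) (x : Iio g → Bool) :
    nu.map (fun u => decide (u < G μ g x)) = condDistrib (fun t : Γ → Bool => t g) (res g) μ x := by
  have hm : Measurable (fun u : ℝ => decide (u < G μ g x)) := by
    apply measurable_to_bool
    have : (fun u : ℝ => decide (u < G μ g x)) ⁻¹' {true} = {u | u < G μ g x} := by
      ext u
      simp
    rw [this]
    exact measurableSet_Iio
  have ht : nu.map (fun u => decide (u < G μ g x)) {true}
      = condDistrib (fun t : Γ → Bool => t g) (res g) μ x {true} := by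
    rw [Measure.map_apply hm (measurableSet_singleton _)]
    have : (fun u : ℝ => decide (u < G μ g x)) ⁻¹' {true} = {u | u < G μ g x} := by
      ext u
      simp
    rw [this, nu_lt (G_nonneg μ g x) (G_le_one μ g x), ofReal_G]
  have : IsProbabilityMeasure (nu.map (fun u => decide (u < G μ g x))) :=
    Measure.isProbabilityMeasure_map hm.aemeasurable
  apply Measure.ext_of_singleton
  intro b
  cases b with
  | true => exact ht
  | false =>
    have e : ({false} : Set Bool) = {true}ᶜ := by
      ext b
      cases b <;> simp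
    rw [e, prob_compl_eq_one_sub (measurableSet_singleton _),
      prob_compl_eq_one_sub (measurableSet_singleton _), ht]

/-- joint law of a restriction and the next bit -/
lemma next (μ : Measure (Γ → Bool)) [IsFiniteMeasure μ] (g : Γ)
    (h : (P Γ).map (fun U => res g (Psi μ U)) = μ.map (res g)) :
    (P Γ).map (fun U => (res g (Psi μ U), Psi μ U g)) = μ.map (fun t => (res g t, t g)) := by
  classical
  have hX : Measurable (fun U => res g (Psi μ U)) := (meas_res_Psi μ g).mono (iSup_cg_le _) le_rfl
  have hY : Measurable (fun U : Γ → ℝ => U g) := measurable_pi_apply g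
  set φ : (Iio g → Bool) × ℝ → (Iio g → Bool) × Bool :=
    fun p => (p.1, decide (p.2 < G μ g p.1)) with hφ
  have hφm : Measurable φ := measurable_fst.prodMk (meas_dec μ g measurable_snd measurable_fst)
  have e1 : (P Γ).map (fun U => (res g (Psi μ U), Psi μ U g))
      = ((P Γ).map (fun U => (res g (Psi μ U), U g))).map φ := by
    rw [Measure.map_map hφm (hX.prodMk hY)]
    congr 1
    funext U
    simp only [Function.comp_apply, hφ, Prod.mk.injEq, true_and]
    rw [Psi_eq]
  rw [e1, joint, h, ← compProd_map_condDistrib (measurable_pi_apply g).aemeasurable]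
  ext S hS
  have : IsFiniteMeasure (μ.map (res g)) := by infer_instance
  rw [Measure.map_apply hφm hS, Measure.prod_apply (hφm hS), Measure.compProd_apply hS]
  apply lintegral_congr
  intro x
  have hm : Measurable (fun u : ℝ => decide (u < G μ g x)) :=
    meas_dec μ g measurable_id measurable_const
  rw [← pointwise μ g x, Measure.map_apply hm (measurable_prodMk_left hS)]
  rfl

/-- cylinders with largest index `g` -/
lemma cyl_of_next (μ : Measure (Γ → Bool)) [IsFiniteMeasure μ] (g : Γ)
    (h : (P Γ).map (fun U => (res g (Psi μ U), Psi μ U g)) = μ.map (fun t => (res g t, t g)))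
    (s : Finset Γ) (hs : ∀ i ∈ s, i ≤ g) (hg : g ∈ s) :
    P Γ {U | ∀ i ∈ s, Psi μ U i = true} = μ {t | ∀ i ∈ s, t i = true} := by
  have hX : Measurable (fun U => res g (Psi μ U)) := (meas_res_Psi μ g).mono (iSup_cg_le _) le_rfl
  have hY : Measurable (fun U => Psi μ U g) :=
    (measurable_pi_apply g).comp (measurable_Psi μ)
  set S : Set ((Iio g → Bool) × Bool) :=
    {p | (∀ i : Iio g, i.1 ∈ s → p.1 i = true) ∧ p.2 = true} with hS
  have hSm : MeasurableSet S := by
    have : S = (⋂ i ∈ s, {p : (Iio g → Bool) × Bool | ∀ hi : i < g, p.1 ⟨i, hi⟩ = true}) ∩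
        Prod.snd ⁻¹' {true} := by
      ext p
      simp only [hS, Set.mem_ofPred_eq, mem_inter_iff, mem_iInter, mem_preimage, mem_singleton_iff]
      constructor
      · rintro ⟨h1, h2⟩
        exact ⟨fun i hi hig => h1 ⟨i, hig⟩ hi, h2⟩
      · rintro ⟨h1, h2⟩
        exact ⟨fun i hi => h1 i.1 hi i.2, h2⟩
    rw [this]
    apply MeasurableSet.inter _ (measurable_snd (measurableSet_singleton _))
    apply Finset.measurableSet_biInter
    intro i _
    by_cases hi : i < g
    · have : {p : (Iio g → Bool) × Bool | ∀ hi : i < g, p.1 ⟨i, hi⟩ = true}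
          = (fun p : (Iio g → Bool) × Bool => p.1 ⟨i, hi⟩) ⁻¹' {true} := by
        ext p
        simp [hi]
      rw [this]
      exact ((measurable_pi_apply _).comp measurable_fst) (measurableSet_singleton _)
    · have : {p : (Iio g → Bool) × Bool | ∀ hi : i < g, p.1 ⟨i, hi⟩ = true} = univ := by
        ext p
        simp [hi]
      rw [this]
      exact MeasurableSet.univ
  have key : ∀ t : Γ → Bool, (∀ i ∈ s, t i = true) ↔ (res g t, t g) ∈ S := by
    intro t
    simp only [hS, Set.mem_ofPred_eq, res]
    constructor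
    · intro h1
      exact ⟨fun i hi => h1 i.1 hi, h1 g hg⟩
    · rintro ⟨h1, h2⟩ i hi
      rcases (hs i hi).lt_or_eq with h3 | h3
      · exact h1 ⟨i, h3⟩ hi
      · rw [h3]
        exact h2
  have e1 : ((P Γ).map (fun U => (res g (Psi μ U), Psi μ U g))) S
      = (μ.map (fun t => (res g t, t g))) S := by rw [h]
  rw [Measure.map_apply (hX.prodMk hY) hSm,
    Measure.map_apply ((meas_res g).prodMk (measurable_pi_apply g)) hSm] at e1
  convert e1 using 2
  · ext U
    exact key (Psi μ U)
  · ext t
    exact key t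

lemma law_res (μ : Measure (Γ → Bool)) [IsProbabilityMeasure μ] (g : Γ) :
    (P Γ).map (fun U => res g (Psi μ U)) = μ.map (res g) := by
  induction g using WellFoundedLT.induction with
  | ind g ih =>
    have hX : Measurable (fun U => res g (Psi μ U)) :=
      (meas_res_Psi μ g).mono (iSup_cg_le _) le_rfl
    have : IsProbabilityMeasure ((P Γ).map (fun U => res g (Psi μ U))) :=
      Measure.isProbabilityMeasure_map hX.aemeasurable
    have : IsProbabilityMeasure (μ.map (res g)) :=
      Measure.isProbabilityMeasure_map (meas_res g).aemeasurable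
    apply ext_cyl
    intro s
    rw [Measure.map_apply hX (meas_cyl s), Measure.map_apply (meas_res g) (meas_cyl s)]
    rcases s.eq_empty_or_nonempty with rfl | hne
    · simp [cyl]
    · set h := (s.max' hne) with hh
      have h1 := cyl_of_next μ h.1 (next μ h.1 (ih h.1 h.2)) (s.map (Function.Embedding.subtype _))
        (by
          intro i hi
          rw [Finset.mem_map] at hi
          obtain ⟨j, hj, rfl⟩ := hi
          exact s.le_max' j hj)
        (by
          rw [Finset.mem_map]
          exact ⟨h, s.max'_mem hne, rfl⟩)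
      convert h1 using 2
      · ext U
        simp [cyl, res]
      · ext t
        simp [cyl, res]

lemma law (μ : Measure (Γ → Bool)) [IsProbabilityMeasure μ] : (P Γ).map (Psi μ) = μ := by
  have : IsProbabilityMeasure ((P Γ).map (Psi μ)) :=
    Measure.isProbabilityMeasure_map (measurable_Psi μ).aemeasurable
  apply ext_cyl
  intro s
  rw [Measure.map_apply (measurable_Psi μ) (meas_cyl s)]
  rcases s.eq_empty_or_nonempty with rfl | hne
  · simp [cyl]
  · exact cyl_of_next μ (s.max' hne) (next μ _ (law_res μ _)) s (fun i hi => s.le_max' i hi)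
      (s.max'_mem hne)

end Coup

theorem coupling {Γ : Type} (μ : Measure (Γ → Bool)) [IsProbabilityMeasure μ] :
    ∃ Ψ : (Γ → ℝ) → (Γ → Bool), Measurable Ψ ∧
      (Measure.infinitePi (fun _ : Γ => (volume.restrict (Icc (0:ℝ) 1)))).map Ψ = μ := by
  obtain ⟨inst, hwf⟩ := exists_wellFoundedLT Γ
  exact ⟨Coup.Psi μ, Coup.measurable_Psi μ, Coup.law μ⟩

end Pool.Agent.GB
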