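import Pool.Agent.GB.Defs2

/-! Few coordinates are sensitive with small certificates (module D1 of MP_bb644c_an). -/

set_option autoImplicit false

namespace Pool.Agent.GB

open Finset

open Classical in
theorem cube_card {Q : Type} [Fintype Q] (s : Finset Q) (ψ : Q → Bool) :
    2 ^ Fintype.card Q ≤
      (Finset.univ.filter (fun φ : Q → Bool => ∀ x ∈ s, φ x = ψ x)).card * 2 ^ s.card := by
  have h1 : 2 ^ Fintype.card Q = (Finset.univ : Finset (Q → Bool)).card := by
    rw [Finset.card_univ, Fintype.card_fun, Fintype.card_bool]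
  rw [h1, ← Finset.card_powerset, ← Finset.card_product]
  refine Finset.card_le_card_of_injOn
    (fun φ => ((fun x => if x ∈ s then ψ x else φ x), s.filter (fun x => φ x = true))) ?_ ?_
  · intro φ _
    simp only [Finset.coe_product, Set.mem_prod, Finset.mem_coe, Finset.mem_filter,
      Finset.mem_univ, true_and, Finset.mem_powerset]
    exact ⟨fun x hx => by rw [if_pos hx], Finset.filter_subset _ _⟩
  · intro φ _ φ' _ h
    simp only [Prod.mk.injEq] at h
    obtain ⟨ha, hb⟩ := h
    funext x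
    by_cases hx : x ∈ s
    · have h2 : x ∈ s.filter (fun x => φ x = true) ↔ x ∈ s.filter (fun x => φ' x = true) := by
        rw [hb]
      simp only [Finset.mem_filter, hx, true_and] at h2
      exact Bool.eq_iff_iff.2 h2
    · have h2 := congrFun ha x
      simpa only [if_neg hx] using h2

theorem card_sens {Q : Type} [Fintype Q] (F : (Q → Bool) → ℝ) {p q : ℝ} (hpq : p < q)
    (l : ℕ) (S : Finset Q) (hS : ∀ σ ∈ S, Sens F p q l σ) : S.card ≤ (l + 1) * 2 ^ l := by
  classical
  choose! s ψ hcard hnot hsens using hS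
  -- a certificate of another sensitive coordinate contains every sensitive coordinate
  have key : ∀ φ : Q → Bool, ∀ σ ∈ S, ∀ σ' ∈ S, (∀ x ∈ s σ, φ x = ψ σ x) →
      (∀ x ∈ s σ', φ x = ψ σ' x) → σ ≠ σ' → σ ∈ s σ' := by
    intro φ σ hσ σ' hσ' h1 h2 hne
    by_contra hcon
    set φ' : Q → Bool := Function.update φ σ (!φ σ) with hφ'
    have e1 : φ' σ = !φ σ := Function.update_self _ _ _
    have e2 : φ' σ' = φ σ' := Function.update_of_ne hne.symm _ _
    have h1' : ∀ x ∈ s σ, φ' x = ψ σ x := by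
      intro x hx
      have hne' : x ≠ σ := by
        rintro rfl
        exact hnot _ hσ hx
      rw [hφ', Function.update_of_ne hne']
      exact h1 x hx
    have h2' : ∀ x ∈ s σ', φ' x = ψ σ' x := by
      intro x hx
      have hne' : x ≠ σ := by
        rintro rfl
        exact hcon hx
      rw [hφ', Function.update_of_ne hne']
      exact h2 x hx
    -- the values at `φ`, `φ'` are on different sides
    have hA : (F φ ≤ p ∧ q ≤ F φ') ∨ (F φ' ≤ p ∧ q ≤ F φ) := by
      rcases hsens σ hσ with h | h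
      · rcases hb : φ σ with _ | _
        · left
          exact ⟨(h φ h1).1 hb, (h φ' h1').2 (by rw [e1, hb]; rfl)⟩
        · right
          exact ⟨(h φ' h1').1 (by rw [e1, hb]; rfl), (h φ h1).2 hb⟩
      · rcases hb : φ σ with _ | _
        · right
          exact ⟨(h φ' h1').1 (by rw [e1, hb]; rfl), (h φ h1).2 hb⟩
        · left
          exact ⟨(h φ h1).1 hb, (h φ' h1').2 (by rw [e1, hb]; rfl)⟩
    have hB : (F φ ≤ p ∧ F φ' ≤ p) ∨ (q ≤ F φ ∧ q ≤ F φ') := by
      rcases hsens σ' hσ' with h | h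
      · rcases hb : φ σ' with _ | _
        · left
          exact ⟨(h φ h2).1 hb, (h φ' h2').1 (by rw [e2, hb])⟩
        · right
          exact ⟨(h φ h2).2 hb, (h φ' h2').2 (by rw [e2, hb])⟩
      · rcases hb : φ σ' with _ | _
        · right
          exact ⟨(h φ h2).2 hb, (h φ' h2').2 (by rw [e2, hb])⟩
        · left
          exact ⟨(h φ h2).1 hb, (h φ' h2').1 (by rw [e2, hb])⟩
    rcases hA with ⟨a, b⟩ | ⟨a, b⟩ <;> rcases hB with ⟨c, d⟩ | ⟨c, d⟩ <;> linarith
  have hfix : ∀ φ : Q → Bool, (S.filter (fun σ => ∀ x ∈ s σ, φ x = ψ σ x)).card ≤ l + 1 := by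
    intro φ
    rcases (S.filter (fun σ => ∀ x ∈ s σ, φ x = ψ σ x)).eq_empty_or_nonempty with h | ⟨σ0, h0⟩
    · rw [h]
      simp
    · rw [Finset.mem_filter] at h0
      have hsub : S.filter (fun σ => ∀ x ∈ s σ, φ x = ψ σ x) ⊆ insert σ0 (s σ0) := by
        intro σ hσ
        rw [Finset.mem_filter] at hσ
        by_cases hne : σ = σ0
        · rw [hne]
          exact Finset.mem_insert_self _ _
        · exact Finset.mem_insert_of_mem (key φ σ hσ.1 σ0 h0.1 hσ.2 h0.2 hne)
      calc _ ≤ (insert σ0 (s σ0)).card := Finset.card_le_card hsub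
        _ ≤ (s σ0).card + 1 := Finset.card_insert_le _ _
        _ ≤ l + 1 := Nat.add_le_add_right (hcard σ0 h0.1) 1
  have hdc : ∑ σ ∈ S, (Finset.univ.filter (fun φ : Q → Bool => ∀ x ∈ s σ, φ x = ψ σ x)).card =
      ∑ φ : Q → Bool, (S.filter (fun σ => ∀ x ∈ s σ, φ x = ψ σ x)).card := by
    simp only [Finset.card_filter]
    exact Finset.sum_comm
  have hlow : S.card * 2 ^ Fintype.card Q ≤
      (∑ σ ∈ S, (Finset.univ.filter (fun φ : Q → Bool => ∀ x ∈ s σ, φ x = ψ σ x)).card) *
        2 ^ l := by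
    rw [Finset.sum_mul, ← smul_eq_mul, ← Finset.sum_const]
    refine Finset.sum_le_sum fun σ hσ => ?_
    refine (cube_card (s σ) (ψ σ)).trans ?_
    exact Nat.mul_le_mul_left _ (Nat.pow_le_pow_right (by norm_num) (hcard σ hσ))
  have hup : ∑ φ : Q → Bool, (S.filter (fun σ => ∀ x ∈ s σ, φ x = ψ σ x)).card ≤
      2 ^ Fintype.card Q * (l + 1) := by
    calc _ ≤ ∑ _φ : Q → Bool, (l + 1) := Finset.sum_le_sum fun φ _ => hfix φ
      _ = 2 ^ Fintype.card Q * (l + 1) := by
        rw [Finset.sum_const, Finset.card_univ, Fintype.card_fun, Fintype.card_bool, smul_eq_mul]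
  rw [hdc] at hlow
  have h5 : S.card * 2 ^ Fintype.card Q ≤ ((l + 1) * 2 ^ l) * 2 ^ Fintype.card Q := by
    calc _ ≤ _ := hlow
      _ ≤ (2 ^ Fintype.card Q * (l + 1)) * 2 ^ l := Nat.mul_le_mul_right _ hup
      _ = _ := by ring
  exact Nat.le_of_mul_le_mul_right h5 (by positivity)

end Pool.Agent.GB
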