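import Pool.Agent.GB.Top

set_option autoImplicit false

/-!
# Module D2: sensitive generators are seen on the blocks, and the blocks are dense
-/

namespace Pool.Agent.GB

open Set Filter Topology MeasureTheory T

/-- finitely many terms have pairwise distinct labels on late levels -/
theorem exists_lab_injOn {r : T → ℕ → Bool} (hr : Function.Injective r) (S : Finset T) :
    ∃ j0 : ℕ, ∀ j, j0 ≤ j → ∀ y ∈ S, ∀ z ∈ S, lab r j y = lab r j z → y = z := by
  classical
  have H : ∀ p : T × T, ∃ i : ℕ, p.1 ≠ p.2 → r p.1 i ≠ r p.2 i := by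
    intro p
    by_cases h : p.1 = p.2
    · exact ⟨0, fun h' => absurd h h'⟩
    · have h1 : r p.1 ≠ r p.2 := fun h' => h (hr h')
      obtain ⟨i, hi⟩ := Function.ne_iff.1 h1
      exact ⟨i, fun _ => hi⟩
  choose i hi using H
  refine ⟨(S ×ˢ S).sup (fun p => i p + 1), ?_⟩
  intro j hj y hy z hz hyz
  by_contra hne
  have h1 : i (y, z) + 1 ≤ j :=
    (Finset.le_sup (f := fun p => i p + 1) (Finset.mk_mem_product hy hz)).trans hj
  exact hi (y, z) hne (congr_fun hyz ⟨i (y, z), h1⟩)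

/-- transport of a condition to a level on which the labels are distinct -/
theorem exists_psi {r : T → ℕ → Bool} {j : ℕ} (c : Cond)
    (hj : ∀ y ∈ c.s, ∀ z ∈ c.s, lab r j y = lab r j z → y = z) :
    ∃ ψ : (Fin j → Bool) → Bool, ∀ y ∈ c.s, ψ (lab r j y) = c.p y := by
  classical
  refine ⟨fun σ => if h : ∃ y, y ∈ c.s ∧ lab r j y = σ then c.p h.choose else false, ?_⟩
  intro y hy
  have h : ∃ z, z ∈ c.s ∧ lab r j z = lab r j y := ⟨y, hy, rfl⟩
  show (if h : ∃ z, z ∈ c.s ∧ lab r j z = lab r j y then c.p h.choose else false) = c.p y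
  rw [dif_pos h, hj _ h.choose_spec.1 _ hy h.choose_spec.2]

theorem Gs_sub_Hs {r : T → ℕ → Bool} (hr : Function.Injective r) (f : C(K, ℝ)) (x : T) (hx : x ∈ Gs f) :
    ∃ (p q : ℚ) (l j0 : ℕ), (p : ℝ) < q ∧ x ∈ Hs r p q l j0 f := by
  classical
  obtain ⟨c, p, q, hxc, hpq, H⟩ := hx
  obtain ⟨p', hp1, hp2⟩ := exists_rat_btwn hpq
  obtain ⟨q', hq1, hq2⟩ := exists_rat_btwn hp2
  obtain ⟨j0, hj0⟩ := exists_lab_injOn hr (insert x c.s)
  refine ⟨p', q', c.s.card, j0, hq1, ?_⟩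
  intro j hj
  have hinj := hj0 j hj
  obtain ⟨ψ, hψ⟩ := exists_psi (r := r) (j := j) c (fun y hy z hz hyz =>
    hinj y (Finset.mem_insert_of_mem hy) z (Finset.mem_insert_of_mem hz) hyz)
  refine ⟨c.s.image (lab r j), ψ, Finset.card_image_le, ?_, ?_⟩
  · intro hmem
    obtain ⟨y, hy, hyx⟩ := Finset.mem_image.1 hmem
    have : y = x := hinj y (Finset.mem_insert_of_mem hy) x (Finset.mem_insert_self _ _) hyx
    exact hxc (this ▸ hy)
  · have hmem : ∀ φ : (Fin j → Bool) → Bool, (∀ σ ∈ c.s.image (lab r j), φ σ = ψ σ) →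
        c.Mem (fun y => φ (lab r j y)) := by
      intro φ hφ y hy
      show φ (lab r j y) = c.p y
      rw [hφ _ (Finset.mem_image_of_mem _ hy), hψ y hy]
    rcases H with H | H
    · left
      intro φ hφ
      obtain ⟨h1, h2⟩ := H _ (hmem φ hφ)
      exact ⟨fun h => (h1 h).trans hp1.le, fun h => hq2.le.trans (h2 h)⟩
    · right
      intro φ hφ
      obtain ⟨h1, h2⟩ := H _ (hmem φ hφ)
      exact ⟨fun h => (h1 h).trans hp1.le, fun h => hq2.le.trans (h2 h)⟩

/-- the blocks are dense, so that the norm is determined by them -/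
theorem norm_le_of_blocks_of
    (exists_force : ∀ (t : K) (X : Finset T), ∃ c : Cond, ∀ h, c.Mem h → ∀ x ∈ X, ev h x = t.1 x)
    {r : T → ℕ → Bool} (hr : Function.Injective r) (f : C(K, ℝ)) {ε : ℝ}
    (hε : 0 ≤ ε) (h : ∀ j φ, |f (PP r j φ)| ≤ ε) : ‖f‖ ≤ ε := by
  rw [ContinuousMap.norm_le f hε]
  intro t
  rw [Real.norm_eq_abs]
  by_contra hcon
  rw [not_le] at hcon
  have hO : IsOpen {t : K | ε < |f t|} := isOpen_lt continuous_const (f.continuous.abs)
  obtain ⟨X, hX⟩ := exists_finset_nhds t _ hO hcon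
  obtain ⟨c, hc⟩ := exists_force t X
  obtain ⟨j, hj⟩ := exists_lab_injOn hr c.s
  obtain ⟨ψ, hψ⟩ := exists_psi (r := r) (j := j) c (hj j le_rfl)
  have h1 : PP r j ψ ∈ {t : K | ε < |f t|} := by
    apply hX
    intro x hx
    exact hc (fun y => ψ (lab r j y)) (fun y hy => hψ y hy) x hx
  exact absurd (h j ψ) (not_le.2 h1)

end Pool.Agent.GB
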