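import Pool.Agent.GB.Defs2

set_option autoImplicit false

/-!
# Module D3: no fakes
-/

namespace Pool.Agent.GB

open Set Filter Topology MeasureTheory T

/-- for large `j` the labels of a finite set are distinct -/
theorem eventually_lab_inj {r : T → ℕ → Bool} (hr : Function.Injective r) (S : Finset T) :
    ∀ᶠ j in atTop, ∀ x ∈ S, ∀ y ∈ S, lab r j x = lab r j y → x = y := by
  rw [Filter.eventually_all_finset]
  intro x _
  rw [Filter.eventually_all_finset]
  intro y _
  by_cases hxy : x = y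
  · exact Eventually.of_forall (fun _ _ => hxy)
  · have h1 : ∃ i, r x i ≠ r y i := by
      by_contra hcon
      push Not at hcon
      exact hxy (hr (funext hcon))
    obtain ⟨i, hi⟩ := h1
    filter_upwards [eventually_gt_atTop i] with j hj h
    exact absurd (congrFun h ⟨i, hj⟩) hi

/-- for large `j` the labels of a finite set are different from a branch which is not a code -/
theorem eventually_lab_ne {r : T → ℕ → Bool} (ρ : ℕ → Bool) (S : Finset T)
    (h : ∀ x ∈ S, r x ≠ ρ) :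
    ∀ᶠ j in atTop, ∀ x ∈ S, lab r j x ≠ (fun i : Fin j => ρ i) := by
  rw [Filter.eventually_all_finset]
  intro x hx
  have h1 : ∃ i, r x i ≠ ρ i := by
    by_contra hcon
    push Not at hcon
    exact h x hx (funext hcon)
  obtain ⟨i, hi⟩ := h1
  filter_upwards [eventually_gt_atTop i] with j hj h
  exact absurd (congrFun h ⟨i, hj⟩) hi

theorem exists_cube {r : T → ℕ → Bool} (j : ℕ) (c : Cond) (s : Finset (Fin j → Bool))
    (ψ : (Fin j → Bool) → Bool)
    (h1 : ∀ x ∈ c.s, ∀ y ∈ c.s, lab r j x = lab r j y → x = y)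
    (h2 : ∀ x ∈ c.s, lab r j x ∈ s → ψ (lab r j x) = c.p x) :
    ∃ φ : (Fin j → Bool) → Bool, (∀ x ∈ c.s, φ (lab r j x) = c.p x) ∧ ∀ y ∈ s, φ y = ψ y := by
  classical
  refine ⟨fun y => if H : ∃ x ∈ c.s, lab r j x = y then c.p H.choose else ψ y, ?_, ?_⟩
  · intro x hx
    have H : ∃ x' ∈ c.s, lab r j x' = lab r j x := ⟨x, hx, rfl⟩
    simp only [dif_pos H]
    rw [h1 _ H.choose_spec.1 x hx H.choose_spec.2]
  · intro y hy
    by_cases H : ∃ x' ∈ c.s, lab r j x' = y
    · simp only [dif_pos H]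
      have h3 := h2 _ H.choose_spec.1 (by rw [H.choose_spec.2]; exact hy)
      rw [← h3, H.choose_spec.2]
    · simp only [dif_neg H]

theorem no_fakes_of (hosc : ∀ (c : Cond) (f : C(K, ℝ)) {ε : ℝ} (_ : 0 < ε),
      ∃ c' : Cond, c.Le c' ∧ ∀ h h', c'.Mem h → c'.Mem h' → |f (pt h) - f (pt h')| < ε)
    {r : T → ℕ → Bool} (hr : Function.Injective r) (f : C(K, ℝ)) {p q : ℝ} (hpq : p < q)
    (l j0 : ℕ) (ρ : ℕ → Bool)
    (h : ∀ j, j0 ≤ j → Sens (fun φ => f (PP r j φ)) p q l (fun i : Fin j => ρ i)) :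
    ∃ x ∈ Gs f, r x = ρ := by
  classical
  have h1 : ∀ j, ∃ (s : Finset (Fin j → Bool)) (ψ : (Fin j → Bool) → Bool) (o : Bool), j0 ≤ j →
      s.card ≤ l ∧ (fun i : Fin j => ρ i) ∉ s ∧
      ∀ φ : (Fin j → Bool) → Bool, (∀ x ∈ s, φ x = ψ x) →
        (φ (fun i : Fin j => ρ i) = o → f (PP r j φ) ≤ p) ∧
        (φ (fun i : Fin j => ρ i) = (!o) → q ≤ f (PP r j φ)) := by
    intro j
    by_cases hj : j0 ≤ j
    · obtain ⟨s, ψ, hs, hσ, h2 | h2⟩ := h j hj
      · exact ⟨s, ψ, false, fun _ => ⟨hs, hσ, h2⟩⟩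
      · exact ⟨s, ψ, true, fun _ => ⟨hs, hσ, h2⟩⟩
    · exact ⟨∅, fun _ => false, false, fun hj' => absurd hj' hj⟩
  choose s ψ o hso using h1
  -- the ultrafilter
  have hle : ((Filter.hyperfilter ℕ : Ultrafilter ℕ) : Filter ℕ) ≤ atTop :=
    Nat.hyperfilter_le_atTop
  set G : Ultrafilter ℕ := Filter.hyperfilter ℕ with hG
  have hj0 : ∀ᶠ j in (G : Filter ℕ), j0 ≤ j := hle (eventually_ge_atTop j0)
  -- the majority orientation
  obtain ⟨o', ho'⟩ : ∃ o' : Bool, ∀ᶠ j in (G : Filter ℕ), o j = o' := by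
    by_cases ho : ∀ᶠ j in (G : Filter ℕ), o j = true
    · exact ⟨true, ho⟩
    · refine ⟨false, ?_⟩
      have := (Ultrafilter.eventually_not (f := G)).2 ho
      filter_upwards [this] with j hj
      simpa using hj
  set A : Set T := {x | ∀ᶠ j in (G : Filter ℕ), lab r j x ∈ s j} with hA
  have hAfin : A.Finite := by
    by_contra hinf
    obtain ⟨S, hSA, hScard⟩ := (show A.Infinite from hinf).exists_subset_card_eq (l + 1)
    have h2 : ∀ᶠ j in (G : Filter ℕ), ∀ x ∈ S, lab r j x ∈ s j := by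
      rw [Filter.eventually_all_finset]
      intro x hx
      exact hSA hx
    have h3 : ∀ᶠ j in (G : Filter ℕ), ∀ x ∈ S, ∀ y ∈ S, lab r j x = lab r j y → x = y :=
      hle (eventually_lab_inj hr S)
    obtain ⟨j, hj1, hj2, hj3⟩ := ((h2.and (h3.and hj0))).exists
    have h4 : (S.image (lab r j)).card = l + 1 := by
      rw [Finset.card_image_of_injOn, hScard]
      intro x hx y hy hxy
      exact hj2 x hx y hy hxy
    have h5 : S.image (lab r j) ⊆ s j := by
      intro y hy
      obtain ⟨x, hx, rfl⟩ := Finset.mem_image.1 hy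
      exact hj1 x hx
    have h6 := Finset.card_le_card h5
    have h7 := (hso j hj3).1
    omega
  set p0 : T → Bool := fun x => decide (∀ᶠ j in (G : Filter ℕ), ψ j (lab r j x) = true) with hp0
  have hp0' : ∀ x, ∀ᶠ j in (G : Filter ℕ), ψ j (lab r j x) = p0 x := by
    intro x
    by_cases hx : ∀ᶠ j in (G : Filter ℕ), ψ j (lab r j x) = true
    · have : p0 x = true := decide_eq_true hx
      rw [this]
      exact hx
    · have : p0 x = false := decide_eq_false hx
      rw [this]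
      have := (Ultrafilter.eventually_not (f := G)).2 hx
      filter_upwards [this] with j hj
      simpa using hj
  set c0 : Cond := ⟨hAfin.toFinset, p0⟩ with hc0
  have hc0s : ∀ x, x ∈ c0.s ↔ x ∈ A := fun x => hAfin.mem_toFinset
  -- compatibility
  have comp : ∀ c : Cond, c0.Le c → ∀ᶠ j in (G : Filter ℕ),
      ∃ φ : (Fin j → Bool) → Bool, (∀ x ∈ c.s, φ (lab r j x) = c.p x) ∧ ∀ y ∈ s j, φ y = ψ j y := by
    intro c hc
    have h2 : ∀ᶠ j in (G : Filter ℕ), ∀ x ∈ c.s, lab r j x ∈ s j → ψ j (lab r j x) = c.p x := by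
      rw [Filter.eventually_all_finset]
      intro x hx
      by_cases hxA : x ∈ A
      · have h3 : c.p x = p0 x := hc.2 x ((hc0s x).2 hxA)
        filter_upwards [hp0' x] with j hj _
        rw [hj, h3]
      · have := (Ultrafilter.eventually_not (f := G)).2 hxA
        filter_upwards [this] with j hj hj2
        exact absurd hj2 hj
    filter_upwards [h2, hle (eventually_lab_inj hr c.s)] with j hj1 hj2
    exact exists_cube j c (s j) (ψ j) hj2 hj1
  -- Step 1
  obtain ⟨c, hc, hcosc⟩ := hosc c0 f (ε := q - p) (by linarith)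
  have step1 : ∃ x0 ∈ c.s, r x0 = ρ := by
    by_contra hcon
    push Not at hcon
    have h2 : ∀ᶠ j in (G : Filter ℕ), ∀ x ∈ c.s, lab r j x ≠ (fun i : Fin j => ρ i) :=
      hle (eventually_lab_ne ρ c.s hcon)
    obtain ⟨j, ⟨φ, hφ1, hφ2⟩, hj2, hj3⟩ := ((comp c hc).and (h2.and hj0)).exists
    obtain ⟨_, hσ, hval⟩ := hso j hj3
    have key : ∀ b : Bool, (∀ x ∈ c.s, Function.update φ (fun i : Fin j => ρ i) b (lab r j x) =
        c.p x) ∧ ∀ y ∈ s j, Function.update φ (fun i : Fin j => ρ i) b y = ψ j y := by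
      intro b
      constructor
      · intro x hx
        rw [Function.update_of_ne (hj2 x hx)]
        exact hφ1 x hx
      · intro y hy
        have hne : y ≠ (fun i : Fin j => ρ i) := by
          intro h
          rw [h] at hy
          exact hσ hy
        rw [Function.update_of_ne hne]
        exact hφ2 y hy
    have h3 := (hval _ (key (o j)).2).1 (Function.update_self _ _ _)
    have h4 := (hval _ (key (!o j)).2).2 (Function.update_self _ _ _)
    have h5 := hcosc _ _ (key (!o j)).1 (key (o j)).1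
    have h6 : f (PP r j (Function.update φ (fun i : Fin j => ρ i) (!o j))) -
      f (PP r j (Function.update φ (fun i : Fin j => ρ i) (o j))) < q - p :=
      lt_of_le_of_lt (le_abs_self _) h5
    linarith
  obtain ⟨x0, _, hx0ρ⟩ := step1
  have hlab : ∀ j, lab r j x0 = (fun i : Fin j => ρ i) := by
    intro j
    funext i
    change r x0 i = ρ i
    rw [hx0ρ]
  have hx0A : x0 ∉ A := by
    intro hx
    obtain ⟨j, hj1, hj2⟩ := ((show ∀ᶠ j in (G : Filter ℕ), lab r j x0 ∈ s j from hx).and hj0).exists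
    rw [hlab j] at hj1
    exact (hso j hj2).2.1 hj1
  -- Step 2
  have hη : 0 < (q - p) / 4 := by linarith
  obtain ⟨c1, hc1, hc1osc⟩ := hosc ⟨insert x0 c0.s, Function.update c0.p x0 o'⟩ f hη
  obtain ⟨c2, hc2, hc2osc⟩ := hosc ⟨insert x0 c1.s, Function.update c1.p x0 (!o')⟩ f hη
  have hx0c0 : x0 ∉ c0.s := fun h => hx0A ((hc0s x0).1 h)
  -- c0 ≤ c1 off x0, c1 ≤ c2 off x0
  have hs01 : ∀ x ∈ c0.s, x ∈ c1.s ∧ c1.p x = c0.p x := by
    intro x hx
    have hne : x ≠ x0 := fun h => hx0c0 (h ▸ hx)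
    refine ⟨hc1.1 (Finset.mem_insert_of_mem hx), ?_⟩
    have := hc1.2 x (Finset.mem_insert_of_mem hx)
    rw [this]
    exact Function.update_of_ne hne _ _
  have hs12 : ∀ x ∈ c1.s, x ≠ x0 → x ∈ c2.s ∧ c2.p x = c1.p x := by
    intro x hx hne
    refine ⟨hc2.1 (Finset.mem_insert_of_mem hx), ?_⟩
    have := hc2.2 x (Finset.mem_insert_of_mem hx)
    rw [this]
    exact Function.update_of_ne hne _ _
  have hc1x0 : x0 ∈ c1.s ∧ c1.p x0 = o' := by
    refine ⟨hc1.1 (Finset.mem_insert_self _ _), ?_⟩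
    rw [hc1.2 x0 (Finset.mem_insert_self _ _)]
    exact Function.update_self (f := c0.p) x0 o'
  have hc2x0 : x0 ∈ c2.s ∧ c2.p x0 = (!o') := by
    refine ⟨hc2.1 (Finset.mem_insert_self _ _), ?_⟩
    rw [hc2.2 x0 (Finset.mem_insert_self _ _)]
    exact Function.update_self (f := c1.p) x0 (!o')
  -- the condition d'
  have hd0 : x0 ∉ (c2.s.erase x0) := Finset.notMem_erase _ _
  -- members of d' with value o' at x0 are members of c1
  have hm1 : ∀ g : T → Bool, (Cond.mk (c2.s.erase x0) c2.p).Mem g → g x0 = o' → c1.Mem g := by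
    intro g hg hgx x hx
    by_cases hne : x = x0
    · rw [hne, hgx, hc1x0.2]
    · obtain ⟨h5, h6⟩ := hs12 x hx hne
      rw [hg x (Finset.mem_erase.2 ⟨hne, h5⟩)]
      exact h6
  have hm2 : ∀ g : T → Bool, (Cond.mk (c2.s.erase x0) c2.p).Mem g → g x0 = (!o') → c2.Mem g := by
    intro g hg hgx x hx
    by_cases hne : x = x0
    · rw [hne, hgx, hc2x0.2]
    · exact hg x (Finset.mem_erase.2 ⟨hne, hx⟩)
  -- the two full conditions
  have hL : ∀ b : Bool, c0.Le ⟨insert x0 (c2.s.erase x0), Function.update c2.p x0 b⟩ := by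
    intro b
    constructor
    · intro x hx
      have hne : x ≠ x0 := fun h => hx0c0 (h ▸ hx)
      obtain ⟨h5, _⟩ := hs01 x hx
      obtain ⟨h6, _⟩ := hs12 x h5 hne
      exact Finset.mem_insert_of_mem (Finset.mem_erase.2 ⟨hne, h6⟩)
    · intro x hx
      have hne : x ≠ x0 := fun h => hx0c0 (h ▸ hx)
      obtain ⟨h5, h5'⟩ := hs01 x hx
      obtain ⟨_, h6'⟩ := hs12 x h5 hne
      change Function.update c2.p x0 b x = c0.p x
      rw [Function.update_of_ne hne, h6', h5']
  -- existence of points with given value at x0 in d' and in the cube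
  have hex : ∀ b : Bool, ∃ (j : ℕ) (φ : (Fin j → Bool) → Bool), j0 ≤ j ∧ o j = o' ∧
      (Cond.mk (c2.s.erase x0) c2.p).Mem (fun x => φ (lab r j x)) ∧ φ (lab r j x0) = b ∧
      (∀ y ∈ s j, φ y = ψ j y) := by
    intro b
    obtain ⟨j, ⟨φ, hφ1, hφ2⟩, hj2, hj3⟩ := ((comp _ (hL b)).and (ho'.and hj0)).exists
    refine ⟨j, φ, hj3, hj2, ?_, ?_, hφ2⟩
    · intro x hx
      have hx2 : x ∈ c2.s.erase x0 := hx
      have h5 := hφ1 x (Finset.mem_insert_of_mem hx2)
      change φ (lab r j x) = c2.p x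
      rw [h5]
      exact Function.update_of_ne (Finset.ne_of_mem_erase hx2) _ _
    · have h5 := hφ1 x0 (Finset.mem_insert_self _ _)
      rw [h5]
      exact Function.update_self (f := c2.p) x0 b
  -- upper and lower bounds
  have hup : ∀ g : T → Bool, (Cond.mk (c2.s.erase x0) c2.p).Mem g → g x0 = o' →
      f (pt g) ≤ p + (q - p) / 4 := by
    intro g hg hgx
    obtain ⟨j, φ, hj, hoj, hm, hv, hcube⟩ := hex o'
    have h5 : f (PP r j φ) ≤ p := by
      refine ((hso j hj).2.2 φ hcube).1 ?_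
      rw [← hlab j, hv, hoj]
    have h6 := hc1osc _ _ (hm1 g hg hgx) (hm1 _ hm hv)
    have h7 : f (pt g) - f (PP r j φ) < (q - p) / 4 := lt_of_le_of_lt (le_abs_self _) h6
    linarith
  have hlow : ∀ g : T → Bool, (Cond.mk (c2.s.erase x0) c2.p).Mem g → g x0 = (!o') →
      q - (q - p) / 4 ≤ f (pt g) := by
    intro g hg hgx
    obtain ⟨j, φ, hj, hoj, hm, hv, hcube⟩ := hex (!o')
    have h5 : q ≤ f (PP r j φ) := by
      refine ((hso j hj).2.2 φ hcube).2 ?_
      rw [← hlab j, hv, hoj]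
    have h6 := hc2osc _ _ (hm2 _ hm hv) (hm2 g hg hgx)
    have h7 : f (PP r j φ) - f (pt g) < (q - p) / 4 := lt_of_le_of_lt (le_abs_self _) h6
    linarith
  refine ⟨x0, ⟨⟨c2.s.erase x0, c2.p⟩, p + (q - p) / 4, q - (q - p) / 4, hd0, by linarith, ?_⟩, hx0ρ⟩
  cases o' with
  | false => exact Or.inl (fun g hg => ⟨fun h => hup g hg h, fun h => hlow g hg h⟩)
  | true => exact Or.inr (fun g hg => ⟨fun h => hup g hg h, fun h => hlow g hg h⟩)

end Pool.Agent.GB
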