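import Pool.Agent.GB.Force2

set_option autoImplicit false

/-!
# The main forcing lemma: induction on the rank
-/

namespace Pool.Agent.GB

open Set T

/-- index of a free generator -/
def idx : T → ℕ
  | T.bot => 0
  | T.imp _ _ => 0
  | T.w _ n _ => n
  | T.b _ _ _ => 0

open Classical in
/-- the index which a condition decides -/
noncomputable def mch (c : Cond) (a : ℕ → T) : ℕ :=
  if H : ∃ m, ∀ h, c.Mem h → ev h (a m) = true ∧ ∀ m' < m, ev h (a m') = false then H.choose else 0

theorem mch_eq (c : Cond) (a : ℕ → T) (m : ℕ)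
    (hm : ∀ h, c.Mem h → ev h (a m) = true ∧ ∀ m' < m, ev h (a m') = false) : m = mch c a := by
  classical
  have H : ∃ m, ∀ h, c.Mem h → ev h (a m) = true ∧ ∀ m' < m, ev h (a m') = false := ⟨m, hm⟩
  unfold mch
  rw [dif_pos H]
  obtain ⟨h, hh⟩ := c.exists_mem
  exact first_unique (hm h hh).1 (hm h hh).2 (H.choose_spec h hh).1 (H.choose_spec h hh).2

theorem C2_step (S : Set T) (ρ : Ordinal.{0}) (ih : ∀ σ < ρ, C2 S σ) (hF : ∀ σ < ρ, Forcible σ) :
    C2 S ρ := by
  classical
  intro u u' hu hu' huu X X' hX hX' Γ Γ' hΓ hΓ'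
  set rw' : (ℕ → T) × (ℕ → ℕ) → Ordinal.{0} := fun ag => rk (w ag.1 0 0) with hrw'
  set R : Finset Ordinal.{0} := (X.image rk ∪ X'.image rk) ∪ (Γ.image rw' ∪ Γ'.image rw') with hR
  by_cases hne : R.Nonempty
  swap
  · rw [Finset.not_nonempty_iff_eq_empty] at hne
    have h1 : ∀ x, x ∉ X := fun x hx => by
      have : rk x ∈ R := by
        rw [hR]
        exact Finset.mem_union_left _ (Finset.mem_union_left _ (Finset.mem_image_of_mem _ hx))
      rw [hne] at this
      exact absurd this (Finset.notMem_empty _)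
    have h2 : ∀ x, x ∉ X' := fun x hx => by
      have : rk x ∈ R := by
        rw [hR]
        exact Finset.mem_union_left _ (Finset.mem_union_right _ (Finset.mem_image_of_mem _ hx))
      rw [hne] at this
      exact absurd this (Finset.notMem_empty _)
    have h3 : ∀ x, x ∉ Γ := fun x hx => by
      have : rw' x ∈ R := by
        rw [hR]
        exact Finset.mem_union_right _ (Finset.mem_union_left _ (Finset.mem_image_of_mem _ hx))
      rw [hne] at this
      exact absurd this (Finset.notMem_empty _)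
    have h4 : ∀ x, x ∉ Γ' := fun x hx => by
      have : rw' x ∈ R := by
        rw [hR]
        exact Finset.mem_union_right _ (Finset.mem_union_right _ (Finset.mem_image_of_mem _ hx))
      rw [hne] at this
      exact absurd this (Finset.notMem_empty _)
    refine ⟨⟨∅, fun _ => false⟩, ⟨∅, fun _ => false⟩, fun x hx => absurd hx (Finset.notMem_empty _),
      fun x hx => absurd hx (Finset.notMem_empty _), ⟨fun _ _ => Iff.rfl, fun _ _ _ => rfl⟩,
      fun _ _ x hx => absurd hx (h1 x), fun _ _ x hx => absurd hx (h2 x),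
      fun x hx => absurd hx (h3 x), fun x hx => absurd hx (h4 x)⟩
  set σ : Ordinal.{0} := R.max' hne with hσ
  have hσρ : σ < ρ := by
    have h1 : σ ∈ R := Finset.max'_mem R hne
    rw [hR] at h1
    rcases Finset.mem_union.1 h1 with h1 | h1
    · rcases Finset.mem_union.1 h1 with h1 | h1
      · obtain ⟨x, hx, hx2⟩ := Finset.mem_image.1 h1
        rw [← hx2]
        exact (hX x hx).2
      · obtain ⟨x, hx, hx2⟩ := Finset.mem_image.1 h1
        rw [← hx2]
        exact (hX' x hx).2
    · rcases Finset.mem_union.1 h1 with h1 | h1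
      · obtain ⟨x, hx, hx2⟩ := Finset.mem_image.1 h1
        rw [← hx2]
        exact (hΓ x hx).1
      · obtain ⟨x, hx, hx2⟩ := Finset.mem_image.1 h1
        rw [← hx2]
        exact (hΓ' x hx).1
  have hXσ : ∀ x ∈ X, rk x ≤ σ := fun x hx => Finset.le_max' R _ (by
    rw [hR]
    exact Finset.mem_union_left _ (Finset.mem_union_left _ (Finset.mem_image_of_mem _ hx)))
  have hXσ' : ∀ x ∈ X', rk x ≤ σ := fun x hx => Finset.le_max' R _ (by
    rw [hR]
    exact Finset.mem_union_left _ (Finset.mem_union_right _ (Finset.mem_image_of_mem _ hx)))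
  have hΓσ : ∀ x ∈ Γ, rk (w x.1 0 0) ≤ σ := fun x hx => Finset.le_max' R _ (by
    rw [hR]
    exact Finset.mem_union_right _ (Finset.mem_union_left _
      (Finset.mem_image_of_mem rw' hx)))
  have hΓσ' : ∀ x ∈ Γ', rk (w x.1 0 0) ≤ σ := fun x hx => Finset.le_max' R _ (by
    rw [hR]
    exact Finset.mem_union_right _ (Finset.mem_union_right _
      (Finset.mem_image_of_mem rw' hx)))
  choose! L D hL hD hLD using fun (x : T) (hx : isGen x) => low_dem hu x hx
  choose! L' D' hL' hD' hLD' using fun (x : T) (hx : isGen x) => low_dem hu' x hx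
  set Δ : Finset ((ℕ → T) × (ℕ → ℕ)) := (Γ ∪ Γ').filter (fun ag => rk (w ag.1 0 0) = σ) with hΔ
  set N : ℕ := Δ.card + (X ∪ X').sup idx with hN
  have hNX : ∀ a n v, (w a n v ∈ X ∨ w a n v ∈ X') → n ≤ N := by
    intro a n v h
    have h1 : w a n v ∈ X ∪ X' := Finset.mem_union.2 h
    have h2 : idx (w a n v) ≤ (X ∪ X').sup idx := Finset.le_sup h1
    have h3 : idx (w a n v) = n := rfl
    omega
  have hwlt : ∀ (a : ℕ → T) (k : ℕ), rk (w a 0 0) = σ → rk (a k) < σ := fun a k h => by
    rw [← h]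
    exact rk_a_lt_w a k 0 0
  obtain ⟨c0, c0', hc0, hc0', hag0, hf0, hf0', hfr0, hfr0'⟩ := ih σ hσρ u u' hu hu' huu
    (X.filter (fun x => rk x < σ) ∪ (X.filter (fun x => rk x = σ)).biUnion L ∪
      (Γ.filter (fun ag => rk (w ag.1 0 0) = σ)).biUnion
        (fun ag => (Finset.range (N + 1)).biUnion (fun k => gens (ag.1 k))))
    (X'.filter (fun x => rk x < σ) ∪ (X'.filter (fun x => rk x = σ)).biUnion L' ∪
      (Γ'.filter (fun ag => rk (w ag.1 0 0) = σ)).biUnion
        (fun ag => (Finset.range (N + 1)).biUnion (fun k => gens (ag.1 k))))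
    (by
      intro x hx
      rcases Finset.mem_union.1 hx with h | h
      · rcases Finset.mem_union.1 h with h | h
        · exact ⟨(hX x (Finset.mem_filter.1 h).1).1, (Finset.mem_filter.1 h).2⟩
        · obtain ⟨y, hy, hxy⟩ := Finset.mem_biUnion.1 h
          have hy' := Finset.mem_filter.1 hy
          have := hL y (hX y hy'.1).1 x hxy
          exact ⟨this.1, by rw [← hy'.2]; exact this.2⟩
      · obtain ⟨ag, hag, h⟩ := Finset.mem_biUnion.1 h
        obtain ⟨k, _, h⟩ := Finset.mem_biUnion.1 h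
        exact ⟨isGen_of_mem_gens h,
          (rk_le_of_mem_gens h).trans_lt (hwlt _ _ (Finset.mem_filter.1 hag).2)⟩)
    (by
      intro x hx
      rcases Finset.mem_union.1 hx with h | h
      · rcases Finset.mem_union.1 h with h | h
        · exact ⟨(hX' x (Finset.mem_filter.1 h).1).1, (Finset.mem_filter.1 h).2⟩
        · obtain ⟨y, hy, hxy⟩ := Finset.mem_biUnion.1 h
          have hy' := Finset.mem_filter.1 hy
          have := hL' y (hX' y hy'.1).1 x hxy
          exact ⟨this.1, by rw [← hy'.2]; exact this.2⟩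
      · obtain ⟨ag, hag, h⟩ := Finset.mem_biUnion.1 h
        obtain ⟨k, _, h⟩ := Finset.mem_biUnion.1 h
        exact ⟨isGen_of_mem_gens h,
          (rk_le_of_mem_gens h).trans_lt (hwlt _ _ (Finset.mem_filter.1 hag).2)⟩)
    (Γ.filter (fun ag => rk (w ag.1 0 0) < σ) ∪ (X.filter (fun x => rk x = σ)).biUnion D)
    (Γ'.filter (fun ag => rk (w ag.1 0 0) < σ) ∪ (X'.filter (fun x => rk x = σ)).biUnion D')
    (by
      intro ag h
      rcases Finset.mem_union.1 h with h | h
      · exact ⟨(Finset.mem_filter.1 h).2, (hΓ ag (Finset.mem_filter.1 h).1).2⟩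
      · obtain ⟨y, hy, hxy⟩ := Finset.mem_biUnion.1 h
        have hy' := Finset.mem_filter.1 hy
        have := hD y (hX y hy'.1).1 ag hxy
        exact ⟨by rw [← hy'.2]; exact this.1, this.2⟩)
    (by
      intro ag h
      rcases Finset.mem_union.1 h with h | h
      · exact ⟨(Finset.mem_filter.1 h).2, (hΓ' ag (Finset.mem_filter.1 h).1).2⟩
      · obtain ⟨y, hy, hxy⟩ := Finset.mem_biUnion.1 h
        have hy' := Finset.mem_filter.1 hy
        have := hD' y (hX' y hy'.1).1 ag hxy
        exact ⟨by rw [← hy'.2]; exact this.1, this.2⟩)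
  -- decide the tasks
  obtain ⟨c1, c1', h01, h01', hc1, hc1', hag1, hdec1⟩ := decide_tasks (hF σ hσρ)
    ((Γ.filter (fun ag => rk (w ag.1 0 0) = σ)).image Prod.fst) (by
      intro a ha k
      obtain ⟨ag, hag, rfl⟩ := Finset.mem_image.1 ha
      exact hwlt _ _ (Finset.mem_filter.1 hag).2) c0 c0' hc0 hc0' hag0
  obtain ⟨c2', c2, h12', h12, hc2', hc2, hag2, hdec2⟩ := decide_tasks (hF σ hσρ)
    ((Γ'.filter (fun ag => rk (w ag.1 0 0) = σ)).image Prod.fst) (by
      intro a ha k
      obtain ⟨ag, hag, rfl⟩ := Finset.mem_image.1 ha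
      exact hwlt _ _ (Finset.mem_filter.1 hag).2) c1' c1 hc1' hc1 hag1.symm
  have hag2' := hag2.symm
  have h02 : c0.Le c2 := h01.trans h12
  have h02' : c0'.Le c2' := h01'.trans h12'
  set M : ℕ := max (Γ.sup (fun ag => mch c2 ag.1)) (Γ'.sup (fun ag => mch c2' ag.1)) with hM
  set B : ℕ := (M + 1) ^ 2 + ∑ m ∈ Finset.range (M + 1), ∑ ag ∈ Δ, (ag.2 m + 1) with hB
  have hBm : ∀ m ≤ M, (m + 1) ^ 2 ≤ B ∧ ∀ ag ∈ Δ, ag.2 m < B := by
    intro m hm
    constructor
    · have : (m + 1) ^ 2 ≤ (M + 1) ^ 2 := Nat.pow_le_pow_left (by omega) 2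
      omega
    · intro ag hag
      have h1 : ∑ ag ∈ Δ, (ag.2 m + 1) ≤ ∑ m ∈ Finset.range (M + 1), ∑ ag ∈ Δ, (ag.2 m + 1) :=
        Finset.single_le_sum (f := fun m => ∑ ag ∈ Δ, (ag.2 m + 1)) (fun _ _ => Nat.zero_le _)
          (Finset.mem_range.2 (by omega))
      have h2 : ag.2 m + 1 ≤ ∑ ag ∈ Δ, (ag.2 m + 1) :=
        Finset.single_le_sum (f := fun ag : (ℕ → T) × (ℕ → ℕ) => ag.2 m + 1)
          (fun _ _ => Nat.zero_le _) hag
      omega
  set Rb : Finset T := Δ.biUnion (fun ag => (Finset.Ioc N M).biUnion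
    (fun m => (Finset.range B).image (fun v => w ag.1 m v))) with hRb
  have hRbmem : ∀ x, x ∈ Rb ↔ ∃ ag ∈ Δ, ∃ m v, N < m ∧ m ≤ M ∧ v < B ∧ x = w ag.1 m v := by
    intro x
    rw [hRb]
    simp only [Finset.mem_biUnion, Finset.mem_Ioc, Finset.mem_image, Finset.mem_range]
    constructor
    · rintro ⟨ag, hag, m, ⟨h1, h2⟩, v, h3, h4⟩
      exact ⟨ag, hag, m, v, h1, h2, h3, h4.symm⟩
    · rintro ⟨ag, hag, m, v, h1, h2, h3, h4⟩
      exact ⟨ag, hag, m, ⟨h1, h2⟩, v, h3, h4.symm⟩
  have hΔσ : ∀ ag ∈ Δ, rk (w ag.1 0 0) = σ := fun ag hag => (Finset.mem_filter.1 hag).2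
  have hRbσ : ∀ x ∈ Rb, rk x = σ := by
    intro x hx
    obtain ⟨ag, hag, m, v, _, _, _, rfl⟩ := (hRbmem x).1 hx
    rw [rk_w]
    exact hΔσ ag hag
  set Z : Finset T := X'.filter (fun x => rk x = σ ∧ x ∈ S) with hZ
  set Z' : Finset T := X.filter (fun x => rk x = σ ∧ x ∈ S) with hZ'
  set s : Finset T := c2.s ∪ (X.filter (fun x => rk x = σ) ∪ (Z ∪ Rb)) with hs
  set s' : Finset T := c2'.s ∪ (X'.filter (fun x => rk x = σ) ∪ (Z' ∪ Rb)) with hs'
  set p : T → Bool := fun x => if rk x < σ then c2.p x else if x ∈ Rb then pat Δ x else u x with hp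
  set p' : T → Bool := fun x => if rk x < σ then c2'.p x else if x ∈ Rb then pat Δ x else u' x
    with hp'
  have side1 := side (S := S) hu c2 hc2 X Z (fun x hx => ⟨(hX x hx).1, hXσ x hx⟩)
    (fun x hx => (Finset.mem_filter.1 hx).2.1) Γ Δ N M B hΓσ hΔσ
    (fun ag hag h => Finset.mem_filter.2 ⟨Finset.mem_union_left _ hag, h⟩) (by omega)
    (fun a n v h => hNX a n v (h.imp id (fun h => (Finset.mem_filter.1 h).1))) hBm L D
    (fun x hx _ => hLD x (hX x hx).1)
    (by
      intro h hh
      have hh0 := h02.mem hh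
      refine ⟨fun x hx hlt => ?_, fun x hx heq y hy => ?_, fun ag hag heq k hk => ?_⟩
      · apply hf0 h hh0
        exact Finset.mem_union_left _ (Finset.mem_union_left _ (Finset.mem_filter.2 ⟨hx, hlt⟩))
      · apply hf0 h hh0
        exact Finset.mem_union_left _ (Finset.mem_union_right _
          (Finset.mem_biUnion.2 ⟨x, Finset.mem_filter.2 ⟨hx, heq⟩, hy⟩))
      · rw [← (hΓ ag hag).2 k]
        apply eq_of_gens (ev_inK h) hu
        intro y hy
        apply hf0 h hh0
        exact Finset.mem_union_right _ (Finset.mem_biUnion.2 ⟨ag, Finset.mem_filter.2 ⟨hag, heq⟩,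
          Finset.mem_biUnion.2 ⟨k, Finset.mem_range.2 (by omega), hy⟩⟩))
    (fun ag hag hlt => (hfr0 ag (Finset.mem_union_left _ (Finset.mem_filter.2 ⟨hag, hlt⟩))).mono h02)
    (fun x hx heq ag hag => (hfr0 ag (Finset.mem_union_right _ (Finset.mem_biUnion.2
      ⟨x, Finset.mem_filter.2 ⟨hx, heq⟩, hag⟩))).mono h02)
    (fun ag hag heq => (hdec1 ag.1 (Finset.mem_image.2 ⟨ag, Finset.mem_filter.2 ⟨hag, heq⟩, rfl⟩)).mono
      h12)
    (by
      intro ag hag m hm
      rw [mch_eq c2 ag.1 m hm]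
      exact (Finset.le_sup (f := fun ag => mch c2 ag.1) hag).trans (le_max_left _ _))
    s p
    (by
      intro x
      rw [hs, Finset.mem_union, Finset.mem_union, Finset.mem_union, Finset.mem_filter, hRbmem])
    (by
      intro x hx
      simp only [hp, hx, if_true])
    (by
      intro x hx
      have h1 : x ∈ Rb := (hRbmem x).2 hx
      have h2 : ¬ rk x < σ := by
        rw [hRbσ x h1]
        exact lt_irrefl _
      simp only [hp, h2, h1, if_true, if_false])
    (by
      intro x hx hn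
      have h1 : x ∉ Rb := fun h => hn ((hRbmem x).1 h)
      have h2 : ¬ rk x < σ := by
        rw [hx]
        exact lt_irrefl _
      simp only [hp, h2, h1, if_false])
  have side2 := side (S := S) hu' c2' hc2' X' Z' (fun x hx => ⟨(hX' x hx).1, hXσ' x hx⟩)
    (fun x hx => (Finset.mem_filter.1 hx).2.1) Γ' Δ N M B hΓσ' hΔσ
    (fun ag hag h => Finset.mem_filter.2 ⟨Finset.mem_union_right _ hag, h⟩) (by omega)
    (fun a n v h => hNX a n v (h.symm.imp (fun h => (Finset.mem_filter.1 h).1) id)) hBm L' D'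
    (fun x hx _ => hLD' x (hX' x hx).1)
    (by
      intro h hh
      have hh0 := h02'.mem hh
      refine ⟨fun x hx hlt => ?_, fun x hx heq y hy => ?_, fun ag hag heq k hk => ?_⟩
      · apply hf0' h hh0
        exact Finset.mem_union_left _ (Finset.mem_union_left _ (Finset.mem_filter.2 ⟨hx, hlt⟩))
      · apply hf0' h hh0
        exact Finset.mem_union_left _ (Finset.mem_union_right _
          (Finset.mem_biUnion.2 ⟨x, Finset.mem_filter.2 ⟨hx, heq⟩, hy⟩))
      · rw [← (hΓ' ag hag).2 k]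
        apply eq_of_gens (ev_inK h) hu'
        intro y hy
        apply hf0' h hh0
        exact Finset.mem_union_right _ (Finset.mem_biUnion.2 ⟨ag, Finset.mem_filter.2 ⟨hag, heq⟩,
          Finset.mem_biUnion.2 ⟨k, Finset.mem_range.2 (by omega), hy⟩⟩))
    (fun ag hag hlt => (hfr0' ag (Finset.mem_union_left _
      (Finset.mem_filter.2 ⟨hag, hlt⟩))).mono h02')
    (fun x hx heq ag hag => (hfr0' ag (Finset.mem_union_right _ (Finset.mem_biUnion.2
      ⟨x, Finset.mem_filter.2 ⟨hx, heq⟩, hag⟩))).mono h02')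
    (fun ag hag heq => (hdec2 ag.1 (Finset.mem_image.2 ⟨ag, Finset.mem_filter.2 ⟨hag, heq⟩, rfl⟩)))
    (by
      intro ag hag m hm
      rw [mch_eq c2' ag.1 m hm]
      exact (Finset.le_sup (f := fun ag => mch c2' ag.1) hag).trans (le_max_right _ _))
    s' p'
    (by
      intro x
      rw [hs', Finset.mem_union, Finset.mem_union, Finset.mem_union, Finset.mem_filter, hRbmem])
    (by
      intro x hx
      simp only [hp', hx, if_true])
    (by
      intro x hx
      have h1 : x ∈ Rb := (hRbmem x).2 hx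
      have h2 : ¬ rk x < σ := by
        rw [hRbσ x h1]
        exact lt_irrefl _
      simp only [hp', h2, h1, if_true, if_false])
    (by
      intro x hx hn
      have h1 : x ∉ Rb := fun h => hn ((hRbmem x).1 h)
      have h2 : ¬ rk x < σ := by
        rw [hx]
        exact lt_irrefl _
      simp only [hp', h2, h1, if_false])
  refine ⟨⟨s, p⟩, ⟨s', p'⟩, fun x hx => (side1.2.1 x hx).trans_lt hσρ,
    fun x hx => (side2.2.1 x hx).trans_lt hσρ, ⟨?_, ?_⟩, side1.2.2.1, side2.2.2.1,
    side1.2.2.2, side2.2.2.2⟩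
  · intro x hx
    simp only [hs, hs', hZ, hZ', Finset.mem_union, Finset.mem_filter, hx, and_true]
    have := hag2'.1 x hx
    tauto
  · intro x hx hxs
    simp only [hp, hp']
    by_cases hlt : rk x < σ
    · simp only [hlt, if_true]
      apply hag2'.2 x hx
      rcases Finset.mem_union.1 hxs with h | h
      · exact h
      · exfalso
        rcases Finset.mem_union.1 h with h | h
        · rw [(Finset.mem_filter.1 h).2] at hlt
          exact lt_irrefl _ hlt
        · rcases Finset.mem_union.1 h with h | h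
          · rw [(Finset.mem_filter.1 h).2.1] at hlt
            exact lt_irrefl _ hlt
          · rw [hRbσ x h] at hlt
            exact lt_irrefl _ hlt
    · simp only [hlt, if_false]
      rw [huu x hx]

theorem C2_all (S : Set T) (ρ : Ordinal.{0}) : C2 S ρ := by
  have h0 : ∀ ρ, C2 ∅ ρ := by
    intro ρ
    induction ρ using WellFoundedLT.induction with
    | ind ρ ih => exact C2_step ∅ ρ ih (fun σ hσ => Forcible.of_C2 (ih σ hσ))
  induction ρ using WellFoundedLT.induction with
  | ind ρ ih => exact C2_step S ρ ih (fun σ _ => Forcible.of_C2 (h0 σ))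

theorem forcible (σ : Ordinal.{0}) : Forcible σ := Forcible.of_C2 (C2_all ∅ σ)

end Pool.Agent.GB
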