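import Pool.Agent.GB.Defs2
import Pool.Agent.GB.Force3

set_option autoImplicit false

/-!
# Consequences of the forcing lemma for continuous functions
-/

namespace Pool.Agent.GB

open Set T

/-- local form of continuity -/
theorem exists_finset_nhds' (t : K) (O : Set K) (hO : IsOpen O) (ht : t ∈ O) :
    ∃ X : Finset T, ∀ t' : K, (∀ x ∈ X, t'.1 x = t.1 x) → t' ∈ O := by
  obtain ⟨V, hV, hVO⟩ := isOpen_induced_iff.1 hO
  have key : ∀ s : K, s.1 ∈ V ↔ s ∈ O := fun s => Set.ext_iff.1 hVO s
  have htV : t.1 ∈ V := (key t).2 ht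
  obtain ⟨I, u, hu, hs⟩ := isOpen_pi_iff.1 hV t.1 htV
  refine ⟨I, fun t' h => (key t').1 ?_⟩
  apply hs
  intro i hi
  rw [h i hi]
  exact (hu i hi).2

open Classical in
/-- all generators of a finite set of terms -/
noncomputable def gensS (X : Finset T) : Finset T := X.biUnion gens

theorem exists_rank (X : Finset T) : ∃ σ : Ordinal.{0}, ∀ x ∈ X, rk x < σ := by
  classical
  refine ⟨Order.succ (X.sup rk), fun x hx => Order.lt_succ_of_le (Finset.le_sup hx)⟩

theorem forced_of_gens {X : Finset T} {u : T → Bool} (hu : InK u) {h : T → Bool}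
    (H : ∀ y ∈ gensS X, ev h y = u y) : ∀ x ∈ X, ev h x = u x := by
  classical
  intro x hx
  apply eq_of_gens (ev_inK h) hu
  intro y hy
  exact H y (Finset.mem_biUnion.2 ⟨x, hx, hy⟩)

theorem isGen_gensS {X : Finset T} {y : T} (hy : y ∈ gensS X) : isGen y := by
  classical
  obtain ⟨x, _, h⟩ := Finset.mem_biUnion.1 hy
  exact isGen_of_mem_gens h

theorem exists_force (t : K) (X : Finset T) : ∃ c : Cond, ∀ h, c.Mem h → ∀ x ∈ X, ev h x = t.1 x := by
  classical
  obtain ⟨σ, hσ⟩ := exists_rank (gensS X)
  obtain ⟨c, _, hc⟩ := forcible σ t.1 t.2 (gensS X) (fun x hx => ⟨isGen_gensS hx, hσ x hx⟩)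
  exact ⟨c, fun h hh => forced_of_gens t.2 (hc h hh)⟩

theorem exists_force_two (S : Set T) (t t' : K) (htt : ∀ x ∈ S, t.1 x = t'.1 x) (X X' : Finset T) :
    ∃ c c' : Cond, Agree S c c' ∧ (∀ h, c.Mem h → ∀ x ∈ X, ev h x = t.1 x) ∧
      (∀ h, c'.Mem h → ∀ x ∈ X', ev h x = t'.1 x) := by
  classical
  obtain ⟨σ, hσ⟩ := exists_rank (gensS X ∪ gensS X')
  obtain ⟨c, c', _, _, hag, hc, hc', _, _⟩ := C2_all S σ t.1 t'.1 t.2 t'.2 htt (gensS X) (gensS X')
    (fun x hx => ⟨isGen_gensS hx, hσ x (Finset.mem_union_left _ hx)⟩)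
    (fun x hx => ⟨isGen_gensS hx, hσ x (Finset.mem_union_right _ hx)⟩) ∅ ∅ (by simp) (by simp)
  exact ⟨c, c', hag, fun h hh => forced_of_gens t.2 (hc h hh),
    fun h hh => forced_of_gens t'.2 (hc' h hh)⟩

theorem osc_small (c : Cond) (f : C(K, ℝ)) {ε : ℝ} (hε : 0 < ε) :
    ∃ c' : Cond, c.Le c' ∧ ∀ h h', c'.Mem h → c'.Mem h' → |f (pt h) - f (pt h')| < ε := by
  classical
  obtain ⟨u, Y, hb⟩ := exists_isBase c
  set t : K := ⟨u, hb.1⟩ with ht
  have hO : IsOpen {t' : K | |f t' - f t| < ε / 2} :=
    isOpen_lt (by fun_prop) continuous_const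
  obtain ⟨X, hX⟩ := exists_finset_nhds' t _ hO (by simp [hε])
  obtain ⟨σ, hσ⟩ := exists_rank (c.s ∪ gensS X)
  obtain ⟨c', hle, _, hc'⟩ := hb.merge (forcible σ)
    (fun x hx => hσ x (Finset.mem_union_left _ hx)) u hb.1 (fun _ _ => rfl) (gensS X)
    (fun x hx => ⟨isGen_gensS hx, hσ x (Finset.mem_union_right _ hx)⟩)
  have key : ∀ h, c'.Mem h → |f (pt h) - f t| < ε / 2 := by
    intro h hh
    apply hX (pt h)
    exact forced_of_gens hb.1 (hc' h hh).1
  refine ⟨c', hle, fun h h' hh hh' => ?_⟩
  have h1 := key h hh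
  have h2 := key h' hh'
  rw [abs_lt] at *
  constructor <;> linarith [h1.1, h1.2, h2.1, h2.2]

/-- switching one coordinate at a time -/
theorem switch (f : C(K, ℝ)) (D : Finset T) : ∀ (k : ℕ) (E : Finset T), E.card = k → E ⊆ D →
    ∀ (s : Finset T) (p p' : T → Bool), D ⊆ s → (∀ x ∈ s, p x ≠ p' x → x ∈ E) →
    ∀ A B : ℝ, B < A → (∀ h, Cond.Mem ⟨s, p⟩ h → A ≤ f (pt h)) →
      (∀ h, Cond.Mem ⟨s, p'⟩ h → f (pt h) ≤ B) → ∃ γ ∈ E, γ ∈ Gs f := by
  classical
  intro k
  induction k with
  | zero =>
    intro E hE _ s p p' _ hpp A B hAB hA hB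
    exfalso
    rw [Finset.card_eq_zero] at hE
    subst hE
    have h1 := hA p (fun _ _ => rfl)
    have h2 := hB p (fun x hx => by
      by_contra hcon
      exact absurd (hpp x hx hcon) (Finset.notMem_empty _))
    linarith
  | succ k ih =>
    intro E hE hED s p p' hDs hpp A B hAB hA hB
    obtain ⟨γ, hγ⟩ : E.Nonempty := by
      rw [← Finset.card_pos]
      omega
    by_cases hγp : p γ = p' γ
    · -- the coordinate does not differ
      obtain ⟨γ', h1, h2⟩ := ih (E.erase γ) (by rw [Finset.card_erase_of_mem hγ]; omega)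
        ((Finset.erase_subset _ _).trans hED) s p p' hDs (by
          intro x hx hne
          refine Finset.mem_erase.2 ⟨?_, hpp x hx hne⟩
          intro h
          rw [h] at hne
          exact hne hγp) A B hAB hA hB
      exact ⟨γ', Finset.mem_of_mem_erase h1, h2⟩
    set p2 : T → Bool := Function.update p γ (p' γ) with hp2
    have hη : 0 < (A - B) / 4 := by linarith
    obtain ⟨c2, hle, hosc⟩ := osc_small ⟨s, p2⟩ f hη
    have hγs : γ ∈ s := hDs (hED hγ)
    -- the three conditions with the domain of `c2`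
    set P : T → Bool := fun x => if x ∈ s then p x else c2.p x with hP
    set P' : T → Bool := fun x => if x ∈ s then p' x else c2.p x with hP'
    have hsub : s ⊆ c2.s := hle.1
    have hc2p : ∀ x ∈ s, c2.p x = p2 x := hle.2
    have hPmem : ∀ h, Cond.Mem ⟨c2.s, P⟩ h → A ≤ f (pt h) := by
      intro h hh
      apply hA
      intro x hx
      rw [hh x (hsub hx)]
      simp only [hP, hx, if_true]
    have hPmem' : ∀ h, Cond.Mem ⟨c2.s, P'⟩ h → f (pt h) ≤ B := by
      intro h hh
      apply hB
      intro x hx
      rw [hh x (hsub hx)]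
      simp only [hP', hx, if_true]
    obtain ⟨h0, hh0⟩ := c2.exists_mem
    by_cases hval : f (pt h0) ≤ (A + B) / 2
    · -- `γ` is sensitive
      refine ⟨γ, hγ, ⟨c2.s.erase γ, c2.p⟩, (A + B) / 2 + (A - B) / 4, A, ?_, by linarith, ?_⟩
      · exact Finset.notMem_erase _ _
      · have hlow : ∀ h, c2.Mem h → f (pt h) ≤ (A + B) / 2 + (A - B) / 4 := by
          intro h hh
          have := hosc h h0 hh hh0
          rw [abs_lt] at this
          linarith [this.2]
        have hc2γ : c2.p γ = p' γ := by
          rw [hc2p γ hγs, hp2, Function.update_self]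
        have hside1 : ∀ h, Cond.Mem ⟨c2.s.erase γ, c2.p⟩ h → h γ = p' γ → c2.Mem h := by
          intro h hh hγh x hx
          by_cases hxγ : x = γ
          · rw [hxγ, hγh, hc2γ]
          · exact hh x (Finset.mem_erase.2 ⟨hxγ, hx⟩)
        have hside2 : ∀ h, Cond.Mem ⟨c2.s.erase γ, c2.p⟩ h → h γ = p γ →
            Cond.Mem ⟨c2.s, P⟩ h := by
          intro h hh hγh x hx
          by_cases hxγ : x = γ
          · rw [hxγ, hγh]
            simp only [hP, hγs, if_true]
          · rw [hh x (Finset.mem_erase.2 ⟨hxγ, hx⟩)]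
            by_cases hxs : x ∈ s
            · simp only [hP, hxs, if_true]
              rw [hc2p x hxs, hp2, Function.update_of_ne hxγ]
            · simp only [hP, hxs, if_false]
        rcases hb : p γ with _ | _
        · have hb' : p' γ = true := by
            rw [hb] at hγp
            simpa using Ne.symm hγp
          right
          intro h hh
          constructor
          · intro h1
            exact hlow h (hside1 h hh (by rw [h1, hb']))
          · intro h1
            exact hPmem h (hside2 h hh (by rw [h1, hb]))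
        · have hb' : p' γ = false := by
            rw [hb] at hγp
            simpa using Ne.symm hγp
          left
          intro h hh
          constructor
          · intro h1
            exact hlow h (hside1 h hh (by rw [h1, hb']))
          · intro h1
            exact hPmem h (hside2 h hh (by rw [h1, hb]))
    · -- go on with the remaining coordinates
      push Not at hval
      obtain ⟨γ', h1, h2⟩ := ih (E.erase γ) (by rw [Finset.card_erase_of_mem hγ]; omega)
        ((Finset.erase_subset _ _).trans hED) c2.s c2.p P' (hDs.trans hsub) (by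
          intro x hx hne
          by_cases hxs : x ∈ s
          · simp only [hP', hxs, if_true] at hne
            rw [hc2p x hxs, hp2] at hne
            by_cases hxγ : x = γ
            · rw [hxγ, Function.update_self] at hne
              exact absurd rfl hne
            · rw [Function.update_of_ne hxγ] at hne
              exact Finset.mem_erase.2 ⟨hxγ, hpp x hxs hne⟩
          · simp only [hP', hxs, if_false] at hne
            exact absurd rfl hne) ((A + B) / 2 - (A - B) / 4) B (by linarith) (by
          intro h hh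
          have := hosc h h0 hh hh0
          rw [abs_lt] at this
          linarith [this.1]) hPmem'
      exact ⟨γ', Finset.mem_of_mem_erase h1, h2⟩

theorem eq_of_eqOn_Gs (f : C(K, ℝ)) (t t' : K) (h : ∀ x ∈ Gs f, t.1 x = t'.1 x) : f t = f t' := by
  classical
  have key : ∀ t t' : K, (∀ x ∈ Gs f, t.1 x = t'.1 x) → ¬ f t' < f t := by
    intro t t' h hlt
    set η : ℝ := (f t - f t') / 3 with hη
    have hη0 : 0 < η := by
      rw [hη]
      linarith
    have hO : IsOpen {s : K | f t - η < f s} := isOpen_lt continuous_const (by fun_prop)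
    have hO' : IsOpen {s : K | f s < f t' + η} := isOpen_lt (by fun_prop) continuous_const
    obtain ⟨X, hX⟩ := exists_finset_nhds' t _ hO (by simp [hη0])
    obtain ⟨X', hX'⟩ := exists_finset_nhds' t' _ hO' (by simp [hη0])
    obtain ⟨c, c', hag, hc, hc'⟩ := exists_force_two (Gs f) t t' h X X'
    set s : Finset T := c.s ∪ c'.s with hs
    set p : T → Bool := fun x => if x ∈ c.s then c.p x else c'.p x with hp
    set p' : T → Bool := fun x => if x ∈ c'.s then c'.p x else c.p x with hp'
    set E : Finset T := s.filter (fun x => p x ≠ p' x) with hE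
    obtain ⟨γ, hγE, hγG⟩ := switch f s E.card E rfl (Finset.filter_subset _ _) s p p' (subset_refl _)
      (fun x hx hne => Finset.mem_filter.2 ⟨hx, hne⟩) (f t - η) (f t' + η) (by
        rw [hη]
        linarith) (by
        intro h hh
        have : pt h ∈ {s : K | f t - η < f s} := hX (pt h) (hc h (by
          intro x hx
          rw [hh x (Finset.mem_union_left _ hx)]
          simp only [hp, hx, if_true]))
        exact (le_of_lt this)) (by
        intro h hh
        have : pt h ∈ {s : K | f s < f t' + η} := hX' (pt h) (hc' h (by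
          intro x hx
          rw [hh x (Finset.mem_union_right _ hx)]
          simp only [hp', hx, if_true]))
        exact (le_of_lt this))
    have hne := (Finset.mem_filter.1 hγE).2
    have hγs := (Finset.mem_filter.1 hγE).1
    apply hne
    simp only [hp, hp']
    by_cases h1 : γ ∈ c.s
    · have h2 : γ ∈ c'.s := (hag.1 γ hγG).1 h1
      simp only [h1, h2, if_true]
      exact hag.2 γ hγG h1
    · have h2 : γ ∉ c'.s := fun h3 => h1 ((hag.1 γ hγG).2 h3)
      exfalso
      rcases Finset.mem_union.1 hγs with h3 | h3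
      · exact h1 h3
      · exact h2 h3
  exact le_antisymm (not_lt.1 (key t t' h)) (not_lt.1 (key t' t (fun x hx => (h x hx).symm)))

end Pool.Agent.GB
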