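import Pool.Agent.GB.D1
import Pool.Agent.GB.D2
import Pool.Agent.GB.NoFakes
import Pool.Agent.GB.Osc

set_option autoImplicit false

/-!
# The sensitive terms are finitely many and depend measurably on the function
-/

namespace Pool.Agent.GB

open Set Filter Topology MeasureTheory T

/-- module D3 with the forcing lemma of module A -/
theorem no_fakes {r : T → ℕ → Bool} (hr : Function.Injective r) (f : C(K, ℝ)) {p q : ℝ} (hpq : p < q)
    (l j0 : ℕ) (ρ : ℕ → Bool)
    (h : ∀ j, j0 ≤ j → Sens (fun φ => f (PP r j φ)) p q l (fun i : Fin j => ρ i)) :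
    ∃ x ∈ Gs f, r x = ρ :=
  no_fakes_of (fun c f _ hε => osc_small c f hε) hr f hpq l j0 ρ h

/-- the blocks are dense, so that the norm is determined by them -/
theorem norm_le_of_blocks {r : T → ℕ → Bool} (hr : Function.Injective r) (f : C(K, ℝ)) {ε : ℝ}
    (hε : 0 ≤ ε) (h : ∀ j φ, |f (PP r j φ)| ≤ ε) : ‖f‖ ≤ ε :=
  norm_le_of_blocks_of exists_force hr f hε h

namespace D4

theorem lab_injOn {r : T → ℕ → Bool} (hr : Function.Injective r) (S : Finset T) :
    ∃ J, ∀ j, J ≤ j → Set.InjOn (lab r j) S := by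
  classical
  have h1 : ∀ x y : T, ∃ i, x ≠ y → r x i ≠ r y i := by
    intro x y
    by_cases hxy : x = y
    · exact ⟨0, fun h => absurd hxy h⟩
    · have h2 : r x ≠ r y := fun h => hxy (hr h)
      obtain ⟨i, hi⟩ := Function.ne_iff.1 h2
      exact ⟨i, fun _ => hi⟩
  choose N hN using h1
  refine ⟨(S ×ˢ S).sup (fun z => N z.1 z.2 + 1), ?_⟩
  intro j hj x hx y hy hxy
  by_contra hne
  have h2 : N x y + 1 ≤ j := by
    refine le_trans ?_ hj
    exact Finset.le_sup (f := fun z : T × T => N z.1 z.2 + 1)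
      (Finset.mem_product.2 ⟨hx, hy⟩ : (x, y) ∈ S ×ˢ S)
  have h3 := congrFun hxy (⟨N x y, by omega⟩ : Fin j)
  exact hN x y hne h3

theorem measurable_eval (t : K) :
    @Measurable _ _ (SigP K) _ (fun f : C(K, ℝ) => f t) := by
  rw [measurable_iff_comap_le]
  exact le_iSup (fun t : K => MeasurableSpace.comap (fun f : C(K, ℝ) => f t) (borel ℝ)) t

theorem measurable_Sens {Ω : Type*} [MeasurableSpace Ω] {Q : Type} [Finite Q]
    (F : Ω → (Q → Bool) → ℝ) (hF : ∀ φ, Measurable fun ω => F ω φ) (p q : ℝ) (l : ℕ) (σ : Q) :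
    Measurable fun ω => Sens (F ω) p q l σ := by
  classical
  unfold Sens
  have h1 : ∀ φ, Measurable fun ω => F ω φ ≤ p := fun φ =>
    measurableSet_setOfPred.1 (measurableSet_le (hF φ) measurable_const)
  have h2 : ∀ φ, Measurable fun ω => q ≤ F ω φ := fun φ =>
    measurableSet_setOfPred.1 (measurableSet_le measurable_const (hF φ))
  refine Measurable.exists fun s => Measurable.exists fun ψ => ?_
  refine Measurable.and measurable_const (Measurable.and measurable_const (Measurable.or ?_ ?_))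
  · refine Measurable.forall fun φ => Measurable.imp measurable_const (Measurable.and ?_ ?_)
    · exact Measurable.imp measurable_const (h1 φ)
    · exact Measurable.imp measurable_const (h2 φ)
  · refine Measurable.forall fun φ => Measurable.imp measurable_const (Measurable.and ?_ ?_)
    · exact Measurable.imp measurable_const (h1 φ)
    · exact Measurable.imp measurable_const (h2 φ)

/-- König's lemma -/
theorem koenig (C : (j : ℕ) → (Fin j → Bool) → Prop) :
    (∃ ρ : ℕ → Bool, ∀ j, C j (fun i => ρ i)) ↔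
      ∀ J, ∃ σ : Fin J → Bool, ∀ j : Fin (J + 1),
        C j (fun i => σ ⟨i, lt_of_lt_of_le i.2 (Nat.lt_succ_iff.1 j.2)⟩) := by
  constructor
  · rintro ⟨ρ, h⟩ J
    exact ⟨fun i => ρ i, fun j => h j⟩
  · intro h
    have h1 : (⋂ J : ℕ, {ρ : ℕ → Bool | ∀ j, j ≤ J → C j (fun i => ρ i)}).Nonempty := by
      apply IsCompact.nonempty_iInter_of_sequence_nonempty_isCompact_isClosed
      · intro J ρ hρ j hj
        exact hρ j (by omega)
      · intro J
        obtain ⟨σ, hσ⟩ := h J
        classical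
        refine ⟨fun i => if hi : i < J then σ ⟨i, hi⟩ else false, ?_⟩
        intro j hj
        have h2 := hσ ⟨j, by omega⟩
        convert h2 using 2 with i
        exact dif_pos (lt_of_lt_of_le i.2 hj)
      · refine IsClosed.isCompact ?_
        have h3 : {ρ : ℕ → Bool | ∀ j, j ≤ 0 → C j (fun i => ρ i)} =
            (fun ρ : ℕ → Bool => (fun i : Fin 0 => ρ i)) ⁻¹'
              {τ | ∀ j (hj : j ≤ 0), C j (fun i => τ ⟨i, lt_of_lt_of_le i.2 hj⟩)} := rfl
        rw [h3]
        exact IsClosed.preimage (by fun_prop) (isClosed_discrete _)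
      · intro J
        have h3 : {ρ : ℕ → Bool | ∀ j, j ≤ J → C j (fun i => ρ i)} =
            (fun ρ : ℕ → Bool => (fun i : Fin J => ρ i)) ⁻¹'
              {τ | ∀ j (hj : j ≤ J), C j (fun i => τ ⟨i, lt_of_lt_of_le i.2 hj⟩)} := rfl
        rw [h3]
        exact IsClosed.preimage (by fun_prop) (isClosed_discrete _)
    obtain ⟨ρ, hρ⟩ := h1
    rw [mem_iInter] at hρ
    exact ⟨ρ, fun j => hρ j j le_rfl⟩

end D4

open D4

theorem Hs_finite {r : T → ℕ → Bool} (hr : Function.Injective r) (f : C(K, ℝ)) {p q : ℝ} (hpq : p < q)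
    (l j0 : ℕ) : (Hs r p q l j0 f).Finite := by
  classical
  by_contra hinf
  have hinf : (Hs r p q l j0 f).Infinite := hinf
  obtain ⟨S, hS, hc⟩ := hinf.exists_subset_card_eq ((l + 1) * 2 ^ l + 1)
  obtain ⟨J, hJ⟩ := lab_injOn hr S
  have h1 := card_sens (fun φ => f (PP r (max J j0) φ)) hpq l (S.image (lab r (max J j0))) (by
    intro σ hσ
    obtain ⟨x, hx, rfl⟩ := Finset.mem_image.1 hσ
    exact hS hx _ (le_max_right _ _))
  rw [Finset.card_image_of_injOn (hJ _ (le_max_left _ _)), hc] at h1
  omega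

theorem measurable_Hs {r : T → ℕ → Bool} (hr : Function.Injective r) {p q : ℝ} (hpq : p < q)
    (l j0 : ℕ) (X : Set T) : MeasurableSet[SigP K] {f : C(K, ℝ) | (Hs r p q l j0 f ∩ X).Nonempty} := by
  classical
  let _ : MeasurableSpace C(K, ℝ) := SigP K
  set r' : T → ℕ → Bool := fun x n => if n = 0 then decide (x ∈ X) else r x (n - 1) with hr'
  have hr'i : Function.Injective r' := by
    intro x y hxy
    apply hr
    funext n
    have := congrFun hxy (n + 1)
    simpa [hr'] using this
  set cf : (j : ℕ) → (Fin j → Bool) → (Fin j → Bool) :=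
    fun j τ i => if h : i.1 = 0 then true else τ ⟨i.1 - 1, by omega⟩ with hcf
  set CC : ℚ → ℚ → ℕ → ℕ → C(K, ℝ) → (j : ℕ) → (Fin j → Bool) → Prop :=
    fun p' q' l' j0' f j τ => (j0 ≤ j → Sens (fun φ => f (PP r j φ)) p q l τ) ∧
      (j0' ≤ j → Sens (fun φ => f (PP r' j φ)) p' q' l' (cf j τ)) with hCC
  have key : ∀ f : C(K, ℝ), (Hs r p q l j0 f ∩ X).Nonempty ↔
      ∃ (p' q' : ℚ) (l' j0' : ℕ), (p' : ℝ) < q' ∧ ∀ J, ∃ σ : Fin J → Bool, ∀ j : Fin (J + 1),
        CC p' q' l' j0' f j (fun i => σ ⟨i, lt_of_lt_of_le i.2 (Nat.lt_succ_iff.1 j.2)⟩) := by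
    intro f
    constructor
    · rintro ⟨x, hx, hxX⟩
      have h1 : x ∈ Gs f := by
        obtain ⟨y, hy, hyx⟩ := no_fakes hr f hpq l j0 (r x) (fun j hj => hx j hj)
        rwa [hr hyx] at hy
      obtain ⟨p', q', l', j0', hpq', hx'⟩ := Gs_sub_Hs hr'i f x h1
      refine ⟨p', q', l', j0', hpq', (koenig _).1 ⟨r x, fun j => ⟨fun hj => hx j hj, fun hj => ?_⟩⟩⟩
      have h2 := hx' j hj
      have e : cf j (fun i : Fin j => r x i) = lab r' j x := by
        funext i
        by_cases hi : i.1 = 0
        · simp [hcf, lab, hr', hi, hxX]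
        · simp [hcf, lab, hr', hi]
      rw [← e] at h2
      exact h2
    · rintro ⟨p', q', l', j0', hpq', hk⟩
      obtain ⟨ρ, hρ⟩ := (koenig _).2 hk
      obtain ⟨x, _, hx⟩ := no_fakes hr'i f hpq' l' j0' (fun n => if n = 0 then true else ρ (n - 1)) (by
        intro j hj
        have h2 := (hρ j).2 hj
        have e : cf j (fun i : Fin j => ρ i) =
            (fun i : Fin j => if (i : ℕ) = 0 then true else ρ ((i : ℕ) - 1)) := by
          funext i
          by_cases hi : i.1 = 0
          · simp [hcf, hi]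
          · simp [hcf, hi]
        rw [e] at h2
        exact h2)
      have hxX : x ∈ X := by
        have := congrFun hx 0
        simpa [hr'] using this
      have hxr : r x = ρ := by
        funext n
        have := congrFun hx (n + 1)
        simpa [hr'] using this
      refine ⟨x, fun j hj => ?_, hxX⟩
      have h2 := (hρ j).1 hj
      rw [← hxr] at h2
      exact h2
  have h0 : {f : C(K, ℝ) | (Hs r p q l j0 f ∩ X).Nonempty} = {f | ∃ (p' q' : ℚ) (l' j0' : ℕ),
      (p' : ℝ) < q' ∧ ∀ J, ∃ σ : Fin J → Bool, ∀ j : Fin (J + 1),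
        CC p' q' l' j0' f j (fun i => σ ⟨i, lt_of_lt_of_le i.2 (Nat.lt_succ_iff.1 j.2)⟩)} := by
    ext f
    exact key f
  rw [h0]
  refine measurableSet_setOfPred.2 ?_
  refine Measurable.exists fun p' => Measurable.exists fun q' => Measurable.exists fun l' =>
    Measurable.exists fun j0' => Measurable.and measurable_const ?_
  refine Measurable.forall fun J => Measurable.exists fun σ => Measurable.forall fun j => ?_
  refine Measurable.and (Measurable.imp measurable_const ?_) (Measurable.imp measurable_const ?_)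
  · exact measurable_Sens _ (fun φ => measurable_eval _) _ _ _ _
  · exact measurable_Sens _ (fun φ => measurable_eval _) _ _ _ _

end Pool.Agent.GB
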