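import Mathlib

set_option autoImplicit false

/-!
# A Grothendieck space `C(K)` whose Baire `σ`-algebras coincide: definitions

Terms `T`, the compact space `K` of valuations, evaluation `ev`, rank, conditions.
-/

namespace Pool.Agent.GB

open Set

/-- Terms. `bot`, `imp` are Boolean connectives; `w a n v` are free generators (for every sequence
`a` of earlier terms, `n`, `v`); `b a e g` is a generator which agrees with `e n` on the `n`-th
set `a n` outside of the small error set number `g n`, and is free elsewhere. -/
inductive T : Type
  | bot : T
  | imp : T → T → T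
  | w : (ℕ → T) → ℕ → ℕ → T
  | b : (ℕ → T) → (ℕ → T) → (ℕ → ℕ) → T

open T

/-- number of `v < (n+1)^2` with `t (w a n v)` -/
noncomputable def cnt (t : T → Bool) (a : ℕ → T) (n : ℕ) : ℕ :=
  ((Finset.range ((n + 1) ^ 2)).filter (fun v => t (w a n v) = true)).card

/-- the value of the error set number `v` at level `n` for the sequence `a` -/
noncomputable def zv (t : T → Bool) (a : ℕ → T) (n v : ℕ) : Bool :=
  t (w a n v) && decide (cnt t a n ≤ n)

/-- the closed conditions defining the compact space -/
structure InK (t : T → Bool) : Prop where
  bot : t bot = false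
  imp : ∀ x y, t (imp x y) = (!t x || t y)
  b : ∀ a e g n, t (a n) = true → (∀ m < n, t (a m) = false) → zv t a n (g n) = false →
    t (b a e g) = t (e n)

/-- The compact space. -/
def K : Type := {t : T → Bool // InK t}

instance : TopologicalSpace K := inferInstanceAs (TopologicalSpace {t : T → Bool // InK t})

open Classical in
/-- evaluation of terms from raw bits -/
noncomputable def ev (h : T → Bool) : T → Bool
  | T.bot => false
  | T.imp x y => !ev h x || ev h y
  | T.w a n v => h (w a n v)
  | T.b a e g =>
      if H : ∃ n, ev h (a n) = true then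
        (if zv h a (Nat.find H) (g (Nat.find H)) = true then h (b a e g)
          else ev h (e (Nat.find H)))
      else h (b a e g)

/-- rank -/
noncomputable def rk : T → Ordinal.{0}
  | T.bot => 0
  | T.imp x y => max (rk x) (rk y)
  | T.w a _ _ => ⨆ k, Order.succ (rk (a k))
  | T.b a e _ => Order.succ (max (⨆ k, Order.succ (rk (a k))) (⨆ k, Order.succ (rk (e k))))

/-- generators -/
def isGen : T → Prop
  | T.bot => False
  | T.imp _ _ => False
  | T.w _ _ _ => True
  | T.b _ _ _ => True

open Classical in
/-- the generators occurring in a term at top level -/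
noncomputable def gens : T → Finset T
  | T.bot => ∅
  | T.imp x y => gens x ∪ gens y
  | T.w a n v => {w a n v}
  | T.b a e g => {b a e g}

/-- a finite partial assignment of raw bits -/
structure Cond where
  s : Finset T
  p : T → Bool

/-- `h` extends the condition `c` -/
def Cond.Mem (c : Cond) (h : T → Bool) : Prop := ∀ x ∈ c.s, h x = c.p x

/-- `c'` is stronger than `c` -/
def Cond.Le (c c' : Cond) : Prop := c.s ⊆ c'.s ∧ ∀ x ∈ c.s, c'.p x = c.p x

/-- the condition forces that the generators `b a _ g` are free -/
def Cond.Free (c : Cond) (a : ℕ → T) (g : ℕ → ℕ) : Prop :=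
  ∀ h, c.Mem h → ∀ n, ev h (a n) = true → (∀ m < n, ev h (a m) = false) →
    zv h a n (g n) = true

/-- `x` is determined at `t` (so that its raw bit is irrelevant) -/
def Det (t : T → Bool) : T → Prop
  | T.bot => True
  | T.imp _ _ => True
  | T.w _ _ _ => False
  | T.b a _ g => ∃ n, t (a n) = true ∧ (∀ m < n, t (a m) = false) ∧ zv t a n (g n) = false

end Pool.Agent.GB
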