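import Pool.Agent.GB.Basic
import Pool.Agent.Helper96.Baire.Edgar

set_option autoImplicit false

/-!
# Further definitions: the Grothendieck property, approximate interpolation, sensitivity
-/

namespace Pool.Agent.GB

open Set Filter Topology MeasureTheory T

/-- Grothendieck spaces: weak-star convergent sequences in the dual are weakly convergent. -/
def Grothendieck (E : Type*) [NormedAddCommGroup E] [NormedSpace ℝ E] : Prop :=
  ∀ (φ : ℕ → StrongDual ℝ E) (ψ : StrongDual ℝ E),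
    (∀ f : E, Tendsto (fun n => φ n f) atTop (𝓝 (ψ f))) →
    ∀ Ψ : StrongDual ℝ (StrongDual ℝ E), Tendsto (fun n => Ψ (φ n)) atTop (𝓝 (Ψ ψ))

/-- Approximate interpolation property of the clopen sets of `X`. -/
def AIP (X : Type*) [TopologicalSpace X] [MeasurableSpace X] : Prop :=
  ∀ (A E : ℕ → Set X), (∀ n, IsClopen (A n)) → Pairwise (Function.onFun Disjoint A) →
    (∀ n, IsClopen (E n)) → (∀ n, E n ⊆ A n) →
    ∀ μ : ℕ → Measure X, (∀ n, μ n univ ≤ 1) →
      ∃ B : Set X, IsClopen B ∧ ∀ n, μ n (symmDiff (B ∩ A n) (E n)) ≤ ENNReal.ofReal (1 / (n + 1))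

/-- uniform integrability in the form used here -/
def UI {X : Type*} [MeasurableSpace X] (lam : Measure X) (h : ℕ → X → ℝ) : Prop :=
  ∀ ε : ℝ, 0 < ε → ∃ M : ℝ, ∀ n, ∫ x in {x | M < |h n x|}, |h n x| ∂lam ≤ ε

instance : MeasurableSpace K := borel K

instance : BorelSpace K := ⟨rfl⟩

/-- the `σ`-algebra on `C(X)` generated by the evaluations at points -/
@[reducible] def SigP (X : Type*) [TopologicalSpace X] : MeasurableSpace C(X, ℝ) :=
  ⨆ t : X, MeasurableSpace.comap (fun f : C(X, ℝ) => f t) (borel ℝ)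

/-- a finite-dimensional cube function `F` is sensitive to the coordinate `σ`, after fixing at most
`l` other coordinates, with gap `(p,q)` -/
def Sens {Q : Type} (F : (Q → Bool) → ℝ) (p q : ℝ) (l : ℕ) (σ : Q) : Prop :=
  ∃ (s : Finset Q) (ψ : Q → Bool), s.card ≤ l ∧ σ ∉ s ∧
    ((∀ φ : Q → Bool, (∀ x ∈ s, φ x = ψ x) →
        (φ σ = false → F φ ≤ p) ∧ (φ σ = true → q ≤ F φ)) ∨
     (∀ φ : Q → Bool, (∀ x ∈ s, φ x = ψ x) →
        (φ σ = true → F φ ≤ p) ∧ (φ σ = false → q ≤ F φ)))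

/-- the label of level `j` of a term -/
def lab (r : T → ℕ → Bool) (j : ℕ) (x : T) : Fin j → Bool := fun i => r x i

/-- the points of the `j`-th block -/
noncomputable def PP (r : T → ℕ → Bool) (j : ℕ) (φ : (Fin j → Bool) → Bool) : K :=
  pt (fun x => φ (lab r j x))

/-- the generators to which `f` is sensitive -/
def Gs (f : C(K, ℝ)) : Set T :=
  {γ | ∃ (c : Cond) (p q : ℝ), γ ∉ c.s ∧ p < q ∧
    ((∀ h, c.Mem h → (h γ = false → f (pt h) ≤ p) ∧ (h γ = true → q ≤ f (pt h))) ∨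
     (∀ h, c.Mem h → (h γ = true → f (pt h) ≤ p) ∧ (h γ = false → q ≤ f (pt h))))}

/-- the terms whose labels are sensitive for `f` on all blocks from `j0` on -/
def Hs (r : T → ℕ → Bool) (p q : ℝ) (l j0 : ℕ) (f : C(K, ℝ)) : Set T :=
  {x | ∀ j, j0 ≤ j → Sens (fun φ => f (PP r j φ)) p q l (lab r j x)}

end Pool.Agent.GB
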