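import Pool.Agent.Helper96.Baire.Edgar

set_option autoImplicit false

/-!
# Edgar's theorem: the Baire `σ`-algebra of the weak topology is generated by the functionals
-/

namespace Pool.Agent.GB

open Set Filter Topology MeasureTheory
open Pool.Agent.Helper96.Baire

/-- Edgar's theorem for the topology induced by a map with dense range into a power of `ℝ`. -/
theorem edgarw_gen {E B : Type*} (J : E → (B → ℝ)) (hJ : DenseRange J) :
    Ba (TopologicalSpace.induced J inferInstance) ≤
      MeasurableSpace.comap J MeasurableSpace.pi := by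
  unfold Ba
  apply iSup_le
  rintro ⟨F, hF⟩
  simp only
  have hopen : ∀ U : Set ℝ, IsOpen U → ∃ O : Set (B → ℝ), IsOpen O ∧ J ⁻¹' O = F ⁻¹' U := by
    intro U hU
    have h1 : IsOpen[TopologicalSpace.induced J inferInstance] (F ⁻¹' U) :=
      @IsOpen.preimage _ _ (TopologicalSpace.induced J inferInstance) _ _ hF _ hU
    exact isOpen_induced_iff.1 h1
  have key : ∀ r : ℝ, ∃ S : Set (B → ℝ), MeasurableSet S ∧ J ⁻¹' S = F ⁻¹' (Iio r) := by
    intro r
    choose O hO hOF using fun q : ℚ => hopen (Iio (q : ℝ)) isOpen_Iio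
    choose D hDc hDb hDd using fun q : ℚ => exists_dense_boxes (hO q)
    refine ⟨⋃ q : {q : ℚ // (q : ℝ) < r}, closure (⋃₀ D q.1), ?_, ?_⟩
    · exact MeasurableSet.iUnion fun q =>
        measurableSet_closure_boxes _ (hDc q.1) (fun b hb => (hDb q.1 b hb).1)
    · ext f
      simp only [mem_preimage, mem_iUnion, mem_Iio]
      constructor
      · rintro ⟨⟨q, hq⟩, hf⟩
        refine lt_of_le_of_lt ?_ hq
        by_contra hcon
        push Not at hcon
        obtain ⟨O', hO', hO'F⟩ := hopen (Ioi (q : ℝ)) isOpen_Ioi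
        have hfO' : J f ∈ O' := by
          have : f ∈ J ⁻¹' O' := by
            rw [hO'F]
            exact hcon
          exact this
        obtain ⟨v, hv1, hv2⟩ := mem_closure_iff.1 hf O' hO' hfO'
        obtain ⟨b, hb, hvb⟩ := hv2
        have hne : (O' ∩ O q).Nonempty := ⟨v, hv1, (hDb q b hb).2 hvb⟩
        obtain ⟨w, ⟨hw1, hw2⟩, ⟨g, hg⟩⟩ := hJ.inter_open_nonempty _ (hO'.inter (hO q)) hne
        subst hg
        have h3 : g ∈ J ⁻¹' O' := hw1
        have h4 : g ∈ J ⁻¹' (O q) := hw2
        rw [hO'F] at h3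
        rw [hOF] at h4
        have h3' : (q : ℝ) < F g := h3
        have h4' : F g < (q : ℝ) := h4
        exact lt_asymm h3' h4'
      · intro hf
        obtain ⟨q, hq1, hq2⟩ := exists_rat_btwn hf
        refine ⟨⟨q, hq2⟩, hDd q ?_⟩
        have : f ∈ J ⁻¹' (O q) := by
          rw [hOF]
          exact hq1
        exact this
  rw [borel_eq_generateFrom_Iio, MeasurableSpace.comap_generateFrom]
  apply MeasurableSpace.generateFrom_le
  rintro _ ⟨_, ⟨r, rfl⟩, rfl⟩
  obtain ⟨S, hS, hSF⟩ := key r
  exact ⟨S, hS, hSF⟩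

/-- Finitely many linearly independent functionals take arbitrary values. -/
theorem edgarw_surj {E : Type*} [NormedAddCommGroup E] [NormedSpace ℝ E] {ι : Type*}
    (b : ι → StrongDual ℝ E) (hb : LinearIndependent ℝ b) (I : Finset ι) (u : ι → ℝ) :
    ∃ f : E, ∀ i ∈ I, b i f = u i := by
  classical
  set A : E →ₗ[ℝ] (I → ℝ) := LinearMap.pi (fun i => ((b i.1 : E →L[ℝ] ℝ) : E →ₗ[ℝ] ℝ)) with hA
  have htop : LinearMap.range A = ⊤ := by
    by_contra hne
    obtain ⟨g, hg0, hg⟩ := Submodule.exists_le_ker_of_lt_top _ (lt_top_iff_ne_top.2 hne)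
    apply hg0
    have hI : LinearIndependent ℝ (fun i : I => b i.1) :=
      hb.comp _ Subtype.val_injective
    rw [Fintype.linearIndependent_iff] at hI
    have h1 : ∑ i : I, g (Pi.single i 1) • b i.1 = 0 := by
      ext f
      have h2 : g (A f) = 0 := hg ⟨f, rfl⟩
      have h3 : A f = ∑ i : I, (b i.1 f) • (Pi.single i (1 : ℝ) : I → ℝ) := by
        funext j
        rw [Finset.sum_apply, Finset.sum_eq_single j]
        · simp [hA]
        · intro i _ hij
          simp [Pi.single_eq_of_ne hij.symm]
        · intro h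
          exact absurd (Finset.mem_univ j) h
      rw [h3, map_sum] at h2
      simp only [map_smul, smul_eq_mul] at h2
      rw [sum_apply]
      simp only [smul_apply, smul_eq_mul, zero_apply]
      rw [← h2]
      exact Finset.sum_congr rfl fun i _ => mul_comm _ _
    have h4 := hI _ h1
    refine LinearMap.pi_ext' fun i => ?_
    ext
    simpa using h4 i
  have hu : (fun i : I => u i.1) ∈ LinearMap.range A := by rw [htop]; trivial
  obtain ⟨f, hf⟩ := hu
  exact ⟨f, fun i hi => congrFun hf ⟨i, hi⟩⟩

/-! ## Module EDGAR -/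
theorem edgar_weak (E : Type*) [NormedAddCommGroup E] [NormedSpace ℝ E] :
    Ba (TopologicalSpace.induced (fun (f : E) (φ : StrongDual ℝ E) => φ f) inferInstance) ≤
      ⨆ φ : StrongDual ℝ E, MeasurableSpace.comap (fun f : E => φ f) (borel ℝ) := by
  classical
  set b := Module.Basis.ofVectorSpace ℝ (StrongDual ℝ E) with hb
  set J : E → (Module.Basis.ofVectorSpaceIndex ℝ (StrongDual ℝ E) → ℝ) := fun f i => b i f with hJ
  have hdense : DenseRange J := by
    rw [DenseRange, dense_iff_inter_open]
    rintro O hO ⟨u, hu⟩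
    obtain ⟨I, V, hV, hs⟩ := isOpen_pi_iff.1 hO u hu
    obtain ⟨f, hf⟩ := edgarw_surj (fun i => b i) b.linearIndependent I u
    refine ⟨J f, hs ?_, ⟨f, rfl⟩⟩
    intro j hj
    have hj' : j ∈ I := hj
    have : J f j = u j := hf j hj'
    rw [this]
    exact (hV j hj').2
  have hcont : ∀ φ : StrongDual ℝ E,
      @Continuous E ℝ (TopologicalSpace.induced J inferInstance) _ (fun f => φ f) := by
    intro φ
    have h1 : ∀ f : E, φ f = ∑ i ∈ (b.repr φ).support, b.repr φ i * J f i := by
      intro f
      have h2 := b.linearCombination_repr φ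
      rw [Finsupp.linearCombination_apply, Finsupp.sum] at h2
      conv_lhs => rw [← h2]
      rw [sum_apply]
      rfl
    have h3 : (fun f : E => φ f) =
        (fun v : Module.Basis.ofVectorSpaceIndex ℝ (StrongDual ℝ E) → ℝ =>
          ∑ i ∈ (b.repr φ).support, b.repr φ i * v i) ∘ J := funext h1
    rw [h3]
    have hc : Continuous (fun v : Module.Basis.ofVectorSpaceIndex ℝ (StrongDual ℝ E) → ℝ =>
          ∑ i ∈ (b.repr φ).support, b.repr φ i * v i) := by
      fun_prop
    exact @Continuous.comp _ _ _ (TopologicalSpace.induced J inferInstance) _ _ J _ hc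
      continuous_induced_dom
  have htop : TopologicalSpace.induced J inferInstance ≤
      TopologicalSpace.induced (fun (f : E) (φ : StrongDual ℝ E) => φ f) inferInstance := by
    rw [← continuous_iff_le_induced]
    exact @continuous_pi _ _ _ (TopologicalSpace.induced J inferInstance) _ _ hcont
  have h1 : Ba (TopologicalSpace.induced (fun (f : E) (φ : StrongDual ℝ E) => φ f) inferInstance) ≤
      Ba (TopologicalSpace.induced J inferInstance) := by
    apply iSup_le
    rintro ⟨F, hF⟩
    exact le_iSup (fun f : {f : E → ℝ // @Continuous E ℝ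
      (TopologicalSpace.induced J inferInstance) _ f} => MeasurableSpace.comap f.1 (borel ℝ))
      ⟨F, continuous_le_dom htop hF⟩
  refine h1.trans ((edgarw_gen J hdense).trans ?_)
  unfold MeasurableSpace.pi
  rw [MeasurableSpace.comap_iSup]
  apply iSup_le
  intro i
  rw [MeasurableSpace.comap_comp]
  exact le_iSup (fun φ : StrongDual ℝ E => MeasurableSpace.comap (fun f : E => φ f) (borel ℝ)) (b i)

end Pool.Agent.GB
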