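import Mathlib

/-! Jordan decomposition of functionals on `C(X)` (module JORDAN of MP_bb644c_an). -/

set_option autoImplicit false

namespace Pool.Agent.GB

open Set Filter Topology MeasureTheory

namespace JordanAux

variable {X : Type*} [TopologicalSpace X] [CompactSpace X] (φ : StrongDual ℝ C(X, ℝ))

/-- values of `φ` on the order interval `[0, f]` -/
def S (f : C(X, ℝ)) : Set ℝ := {r | ∃ g : C(X, ℝ), 0 ≤ g ∧ g ≤ f ∧ φ g = r}

/-- positive part of `φ` on the positive cone -/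
noncomputable def p (f : C(X, ℝ)) : ℝ := sSup (S φ f)

theorem S_nonempty {f : C(X, ℝ)} (hf : 0 ≤ f) : (S φ f).Nonempty :=
  ⟨φ 0, 0, le_refl 0, hf, rfl⟩

theorem norm_le_of_mem {f g : C(X, ℝ)} (h0 : 0 ≤ g) (h1 : g ≤ f) : ‖g‖ ≤ ‖f‖ := by
  rw [ContinuousMap.norm_le _ (norm_nonneg f)]
  intro x
  have a := ContinuousMap.le_def.1 h0 x
  have b := ContinuousMap.le_def.1 h1 x
  have c := f.norm_coe_le_norm x
  rw [Real.norm_eq_abs] at *
  rw [abs_le] at *
  simp only [ContinuousMap.zero_apply] at a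
  constructor
  · linarith [norm_nonneg f]
  · linarith [c.2]

theorem S_bdd (f : C(X, ℝ)) : BddAbove (S φ f) := by
  refine ⟨‖φ‖ * ‖f‖, ?_⟩
  rintro r ⟨g, h0, h1, rfl⟩
  calc φ g ≤ ‖φ g‖ := Real.le_norm_self _
    _ ≤ ‖φ‖ * ‖g‖ := φ.le_opNorm g
    _ ≤ ‖φ‖ * ‖f‖ := by gcongr; exact norm_le_of_mem h0 h1

theorem le_p {f g : C(X, ℝ)} (h0 : 0 ≤ g) (h1 : g ≤ f) : φ g ≤ p φ f :=
  le_csSup (S_bdd φ f) ⟨g, h0, h1, rfl⟩

theorem p_nonneg {f : C(X, ℝ)} (hf : 0 ≤ f) : 0 ≤ p φ f := by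
  have := le_p φ (le_refl 0) hf
  simpa using this

theorem p_add {f g : C(X, ℝ)} (hf : 0 ≤ f) (hg : 0 ≤ g) : p φ (f + g) = p φ f + p φ g := by
  apply le_antisymm
  · refine csSup_le (S_nonempty φ (add_nonneg hf hg)) ?_
    rintro r ⟨k, h0, h1, rfl⟩
    have e : k = (k ⊓ f) + (k - k ⊓ f) := by abel
    rw [e, map_add]
    refine add_le_add (le_p φ (le_inf h0 hf) inf_le_right) (le_p φ ?_ ?_)
    · exact sub_nonneg.2 inf_le_left
    · rw [ContinuousMap.le_def]
      intro x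
      have a := ContinuousMap.le_def.1 h1 x
      have b := ContinuousMap.le_def.1 hg x
      simp only [ContinuousMap.add_apply, ContinuousMap.zero_apply] at a b
      simp only [ContinuousMap.sub_apply, ContinuousMap.inf_apply]
      rcases le_total (k x) (f x) with h | h
      · rw [inf_eq_left.2 h]; linarith
      · rw [inf_eq_right.2 h]; linarith
  · have h : ∀ r ∈ S φ f, ∀ s ∈ S φ g, r + s ≤ p φ (f + g) := by
      rintro r ⟨k, h0, h1, rfl⟩ s ⟨l, h2, h3, rfl⟩
      rw [← map_add]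
      exact le_p φ (add_nonneg h0 h2) (add_le_add h1 h3)
    have h' : ∀ r ∈ S φ f, r + p φ g ≤ p φ (f + g) := by
      intro r hr
      have : p φ g ≤ p φ (f + g) - r :=
        csSup_le (S_nonempty φ hg) (fun s hs => by linarith [h r hr s hs])
      linarith
    have : p φ f ≤ p φ (f + g) - p φ g :=
      csSup_le (S_nonempty φ hf) (fun r hr => by linarith [h' r hr])
    linarith

theorem p_smul_le {f : C(X, ℝ)} (hf : 0 ≤ f) {c : ℝ} (hc : 0 ≤ c) : c * p φ f ≤ p φ (c • f) := by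
  rcases hc.eq_or_lt with rfl | hc'
  · rw [zero_mul, zero_smul]
    exact p_nonneg φ le_rfl
  · have : p φ f ≤ c⁻¹ * p φ (c • f) := by
      refine csSup_le (S_nonempty φ hf) ?_
      rintro r ⟨g, h0, h1, rfl⟩
      have := le_p φ (smul_nonneg hc h0) (smul_le_smul_of_nonneg_left h1 hc)
      rw [map_smul, smul_eq_mul] at this
      rw [le_inv_mul_iff₀ hc']
      exact this
    rwa [le_inv_mul_iff₀ hc'] at this

theorem p_zero : p φ 0 = 0 := by
  have := p_add φ (le_refl (0 : C(X, ℝ))) le_rfl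
  rw [add_zero] at this
  linarith

theorem p_smul {f : C(X, ℝ)} (hf : 0 ≤ f) {c : ℝ} (hc : 0 ≤ c) : p φ (c • f) = c * p φ f := by
  rcases hc.eq_or_lt with rfl | hc'
  · rw [zero_smul, zero_mul, p_zero]
  · refine le_antisymm ?_ (p_smul_le φ hf hc)
    have := p_smul_le φ (smul_nonneg hc hf) (inv_nonneg.2 hc)
    rw [smul_smul, inv_mul_cancel₀ hc'.ne', one_smul] at this
    rwa [inv_mul_le_iff₀ hc'] at this

/-- the constant function `‖f‖` -/
noncomputable def k (f : C(X, ℝ)) : C(X, ℝ) := ContinuousMap.const X ‖f‖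

theorem k_nonneg (f : C(X, ℝ)) : 0 ≤ k f := by
  rw [ContinuousMap.le_def]
  intro x
  exact norm_nonneg f

theorem add_k_nonneg (f : C(X, ℝ)) : 0 ≤ f + k f := by
  rw [ContinuousMap.le_def]
  intro x
  have := f.norm_coe_le_norm x
  rw [Real.norm_eq_abs, abs_le] at this
  simp only [ContinuousMap.zero_apply, ContinuousMap.add_apply, k, ContinuousMap.const_apply]
  linarith [this.1]

/-- the extension of `p` -/
noncomputable def L (f : C(X, ℝ)) : ℝ := p φ (f + k f) - p φ (k f)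

theorem L_eq {f h : C(X, ℝ)} (hh : 0 ≤ h) (hfh : 0 ≤ f + h) : L φ f = p φ (f + h) - p φ h := by
  unfold L
  have h1 := p_add φ (add_k_nonneg f) hh
  have h2 := p_add φ hfh (k_nonneg f)
  have e : f + k f + h = f + h + k f := by abel
  rw [e, h2] at h1
  linarith

theorem L_of_nonneg {f : C(X, ℝ)} (hf : 0 ≤ f) : L φ f = p φ f := by
  rw [L_eq φ (le_refl 0) (by simpa using hf), add_zero, p_zero, sub_zero]

theorem L_add (f g : C(X, ℝ)) : L φ (f + g) = L φ f + L φ g := by
  have h : 0 ≤ f + g + (k f + k g) := by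
    have := add_nonneg (add_k_nonneg f) (add_k_nonneg g)
    have e : f + k f + (g + k g) = f + g + (k f + k g) := by abel
    rwa [e] at this
  rw [L_eq φ (add_nonneg (k_nonneg f) (k_nonneg g)) h]
  have e : f + g + (k f + k g) = f + k f + (g + k g) := by abel
  rw [e, p_add φ (add_k_nonneg f) (add_k_nonneg g), p_add φ (k_nonneg f) (k_nonneg g)]
  unfold L
  ring

theorem L_zero : L φ 0 = 0 := by
  rw [L_of_nonneg φ le_rfl, p_zero]

theorem L_neg (f : C(X, ℝ)) : L φ (-f) = - L φ f := by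
  have := L_add φ f (-f)
  rw [add_neg_cancel, L_zero] at this
  linarith

theorem L_smul_nonneg (f : C(X, ℝ)) {c : ℝ} (hc : 0 ≤ c) : L φ (c • f) = c * L φ f := by
  have h : 0 ≤ c • f + c • k f := by
    rw [← smul_add]
    exact smul_nonneg hc (add_k_nonneg f)
  rw [L_eq φ (smul_nonneg hc (k_nonneg f)) h, ← smul_add, p_smul φ (add_k_nonneg f) hc,
    p_smul φ (k_nonneg f) hc]
  unfold L
  ring

theorem L_smul (c : ℝ) (f : C(X, ℝ)) : L φ (c • f) = c * L φ f := by
  rcases le_total 0 c with hc | hc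
  · exact L_smul_nonneg φ f hc
  · have := L_smul_nonneg φ f (neg_nonneg.2 hc)
    rw [neg_smul, L_neg] at this
    linarith

/-- `L` as a linear map -/
noncomputable def Lm : C(X, ℝ) →ₗ[ℝ] ℝ where
  toFun := L φ
  map_add' := L_add φ
  map_smul' c f := by rw [L_smul]; rfl

theorem riesz [T2Space X] [MeasurableSpace X] [BorelSpace X] (m : C(X, ℝ) →ₗ[ℝ] ℝ)
    (hpos : ∀ f, 0 ≤ f → 0 ≤ m f) :
    ∃ μ : Measure X, IsFiniteMeasure μ ∧ μ.Regular ∧ ∀ f : C(X, ℝ), m f = ∫ x, f x ∂μ := by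
  let Λ : CompactlySupportedContinuousMap X ℝ →ₚ[ℝ] ℝ :=
    { toFun := fun f => m f.toContinuousMap
      map_add' := fun f g => m.map_add f.toContinuousMap g.toContinuousMap
      map_smul' := fun c f => m.map_smul c f.toContinuousMap
      monotone' := fun f f' hff' => by
        have h2 : 0 ≤ m (f'.toContinuousMap - f.toContinuousMap) :=
          hpos _ (by
            rw [ContinuousMap.le_def]
            exact fun x => sub_nonneg.2 (hff' x))
        rw [map_sub] at h2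
        exact sub_nonneg.1 h2 }
  refine ⟨RealRMK.rieszMeasure Λ, by infer_instance, by infer_instance, ?_⟩
  intro f
  have := RealRMK.integral_rieszMeasure Λ
    { toFun := f, hasCompactSupport' := HasCompactSupport.of_compactSpace _ }
  exact this.symm

end JordanAux

theorem jordan {X : Type*} [TopologicalSpace X] [CompactSpace X] [T2Space X] [MeasurableSpace X]
    [BorelSpace X] (φ : StrongDual ℝ C(X, ℝ)) :
    ∃ μ ν : Measure X, IsFiniteMeasure μ ∧ IsFiniteMeasure ν ∧ μ.Regular ∧ ν.Regular ∧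
      ∀ f : C(X, ℝ), φ f = ∫ x, f x ∂μ - ∫ x, f x ∂ν := by
  obtain ⟨μ, h1, h2, h3⟩ := JordanAux.riesz (JordanAux.Lm φ) (fun f hf => by
    show 0 ≤ JordanAux.L φ f
    rw [JordanAux.L_of_nonneg φ hf]
    exact JordanAux.p_nonneg φ hf)
  obtain ⟨ν, h4, h5, h6⟩ := JordanAux.riesz (JordanAux.Lm φ - φ.toLinearMap) (fun f hf => by
    show 0 ≤ JordanAux.L φ f - φ f
    rw [JordanAux.L_of_nonneg φ hf]
    exact sub_nonneg.2 (JordanAux.le_p φ hf le_rfl))
  refine ⟨μ, ν, h1, h4, h2, h5, fun f => ?_⟩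
  rw [← h3 f, ← h6 f]
  simp

end Pool.Agent.GB
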