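import Mathlib
import Pool.Agent.GB.Coupling

set_option autoImplicit false

/-!
# Measurability of the joint distributions as functions of the indices
-/

namespace Pool.Agent.GB

open Set Filter Topology MeasureTheory ProbabilityTheory

namespace RepA

open Coup

/-- shapes of elementary sets -/
def Sh : Type := Σ k : ℕ, (Fin k → ℚ) × Set (Fin k → Bool)

instance : Countable Sh := by
  unfold Sh
  infer_instance

open Classical in
/-- the bits of `U` -/
noncomputable def bits {Γ : Type} {k : ℕ} (q : Fin k → ℚ) (η : ℕ → Γ) (U : Γ → ℝ) : Fin k → Bool :=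
  fun a => decide (U (η a) < (q a : ℝ))

/-- elementary set -/
def Cs {Γ : Type} (S : Sh) (η : ℕ → Γ) : Set (Γ → ℝ) := {U | bits S.2.1 η U ∈ S.2.2}

lemma meas_bits {Γ : Type} {k : ℕ} (q : Fin k → ℚ) (η : ℕ → Γ) : Measurable (bits q η) := by
  classical
  apply measurable_pi_lambda
  intro a
  apply measurable_to_bool
  have : (fun U => bits q η U a) ⁻¹' {true} = {U : Γ → ℝ | U (η a) < (q a : ℝ)} := by
    ext U
    simp [bits]
  rw [this]
  exact measurableSet_lt (measurable_pi_apply _) measurable_const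

lemma meas_Cs {Γ : Type} (S : Sh) (η : ℕ → Γ) : MeasurableSet (Cs S η) :=
  meas_bits S.2.1 η (Set.toFinite S.2.2).measurableSet

/-- the algebra of elementary sets -/
def Al (Γ : Type) : Set (Set (Γ → ℝ)) := {A | ∃ (S : Sh) (η : ℕ → Γ), A = Cs S η}

lemma al_isSetAlgebra (Γ : Type) [Nonempty Γ] : IsSetAlgebra (Al Γ) := by
  classical
  obtain ⟨g0⟩ := (inferInstance : Nonempty Γ)
  refine ⟨⟨⟨0, fun a => 0, ∅⟩, fun _ => g0, ?_⟩, ?_, ?_⟩
  · ext U
    simp [Cs]
  · rintro _ ⟨S, η, rfl⟩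
    refine ⟨⟨S.1, S.2.1, S.2.2ᶜ⟩, η, ?_⟩
    ext U
    simp [Cs]
  · rintro _ _ ⟨S, η, rfl⟩ ⟨S', η', rfl⟩
    refine ⟨⟨S.1 + S'.1, Fin.append S.2.1 S'.2.1,
      {x | (fun a => x (Fin.castAdd S'.1 a)) ∈ S.2.2 ∨ (fun a => x (Fin.natAdd S.1 a)) ∈ S'.2.2}⟩,
      fun a => if a < S.1 then η a else η' (a - S.1), ?_⟩
    ext U
    have e1 : (fun a : Fin S.1 => bits (Fin.append S.2.1 S'.2.1)
        (fun a => if a < S.1 then η a else η' (a - S.1)) U (Fin.castAdd S'.1 a))
        = bits S.2.1 η U := by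
      funext a
      simp [bits, Fin.append_left]
    have e2 : (fun a : Fin S'.1 => bits (Fin.append S.2.1 S'.2.1)
        (fun a => if a < S.1 then η a else η' (a - S.1)) U (Fin.natAdd S.1 a))
        = bits S'.2.1 η' U := by
      funext a
      simp [bits, Fin.append_right]
    show (bits S.2.1 η U ∈ S.2.2 ∨ bits S'.2.1 η' U ∈ S'.2.2) ↔ _
    rw [← e1, ← e2]
    rfl

lemma al_gen (Γ : Type) :
    (inferInstance : MeasurableSpace (Γ → ℝ)) = MeasurableSpace.generateFrom (Al Γ) := by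
  classical
  apply le_antisymm
  · apply iSup_le
    intro i
    rw [BorelSpace.measurable_eq (α := ℝ), Real.borel_eq_generateFrom_Iio_rat]
    rw [MeasurableSpace.comap_generateFrom]
    apply MeasurableSpace.generateFrom_le
    rintro _ ⟨B, hB, rfl⟩
    simp only [mem_iUnion, mem_singleton_iff] at hB
    obtain ⟨q, rfl⟩ := hB
    apply MeasurableSpace.measurableSet_generateFrom
    refine ⟨⟨1, fun _ => q, {x | x 0 = true}⟩, fun _ => i, ?_⟩
    ext U
    simp [Cs, bits]
  · apply MeasurableSpace.generateFrom_le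
    rintro _ ⟨S, η, rfl⟩
    exact meas_Cs S η

lemma approx {Γ : Type} [Nonempty Γ] {B : Set (Γ → ℝ)} (hB : MeasurableSet B) (m : ℕ) :
    ∃ p : Sh × (ℕ → Γ), (P Γ) (symmDiff B (Cs p.1 p.2)) < ENNReal.ofReal (1 / ((m : ℝ) + 1)) := by
  have h1 := Measure.MeasureDense.of_generateFrom_isSetAlgebra_finite (μ := P Γ)
    (al_isSetAlgebra Γ) (al_gen Γ)
  obtain ⟨t, ⟨S, η, rfl⟩, h2⟩ := h1.approx B hB (measure_ne_top _ _) (1 / ((m : ℝ) + 1))
    (by positivity)
  exact ⟨(S, η), h2⟩

/-- injective reindexing -/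
lemma map_inj {Γ Q : Type} {ι : Q → Γ} (hι : Function.Injective ι) :
    (P Γ).map (fun U q => U (ι q)) = P Q := by
  have h1 : iIndepFun (fun (q : Q) (U : Γ → ℝ) => U (ι q)) (P Γ) :=
    (indep_coord (Γ := Γ)).precomp hι
  rw [iIndepFun_iff_map_fun_eq_infinitePi_map (fun q => measurable_pi_apply (ι q))] at h1
  rw [h1]
  simp only [map_eval]
  rfl

/-- the law of a finite family of coordinates depends only on the equality pattern -/
lemma law_ker {Γ E : Type} {ζ ζ' : E → Γ} (h : ∀ e e', ζ e = ζ e' ↔ ζ' e = ζ' e')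
    {S : Set (E → ℝ)} (hS : MeasurableSet S) :
    (P Γ) {U | (fun e => U (ζ e)) ∈ S} = (P Γ) {U | (fun e => U (ζ' e)) ∈ S} := by
  set s : Setoid E := Setoid.ker ζ with hs
  have key : ∀ ξ : E → Γ, (∀ e e', ζ e = ζ e' ↔ ξ e = ξ e') →
      (P Γ) {U | (fun e => U (ξ e)) ∈ S} =
        (P (Quotient s)) {V | (fun e => V (Quotient.mk s e)) ∈ S} := by
    intro ξ hξ
    let ι : Quotient s → Γ := Quotient.lift ξ (fun e e' hee => (hξ e e').mp hee)
    have hι : Function.Injective ι := by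
      intro x y
      refine Quotient.inductionOn₂ x y ?_
      intro e e' hee
      apply Quotient.sound
      exact (hξ e e').mpr hee
    have hm : Measurable (fun (V : Quotient s → ℝ) (e : E) => V (Quotient.mk s e)) :=
      measurable_pi_lambda _ fun e => measurable_pi_apply _
    have hm2 : Measurable (fun (U : Γ → ℝ) (q : Quotient s) => U (ι q)) :=
      measurable_pi_lambda _ fun e => measurable_pi_apply _
    show _ = (P (Quotient s)) ((fun (V : Quotient s → ℝ) (e : E) => V (Quotient.mk s e)) ⁻¹' S)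
    rw [← map_inj hι, Measure.map_apply hm2 (hm hS)]
    rfl
  rw [key ζ (fun e e' => Iff.rfl), key ζ' h]

section pattern

variable {Γ : Type} {n : ℕ}

/-- index set of the coordinates used by a family of shapes -/
abbrev Ix (σ : Fin n → Sh) : Type := Σ i : Fin n, Fin (σ i).1

/-- the equality pattern -/
def pat {E : Type} (ζ : E → Γ) : Set (E × E) := {p | ζ p.1 = ζ p.2}

/-- the coordinates used -/
def zt (σ : Fin n → Sh) (η : Fin n → ℕ → Γ) : Ix σ → Γ := fun e => η e.1 e.2

lemma val_congr (σ : Fin n → Sh) {η η' : Fin n → ℕ → Γ} (h : pat (zt σ η) = pat (zt σ η')) :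
    (P Γ) (⋂ i, Cs (σ i) (η i)) = (P Γ) (⋂ i, Cs (σ i) (η' i)) := by
  classical
  set S : Set (Ix σ → ℝ) := {V | ∀ i, (fun a : Fin (σ i).1 =>
    decide (V ⟨i, a⟩ < ((σ i).2.1 a : ℝ))) ∈ (σ i).2.2} with hS
  have hSm : MeasurableSet S := by
    have : S = ⋂ i, (fun (V : Ix σ → ℝ) (a : Fin (σ i).1) =>
        decide (V ⟨i, a⟩ < ((σ i).2.1 a : ℝ))) ⁻¹' (σ i).2.2 := by
      ext V
      simp [hS]
    rw [this]
    apply MeasurableSet.iInter
    intro i
    have hm : Measurable (fun (V : Ix σ → ℝ) (a : Fin (σ i).1) =>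
        decide (V ⟨i, a⟩ < ((σ i).2.1 a : ℝ))) := by
      apply measurable_pi_lambda
      intro a
      apply measurable_to_bool
      have : (fun V : Ix σ → ℝ => decide (V ⟨i, a⟩ < ((σ i).2.1 a : ℝ))) ⁻¹' {true}
          = {V : Ix σ → ℝ | V ⟨i, a⟩ < ((σ i).2.1 a : ℝ)} := by
        ext V
        simp
      rw [this]
      exact measurableSet_lt (measurable_pi_apply _) measurable_const
    exact hm (Set.toFinite _).measurableSet
  have e : ∀ ξ : Fin n → ℕ → Γ, (⋂ i, Cs (σ i) (ξ i)) = {U | (fun e => U (zt σ ξ e)) ∈ S} := by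
    intro ξ
    ext U
    simp only [mem_iInter, Cs, Set.mem_ofPred_eq, hS, zt]
    rfl
  rw [e η, e η']
  apply law_ker _ hSm
  intro e1 e2
  have := Set.ext_iff.mp h (e1, e2)
  exact this

open Classical in
/-- the value attached to a pattern -/
noncomputable def val (Γ : Type) (σ : Fin n → Sh) (s : Set (Ix σ × Ix σ)) : ENNReal :=
  if h : ∃ η : Fin n → ℕ → Γ, pat (zt σ η) = s then
    (P Γ) (⋂ i, Cs (σ i) (h.choose i)) else 0

lemma val_eq (σ : Fin n → Sh) (η : Fin n → ℕ → Γ) :
    val Γ σ (pat (zt σ η)) = (P Γ) (⋂ i, Cs (σ i) (η i)) := by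
  classical
  have h : ∃ η' : Fin n → ℕ → Γ, pat (zt σ η') = pat (zt σ η) := ⟨η, rfl⟩
  unfold val
  rw [dif_pos h]
  exact val_congr σ h.choose_spec

variable (r : Γ → ℕ → Bool) (hr : Function.Injective r)

/-- the discrete product `σ`-algebra -/
@[reducible] def dis (Γ : Type) (n : ℕ) : MeasurableSpace (Fin n → Γ) :=
  @MeasurableSpace.pi (Fin n) (fun _ => Γ) (fun _ => ⊤)

lemma meas_coord {Y : Type*} [MeasurableSpace Y] (i : Fin n) (f : Γ → Y) :
    @Measurable _ _ (dis Γ n) _ (fun γ : Fin n → Γ => f (γ i)) := by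
  have h1 : @Measurable _ _ (dis Γ n) (⊤ : MeasurableSpace Γ) (fun γ : Fin n → Γ => γ i) :=
    @measurable_pi_apply (Fin n) (fun _ => Γ) (fun _ => ⊤) i
  have h2 : @Measurable _ _ (⊤ : MeasurableSpace Γ) _ f := fun _ _ => trivial
  exact h2.comp h1

include hr in
lemma meas_eqset (i j : Fin n) (f f' : Γ → Γ) :
    MeasurableSet[dis Γ n] {γ : Fin n → Γ | f (γ i) = f' (γ j)} := by
  let _ := dis Γ n
  have : {γ : Fin n → Γ | f (γ i) = f' (γ j)}
      = ⋂ l : ℕ, {γ : Fin n → Γ | r (f (γ i)) l = r (f' (γ j)) l} := by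
    ext γ
    simp only [Set.mem_ofPred_eq, mem_iInter]
    constructor
    · intro h l
      rw [h]
    · intro h
      exact hr (funext h)
  rw [this]
  exact MeasurableSet.iInter fun l => measurableSet_eq_fun
    (meas_coord i (fun g => r (f g) l)) (meas_coord j (fun g => r (f' g) l))

include hr in
/-- measurability of the approximations -/
lemma meas_approx (A : Γ → Sh) (η : Γ → ℕ → Γ) :
    @Measurable _ _ (dis Γ n) _
      (fun γ : Fin n → Γ => (P Γ) (⋂ i, Cs (A (γ i)) (η (γ i)))) := by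
  classical
  let _ := dis Γ n
  intro V hV
  have e : (fun γ : Fin n → Γ => (P Γ) (⋂ i, Cs (A (γ i)) (η (γ i)))) ⁻¹' V
      = ⋃ σ : Fin n → Sh, ({γ : Fin n → Γ | ∀ i, A (γ i) = σ i} ∩
        {γ : Fin n → Γ | val Γ σ (pat (zt σ (fun i => η (γ i)))) ∈ V}) := by
    ext γ
    simp only [mem_preimage, mem_iUnion, mem_inter_iff, Set.mem_ofPred_eq]
    constructor
    · intro h
      refine ⟨fun i => A (γ i), fun i => rfl, ?_⟩
      rw [val_eq]
      exact h
    · rintro ⟨σ, h1, h2⟩
      rw [val_eq] at h2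
      have : (⋂ i, Cs (A (γ i)) (η (γ i))) = ⋂ i, Cs (σ i) (η (γ i)) := by
        apply iInter_congr
        intro i
        rw [h1 i]
      rw [this]
      exact h2
  rw [e]
  apply MeasurableSet.iUnion
  intro σ
  apply MeasurableSet.inter
  · have : {γ : Fin n → Γ | ∀ i, A (γ i) = σ i} = ⋂ i, (fun γ : Fin n → Γ => γ i) ⁻¹' (A ⁻¹' {σ i}) := by
      ext γ
      simp
    rw [this]
    apply MeasurableSet.iInter
    intro i
    exact (@measurable_pi_apply (Fin n) (fun _ => Γ) (fun _ => ⊤) i) trivial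
  · have : {γ : Fin n → Γ | val Γ σ (pat (zt σ (fun i => η (γ i)))) ∈ V}
        = ⋃ s ∈ {s : Set (Ix σ × Ix σ) | val Γ σ s ∈ V},
          ⋂ p : Ix σ × Ix σ, {γ : Fin n → Γ | p ∈ pat (zt σ (fun i => η (γ i))) ↔ p ∈ s} := by
      ext γ
      simp only [Set.mem_ofPred_eq, mem_iUnion, mem_iInter, exists_prop]
      constructor
      · intro h
        exact ⟨_, h, fun p => Iff.rfl⟩
      · rintro ⟨s, h1, h2⟩
        rwa [show pat (zt σ (fun i => η (γ i))) = s from Set.ext h2]
    rw [this]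
    apply MeasurableSet.biUnion (Set.toFinite _).countable
    intro s _
    apply MeasurableSet.iInter
    intro p
    have hp : MeasurableSet {γ : Fin n → Γ | p ∈ pat (zt σ (fun i => η (γ i)))} :=
      meas_eqset r hr p.1.1 p.2.1 (fun g => η g p.1.2) (fun g => η g p.2.2)
    by_cases hps : p ∈ s
    · have : {γ : Fin n → Γ | p ∈ pat (zt σ (fun i => η (γ i))) ↔ p ∈ s}
          = {γ : Fin n → Γ | p ∈ pat (zt σ (fun i => η (γ i)))} := by
        ext γ
        simp [hps]
      rw [this]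
      exact hp
    · have : {γ : Fin n → Γ | p ∈ pat (zt σ (fun i => η (γ i))) ↔ p ∈ s}
          = {γ : Fin n → Γ | p ∈ pat (zt σ (fun i => η (γ i)))}ᶜ := by
        ext γ
        simp [hps]
      rw [this]
      exact hp.compl

end pattern

/-- the approximation of intersections -/
lemma real_approx {Γ : Type} {n : ℕ} {B C : Fin n → Set (Γ → ℝ)} (hB : ∀ i, MeasurableSet (B i))
    (hC : ∀ i, MeasurableSet (C i)) {ε : ℝ} (hε : 0 ≤ ε)
    (h : ∀ i, (P Γ) (symmDiff (B i) (C i)) ≤ ENNReal.ofReal ε) :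
    |(P Γ).real (⋂ i, B i) - (P Γ).real (⋂ i, C i)| ≤ n * ε := by
  refine (abs_measureReal_sub_le_measureReal_symmDiff
    (MeasurableSet.iInter hB).nullMeasurableSet (MeasurableSet.iInter hC).nullMeasurableSet).trans ?_
  have hsub : symmDiff (⋂ i, B i) (⋂ i, C i) ⊆ ⋃ i, symmDiff (B i) (C i) := by
    intro U hU
    rw [mem_iUnion]
    rcases hU with ⟨h1, h2⟩ | ⟨h1, h2⟩
    · rw [mem_iInter] at h1 h2
      push Not at h2
      obtain ⟨i, hi⟩ := h2
      exact ⟨i, Or.inl ⟨h1 i, hi⟩⟩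
    · rw [mem_iInter] at h1 h2
      push Not at h2
      obtain ⟨i, hi⟩ := h2
      exact ⟨i, Or.inr ⟨h1 i, hi⟩⟩
  have h1 : (P Γ) (symmDiff (⋂ i, B i) (⋂ i, C i)) ≤ ENNReal.ofReal (n * ε) := by
    calc (P Γ) (symmDiff (⋂ i, B i) (⋂ i, C i)) ≤ (P Γ) (⋃ i, symmDiff (B i) (C i)) :=
          measure_mono hsub
      _ ≤ ∑ i, (P Γ) (symmDiff (B i) (C i)) := measure_iUnion_fintype_le _ _
      _ ≤ ∑ _i : Fin n, ENNReal.ofReal ε := Finset.sum_le_sum fun i _ => h i
      _ = ENNReal.ofReal (n * ε) := by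
          rw [Finset.sum_const, Finset.card_univ, Fintype.card_fin, nsmul_eq_mul,
            ENNReal.ofReal_mul (by positivity), ENNReal.ofReal_natCast]
  exact ENNReal.toReal_le_of_le_ofReal (by positivity) h1

end RepA

open RepA Coup in
theorem rep {Γ : Type} (r : Γ → ℕ → Bool) (hr : Function.Injective r) (μ : Measure (Γ → Bool))
    [IsProbabilityMeasure μ] (n : ℕ) :
    @Measurable (Fin n → Γ) ENNReal (@MeasurableSpace.pi (Fin n) (fun _ => Γ) (fun _ => ⊤)) _
      (fun γ => μ {t | ∀ i, t (γ i) = true}) := by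
  classical
  obtain ⟨Ψ, hΨ, hμ⟩ := coupling μ
  rcases isEmpty_or_nonempty Γ with hΓ | hΓ
  · have : Subsingleton (Fin n → Γ) := by
      constructor
      intro f g
      funext i
      exact (hΓ.false (f i)).elim
    let _ := dis Γ n
    exact Subsingleton.measurable
  set B : Γ → Set (Γ → ℝ) := fun g => {U | Ψ U g = true} with hBdef
  have hB : ∀ g, MeasurableSet (B g) := by
    intro g
    exact ((measurable_pi_apply g).comp hΨ) (measurableSet_singleton true)
  have hF : ∀ γ : Fin n → Γ, μ {t | ∀ i, t (γ i) = true} = (P Γ) (⋂ i, B (γ i)) := by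
    intro γ
    have hm : MeasurableSet {t : Γ → Bool | ∀ i, t (γ i) = true} := by
      have : {t : Γ → Bool | ∀ i, t (γ i) = true} = ⋂ i, (fun t : Γ → Bool => t (γ i)) ⁻¹' {true} := by
        ext t
        simp
      rw [this]
      exact MeasurableSet.iInter fun i => measurable_pi_apply _ (measurableSet_singleton _)
    have h1 : μ {t | ∀ i, t (γ i) = true}
        = ((Measure.infinitePi (fun _ : Γ => (volume.restrict (Icc (0:ℝ) 1)))).map Ψ)
          {t | ∀ i, t (γ i) = true} := by rw [hμ]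
    rw [h1, Measure.map_apply hΨ hm]
    have : Ψ ⁻¹' {t | ∀ i, t (γ i) = true} = ⋂ i, B (γ i) := by
      ext U
      simp [hBdef]
    rw [this]
    rfl
  have happ : ∀ (m : ℕ) (g : Γ), ∃ p : Sh × (ℕ → Γ),
      (P Γ) (symmDiff (B g) (Cs p.1 p.2)) < ENNReal.ofReal (1 / ((m : ℝ) + 1)) :=
    fun m g => approx (hB g) m
  choose A hA using happ
  let _ := dis Γ n
  have hreal : Measurable (fun γ : Fin n → Γ => (P Γ).real (⋂ i, B (γ i))) := by
    refine measurable_of_tendsto_metrizable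
      (f := fun (m : ℕ) (γ : Fin n → Γ) =>
        (P Γ).real (⋂ i, Cs (A m (γ i)).1 (A m (γ i)).2)) ?_ ?_
    · intro m
      exact (meas_approx r hr (fun g => (A m g).1) (fun g => (A m g).2)).ennreal_toReal
    · rw [tendsto_pi_nhds]
      intro γ
      rw [tendsto_iff_dist_tendsto_zero]
      have hlim : Tendsto (fun m : ℕ => (n : ℝ) * (1 / ((m : ℝ) + 1))) atTop (𝓝 0) := by
        have := (tendsto_one_div_add_atTop_nhds_zero_nat (𝕜 := ℝ)).const_mul (n : ℝ)
        simpa using this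
      refine squeeze_zero (fun m => dist_nonneg) (fun m => ?_) hlim
      rw [dist_comm, Real.dist_eq]
      exact real_approx (fun i => hB (γ i)) (fun i => meas_Cs _ _) (by positivity)
        (fun i => (hA m (γ i)).le)
  have hfin : (fun γ : Fin n → Γ => μ {t | ∀ i, t (γ i) = true})
      = fun γ : Fin n → Γ => ENNReal.ofReal ((P Γ).real (⋂ i, B (γ i))) := by
    funext γ
    rw [hF γ, ofReal_measureReal]
  rw [hfin]
  exact hreal.ennreal_ofReal

open RepA in
theorem rep' {Γ : Type} (r : Γ → ℕ → Bool) (hr : Function.Injective r) (μ : Measure (Γ → Bool))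
    [IsFiniteMeasure μ] (n : ℕ) (x : Fin n → Bool) :
    @Measurable (Fin n → Γ) ENNReal (@MeasurableSpace.pi (Fin n) (fun _ => Γ) (fun _ => ⊤)) _
      (fun γ => μ {t | ∀ i, t (γ i) = x i}) := by
  classical
  by_cases h0 : μ = 0
  · subst h0
    simp only [Measure.coe_zero, Pi.zero_apply]
    exact @measurable_const _ _ _ (dis Γ n) _
  have hne : NeZero μ := ⟨h0⟩
  set c : ENNReal := μ univ with hc
  have hc0 : c ≠ 0 := by
    rw [hc, Measure.measure_univ_ne_zero]
    exact h0
  have hct : c ≠ ⊤ := measure_ne_top _ _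
  set μ1 : Measure (Γ → Bool) := c⁻¹ • μ with hμ1
  have hp1 : IsProbabilityMeasure μ1 := by
    constructor
    rw [hμ1, Measure.smul_apply, smul_eq_mul, ← hc, ENNReal.inv_mul_cancel hc0 hct]
  set θ : (Γ → Bool) → (Γ × Bool → Bool) := fun t g => (t g.1 == g.2) with hθ
  have hθm : Measurable θ := by
    apply measurable_pi_lambda
    intro g
    have h2 : Measurable (fun b : Bool => (b == g.2)) := measurable_of_finite _
    exact h2.comp (measurable_pi_apply g.1)
  have hp2 : IsProbabilityMeasure (μ1.map θ) := Measure.isProbabilityMeasure_map hθm.aemeasurable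
  set r1 : Γ × Bool → ℕ → Bool := fun g l => Nat.casesOn l g.2 (fun l' => r g.1 l') with hr1
  have hr1i : Function.Injective r1 := by
    rintro ⟨g, b⟩ ⟨g', b'⟩ h
    have e1 : b = b' := congrFun h 0
    have e2 : r g = r g' := funext fun l => congrFun h (l + 1)
    rw [e1, hr e2]
  have hrep := rep r1 hr1i (μ1.map θ) n
  have hmap : @Measurable _ _ (dis Γ n) (dis (Γ × Bool) n)
      (fun (γ : Fin n → Γ) (i : Fin n) => (γ i, x i)) := by
    refine @measurable_pi_lambda (Fin n → Γ) (Fin n) (fun _ => Γ × Bool) (dis Γ n)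
      (fun _ => ⊤) _ ?_
    intro i
    have h1 : @Measurable _ _ (dis Γ n) (⊤ : MeasurableSpace Γ) (fun γ : Fin n → Γ => γ i) :=
      @measurable_pi_apply (Fin n) (fun _ => Γ) (fun _ => ⊤) i
    have h2 : @Measurable _ _ (⊤ : MeasurableSpace Γ) (⊤ : MeasurableSpace (Γ × Bool))
        (fun g => (g, x i)) := fun _ _ => trivial
    exact h2.comp h1
  have hcomp := hrep.comp hmap
  have hfin : (fun γ : Fin n → Γ => μ {t | ∀ i, t (γ i) = x i})
      = fun γ => c * ((fun γ' : Fin n → Γ × Bool => (μ1.map θ) {t | ∀ i, t (γ' i) = true}) ∘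
        (fun (γ : Fin n → Γ) (i : Fin n) => (γ i, x i))) γ := by
    funext γ
    have hm : MeasurableSet {t : Γ × Bool → Bool | ∀ i, t (γ i, x i) = true} := by
      have : {t : Γ × Bool → Bool | ∀ i, t (γ i, x i) = true}
          = ⋂ i, (fun t : Γ × Bool → Bool => t (γ i, x i)) ⁻¹' {true} := by
        ext t
        simp
      rw [this]
      exact MeasurableSet.iInter fun i => measurable_pi_apply _ (measurableSet_singleton _)
    simp only [Function.comp_apply]
    rw [Measure.map_apply hθm hm, hμ1, Measure.smul_apply, smul_eq_mul, ← mul_assoc,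
      ENNReal.mul_inv_cancel hc0 hct, one_mul]
    congr 1
    ext t
    simp [hθ]
  rw [hfin]
  let _ := dis Γ n
  exact Measurable.const_mul hcomp c

end Pool.Agent.GB
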