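import Mathlib

set_option autoImplicit false

/-!
# Measurable selection from finite sets
-/

namespace Pool.Agent.GB

open Set Filter Topology MeasureTheory

namespace SelAux

variable {Ω : Type*} [mΩ : MeasurableSpace Ω] {Γ : Type}

/-- the projection of `Θ` along the boxes `X` inside the finite sets -/
def prj {n : ℕ} (H : Fin n → Ω → Set Γ) (X : Fin n → Set Γ) (Θ : Set (Ω × (Fin n → Γ))) :
    Set Ω :=
  {ω | ∃ γ : Fin n → Γ, (∀ i, γ i ∈ H i ω ∩ X i) ∧ (ω, γ) ∈ Θ}

/-- the part of `X` with prescribed first `m` bits -/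
def cut (r : Γ → ℕ → Bool) {n m : ℕ} (X : Fin n → Set Γ) (τ : Fin n → Fin m → Bool) :
    Fin n → Set Γ :=
  fun i => X i ∩ {x | ∀ l : Fin m, r x l = τ i l}

/-- exactly one element -/
def one (H : Ω → Set Γ) (r : Γ → ℕ → Bool) (Y : Set Γ) : Set Ω :=
  {ω | (H ω ∩ Y).Nonempty} ∩ ⋂ l : ℕ, ({ω | (H ω ∩ (Y ∩ {x | r x l = true})).Nonempty} ∩
    {ω | (H ω ∩ (Y ∩ {x | r x l = false})).Nonempty})ᶜ

lemma one_meas {H : Ω → Set Γ} (hmeas : ∀ X : Set Γ, MeasurableSet {ω | (H ω ∩ X).Nonempty})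
    (r : Γ → ℕ → Bool) (Y : Set Γ) : MeasurableSet (one H r Y) := by
  unfold one
  exact (hmeas _).inter (MeasurableSet.iInter fun l => ((hmeas _).inter (hmeas _)).compl)

omit mΩ in
lemma mem_one {H : Ω → Set Γ} {r : Γ → ℕ → Bool} (hr : Function.Injective r) {Y : Set Γ} {ω : Ω} :
    ω ∈ one H r Y ↔ ∃ x, H ω ∩ Y = {x} := by
  unfold one
  simp only [mem_inter_iff, mem_iInter, mem_compl_iff, Set.mem_ofPred_eq, not_and]
  constructor
  · rintro ⟨⟨x, hx⟩, h⟩
    refine ⟨x, ?_⟩
    ext y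
    rw [mem_singleton_iff]
    constructor
    · intro hy
      by_contra hne
      have hrne : r y ≠ r x := fun h => hne (hr h)
      obtain ⟨l, hl⟩ := Function.ne_iff.mp hrne
      cases hb : r x l with
      | true =>
        have hb' : r y l = false := by
          rw [hb] at hl
          simpa using hl
        exact h l ⟨x, hx.1, hx.2, hb⟩ ⟨y, hy.1, hy.2, hb'⟩
      | false =>
        have hb' : r y l = true := by
          rw [hb] at hl
          simpa using hl
        exact h l ⟨y, hy.1, hy.2, hb'⟩ ⟨x, hx.1, hx.2, hb⟩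
    · rintro rfl
      exact hx
  · rintro ⟨x, hx⟩
    refine ⟨⟨x, by rw [hx]; rfl⟩, ?_⟩
    rintro l ⟨y, hy1, hy2, hy3⟩ ⟨z, hz1, hz2, hz3⟩
    have e1 : y ∈ H ω ∩ Y := ⟨hy1, hy2⟩
    have e2 : z ∈ H ω ∩ Y := ⟨hz1, hz2⟩
    rw [hx, mem_singleton_iff] at e1 e2
    have hy3' : r y l = true := hy3
    have hz3' : r z l = false := hz3
    rw [e1] at hy3'
    rw [e2, hy3'] at hz3'
    exact absurd hz3' (by simp)

omit mΩ in
/-- the complement formula -/
lemma prj_compl {r : Γ → ℕ → Bool} (hr : Function.Injective r) {n : ℕ}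
    {H : Fin n → Ω → Set Γ} (hfin : ∀ i ω, (H i ω).Finite) (X : Fin n → Set Γ)
    (Θ : Set (Ω × (Fin n → Γ))) :
    prj H X Θᶜ = ⋃ m : ℕ, ⋃ τ : Fin n → Fin m → Bool,
      ((⋂ i, one (H i) r (cut r X τ i)) ∩ (prj H (cut r X τ) Θ)ᶜ) := by
  ext ω
  simp only [mem_iUnion, mem_inter_iff, mem_iInter, mem_compl_iff]
  constructor
  · rintro ⟨γ, hγ, hΘ⟩
    -- separate the elements of the finite sets
    have hsep : ∀ i, ∃ m : ℕ, ∀ y ∈ H i ω, (∀ l < m, r y l = r (γ i) l) → y = γ i := by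
      intro i
      have : ∀ y ∈ H i ω, ∃ m : ℕ, (∀ l < m, r y l = r (γ i) l) → y = γ i := by
        intro y _
        by_cases hy : y = γ i
        · exact ⟨0, fun _ => hy⟩
        · have hrne : r y ≠ r (γ i) := fun h => hy (hr h)
          obtain ⟨l, hl⟩ := Function.ne_iff.mp hrne
          exact ⟨l + 1, fun h => absurd (h l (Nat.lt_succ_self l)) hl⟩
      choose! f hf using this
      refine ⟨((hfin i ω).toFinset.sup f), fun y hy h => hf y hy fun l hl => h l ?_⟩
      exact hl.trans_le (Finset.le_sup (f := f) ((hfin i ω).mem_toFinset.mpr hy))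
    choose M hM using hsep
    refine ⟨Finset.univ.sup M, fun i l => r (γ i) l, ?_, ?_⟩
    · intro i
      rw [mem_one hr]
      refine ⟨γ i, ?_⟩
      ext y
      rw [mem_singleton_iff]
      constructor
      · rintro ⟨hy1, -, hy2⟩
        apply hM i y hy1
        intro l hl
        exact hy2 ⟨l, hl.trans_le (Finset.le_sup (f := M) (Finset.mem_univ i))⟩
      · rintro rfl
        exact ⟨(hγ i).1, (hγ i).2, fun l => rfl⟩
    · rintro ⟨γ', hγ', hΘ'⟩
      apply hΘ
      have : γ' = γ := by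
        funext i
        apply hM i _ (hγ' i).1
        intro l hl
        exact (hγ' i).2.2 ⟨l, hl.trans_le (Finset.le_sup (f := M) (Finset.mem_univ i))⟩
      rw [← this]
      exact hΘ'
  · rintro ⟨m, τ, h1, h2⟩
    have h3 : ∀ i, ∃ x, H i ω ∩ cut r X τ i = {x} := fun i => (mem_one hr).mp (h1 i)
    choose γ hγ using h3
    have h4 : ∀ i, γ i ∈ H i ω ∩ cut r X τ i := by
      intro i
      rw [hγ i]
      rfl
    refine ⟨γ, fun i => ⟨(h4 i).1, (h4 i).2.1⟩, ?_⟩
    intro h5
    exact h2 ⟨γ, h4, h5⟩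

/-- the `σ`-algebra of good sets -/
@[reducible] def good (r : Γ → ℕ → Bool) (hr : Function.Injective r) (n : ℕ)
    (H : Fin n → Ω → Set Γ) (hfin : ∀ i ω, (H i ω).Finite)
    (hmeas : ∀ i (X : Set Γ), MeasurableSet {ω | (H i ω ∩ X).Nonempty}) :
    MeasurableSpace (Ω × (Fin n → Γ)) where
  MeasurableSet' Θ := ∀ X : Fin n → Set Γ, MeasurableSet (prj H X Θ)
  measurableSet_empty := by
    intro X
    have : prj H X ∅ = ∅ := by
      ext ω
      simp [prj]
    rw [this]
    exact MeasurableSet.empty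
  measurableSet_compl := by
    intro Θ hΘ X
    rw [prj_compl hr hfin X Θ]
    exact MeasurableSet.iUnion fun m => MeasurableSet.iUnion fun τ =>
      (MeasurableSet.iInter fun i => one_meas (hmeas i) r _).inter (hΘ _).compl
  measurableSet_iUnion := by
    intro f hf X
    have : prj H X (⋃ i, f i) = ⋃ i, prj H X (f i) := by
      ext ω
      simp only [prj, mem_iUnion, Set.mem_ofPred_eq]
      constructor
      · rintro ⟨γ, h1, i, h2⟩
        exact ⟨i, γ, h1, h2⟩
      · rintro ⟨i, γ, h1, h2⟩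
        exact ⟨γ, h1, i, h2⟩
    rw [this]
    exact MeasurableSet.iUnion fun i => hf i X

end SelAux

open SelAux in
theorem sel {Ω : Type*} [mΩ : MeasurableSpace Ω] {Γ : Type} (r : Γ → ℕ → Bool) (hr : Function.Injective r)
    (n : ℕ) (H : Fin n → Ω → Set Γ) (hfin : ∀ i ω, (H i ω).Finite)
    (hmeas : ∀ i (X : Set Γ), MeasurableSet {ω | (H i ω ∩ X).Nonempty})
    (Θ : Set (Ω × (Fin n → Γ)))
    (hΘ : MeasurableSet[@Prod.instMeasurableSpace Ω (Fin n → Γ) mΩ
      (@MeasurableSpace.pi (Fin n) (fun _ => Γ) (fun _ => ⊤))] Θ) :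
    MeasurableSet {ω | ∃ γ : Fin n → Γ, (∀ i, γ i ∈ H i ω) ∧ (ω, γ) ∈ Θ} := by
  have hbox : ∀ X : Fin n → Set Γ,
      MeasurableSet {ω | ∃ γ : Fin n → Γ, ∀ i, γ i ∈ H i ω ∩ X i} := by
    intro X
    have : {ω | ∃ γ : Fin n → Γ, ∀ i, γ i ∈ H i ω ∩ X i} = ⋂ i, {ω | (H i ω ∩ X i).Nonempty} := by
      ext ω
      simp only [Set.mem_ofPred_eq, mem_iInter]
      constructor
      · rintro ⟨γ, h⟩ i
        exact ⟨γ i, h i⟩
      · intro h
        choose γ hγ using h
        exact ⟨γ, hγ⟩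
    rw [this]
    exact MeasurableSet.iInter fun i => hmeas i (X i)
  have hle : @Prod.instMeasurableSpace Ω (Fin n → Γ) mΩ
      (@MeasurableSpace.pi (Fin n) (fun _ => Γ) (fun _ => ⊤)) ≤ good r hr n H hfin hmeas := by
    apply sup_le
    · rintro _ ⟨Y, hY, rfl⟩ X
      have : prj H X (Prod.fst ⁻¹' Y) = Y ∩ {ω | ∃ γ : Fin n → Γ, ∀ i, γ i ∈ H i ω ∩ X i} := by
        ext ω
        simp only [prj, Set.mem_ofPred_eq, mem_inter_iff, mem_preimage]
        constructor
        · rintro ⟨γ, h1, h2⟩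
          exact ⟨h2, γ, h1⟩
        · rintro ⟨h2, γ, h1⟩
          exact ⟨γ, h1, h2⟩
      rw [this]
      exact hY.inter (hbox X)
    · rw [← measurable_iff_comap_le]
      refine @measurable_pi_lambda (Ω × (Fin n → Γ)) (Fin n) (fun _ => Γ)
        (good r hr n H hfin hmeas) (fun _ => ⊤) _ ?_
      intro i S _
      intro X
      classical
      have : prj H X ((fun p : Ω × (Fin n → Γ) => p.2 i) ⁻¹' S)
          = {ω | ∃ γ : Fin n → Γ, ∀ j, γ j ∈ H j ω ∩ (Function.update X i (X i ∩ S)) j} := by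
        ext ω
        simp only [prj, Set.mem_ofPred_eq, mem_preimage]
        constructor
        · rintro ⟨γ, h1, h2⟩
          refine ⟨γ, fun j => ?_⟩
          by_cases hj : j = i
          · subst hj
            rw [Function.update_self]
            exact ⟨(h1 j).1, (h1 j).2, h2⟩
          · rw [Function.update_of_ne hj]
            exact h1 j
        · rintro ⟨γ, h1⟩
          have h2 := h1 i
          rw [Function.update_self] at h2
          refine ⟨γ, fun j => ?_, h2.2.2⟩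
          by_cases hj : j = i
          · subst hj
            exact ⟨h2.1, h2.2.1⟩
          · have h3 := h1 j
            rwa [Function.update_of_ne hj] at h3
      rw [this]
      exact hbox _
  have h1 : MeasurableSet[good r hr n H hfin hmeas] Θ := hle _ hΘ
  have h2 := h1 (fun _ => univ)
  convert h2 using 1
  ext ω
  simp only [prj, Set.mem_ofPred_eq, inter_univ]

end Pool.Agent.GB
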