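import Pool.Agent.GB.Defs2

set_option autoImplicit false

/-!
# Module TOP: topology of the compact space `K`
-/

namespace Pool.Agent.GB

open Set Filter Topology MeasureTheory T

theorem continuous_coord (x : T) : Continuous (fun t : T → Bool => t x) := continuous_apply x

theorem isClopen_coord (x : T) (c : Bool) : IsClopen {t : T → Bool | t x = c} :=
  (isClopen_discrete ({c} : Set Bool)).preimage (continuous_apply x)

theorem continuous_cnt (a : ℕ → T) (n : ℕ) : Continuous (fun t : T → Bool => cnt t a n) := by
  have h : (fun t : T → Bool => cnt t a n) =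
      fun t => ∑ v ∈ Finset.range ((n + 1) ^ 2), (if t (w a n v) = true then 1 else 0) := by
    funext t
    unfold cnt
    rw [Finset.card_filter]
  rw [h]
  refine continuous_finsetSum _ (fun v _ => ?_)
  have h2 : (fun t : T → Bool => (if t (w a n v) = true then 1 else 0 : ℕ)) =
    (fun c : Bool => (if c = true then 1 else 0 : ℕ)) ∘ (fun t : T → Bool => t (w a n v)) := rfl
  rw [h2]
  exact continuous_of_discreteTopology.comp (continuous_apply _)

theorem continuous_zv (a : ℕ → T) (n v : ℕ) : Continuous (fun t : T → Bool => zv t a n v) := by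
  have h2 : (fun t : T → Bool => zv t a n v) =
    (fun c : Bool × ℕ => (c.1 && decide (c.2 ≤ n))) ∘
      (fun t : T → Bool => (t (w a n v), cnt t a n)) := rfl
  rw [h2]
  exact continuous_of_discreteTopology.comp ((continuous_apply _).prodMk (continuous_cnt a n))

theorem isClosed_InK : IsClosed {t : T → Bool | InK t} := by
  have h : {t : T → Bool | InK t} = {t | t bot = false} ∩
      ((⋂ x, ⋂ y, {t | t (imp x y) = (!t x || t y)}) ∩
        ⋂ a, ⋂ e, ⋂ g, ⋂ n, {t : T → Bool | t (a n) = true → (∀ m < n, t (a m) = false) →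
          zv t a n (g n) = false → t (b a e g) = t (e n)}) := by
    ext t
    simp only [mem_ofPred_eq, mem_inter_iff, mem_iInter]
    constructor
    · intro h
      exact ⟨h.bot, h.imp, h.b⟩
    · rintro ⟨h1, h2, h3⟩
      exact ⟨h1, h2, h3⟩
  rw [h]
  refine (isClopen_coord _ _).1.inter (IsClosed.inter ?_ ?_)
  · refine isClosed_iInter (fun x => isClosed_iInter (fun y => ?_))
    refine isClosed_eq (continuous_apply _) ?_
    have h2 : (fun t : T → Bool => (!t x || t y)) =
      (fun c : Bool × Bool => (!c.1 || c.2)) ∘ (fun t : T → Bool => (t x, t y)) := rfl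
    rw [h2]
    exact continuous_of_discreteTopology.comp ((continuous_apply _).prodMk (continuous_apply _))
  · refine isClosed_iInter (fun a => isClosed_iInter (fun e => isClosed_iInter (fun g =>
      isClosed_iInter (fun n => ?_))))
    have h2 : {t : T → Bool | t (a n) = true → (∀ m < n, t (a m) = false) →
          zv t a n (g n) = false → t (b a e g) = t (e n)} =
        {t | t (a n) = true}ᶜ ∪ ((⋂ m ∈ Finset.range n, {t | t (a m) = false})ᶜ ∪
          ({t | zv t a n (g n) = false}ᶜ ∪ {t | t (b a e g) = t (e n)})) := by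
      ext t
      simp only [mem_ofPred_eq, mem_union, mem_compl_iff, mem_iInter, Finset.mem_range]
      tauto
    rw [h2]
    refine IsClosed.union (isClopen_coord _ _).compl.1 (IsClosed.union ?_ (IsClosed.union ?_ ?_))
    · refine IsClopen.isClosed (IsClopen.compl ?_)
      exact isClopen_biInter_finset (fun m _ => isClopen_coord _ _)
    · refine IsClopen.isClosed (IsClopen.compl ?_)
      exact (isClopen_discrete ({false} : Set Bool)).preimage (continuous_zv a n (g n))
    · exact isClosed_eq (continuous_apply _) (continuous_apply _)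

instance instCompactK : CompactSpace K :=
  isCompact_iff_compactSpace.1 isClosed_InK.isCompact

instance instT2K : T2Space K :=
  inferInstanceAs (T2Space {t : T → Bool // InK t})

instance instTDK : TotallyDisconnectedSpace K :=
  inferInstanceAs (TotallyDisconnectedSpace {t : T → Bool // InK t})

theorem continuous_val_K : Continuous (fun t : K => (t.1 : T → Bool)) :=
  continuous_subtype_val

theorem isClopen_term (x : T) : IsClopen {t : K | t.1 x = true} :=
  (isClopen_coord x true).preimage continuous_val_K

open Classical in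
instance instInfK : Infinite K := by
  refine Infinite.of_injective
    (fun n : ℕ => pt (fun x => decide (x = w (fun _ => bot) 0 n))) ?_
  intro n m h
  have h1 : (pt (fun x => decide (x = w (fun _ => bot) 0 n))).1 (w (fun _ => bot) 0 n) =
      (pt (fun x => decide (x = w (fun _ => bot) 0 m))).1 (w (fun _ => bot) 0 n) := by
    rw [show pt (fun x => decide (x = w (fun _ => bot) 0 n)) =
      pt (fun x => decide (x = w (fun _ => bot) 0 m)) from h]
  have h2 : decide (w (fun _ => bot) 0 n = w (fun _ => bot) 0 n) =
    decide (w (fun _ => bot) 0 n = w (fun _ => bot) 0 m) := h1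
  rw [decide_eq_true rfl] at h2
  have h3 := of_decide_eq_true h2.symm
  injection h3

/-- local form of continuity -/
theorem exists_finset_nhds (t : K) (O : Set K) (hO : IsOpen O) (ht : t ∈ O) :
    ∃ X : Finset T, ∀ t' : K, (∀ x ∈ X, t'.1 x = t.1 x) → t' ∈ O := by
  obtain ⟨V, hV, hVO'⟩ := isOpen_induced_iff.1 hO
  have hVO : ∀ t' : K, t'.1 ∈ V ↔ t' ∈ O := by
    intro t'
    rw [← hVO']
    rfl
  have htV : t.1 ∈ V := (hVO t).2 ht
  obtain ⟨I, u, hu, hIu⟩ := isOpen_pi_iff.1 hV t.1 htV
  refine ⟨I, fun t' h => ?_⟩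
  rw [← hVO]
  refine hIu ?_
  intro x hx
  have := (hu x hx).2
  rw [← h x hx] at this
  exact this

theorem exists_term_compl {U : Set K} (h : ∃ x : T, U = {t : K | t.1 x = true}) :
    ∃ x : T, Uᶜ = {t : K | t.1 x = true} := by
  obtain ⟨x, rfl⟩ := h
  refine ⟨imp x bot, ?_⟩
  ext t
  simp only [mem_compl_iff, mem_ofPred_eq]
  rw [t.2.imp, t.2.bot]
  cases t.1 x <;> simp

theorem exists_term_union {U V : Set K} (h : ∃ x : T, U = {t : K | t.1 x = true})
    (h' : ∃ x : T, V = {t : K | t.1 x = true}) : ∃ x : T, U ∪ V = {t : K | t.1 x = true} := by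
  obtain ⟨x, rfl⟩ := h
  obtain ⟨y, rfl⟩ := h'
  refine ⟨imp (imp x bot) y, ?_⟩
  ext t
  simp only [mem_union, mem_ofPred_eq]
  rw [t.2.imp, t.2.imp, t.2.bot]
  cases t.1 x <;> simp

theorem exists_term_empty : ∃ x : T, (∅ : Set K) = {t : K | t.1 x = true} := by
  refine ⟨bot, ?_⟩
  ext t
  simp only [mem_empty_iff_false, mem_ofPred_eq, false_iff]
  rw [t.2.bot]
  exact Bool.false_ne_true

theorem exists_term_univ : ∃ x : T, (univ : Set K) = {t : K | t.1 x = true} := by
  have h := exists_term_compl exists_term_empty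
  rwa [compl_empty] at h

theorem exists_term_inter {U V : Set K} (h : ∃ x : T, U = {t : K | t.1 x = true})
    (h' : ∃ x : T, V = {t : K | t.1 x = true}) : ∃ x : T, U ∩ V = {t : K | t.1 x = true} := by
  have h1 := exists_term_compl (exists_term_union (exists_term_compl h) (exists_term_compl h'))
  rwa [compl_union, compl_compl, compl_compl] at h1

theorem exists_term_box (t0 : K) (X : Finset T) :
    ∃ x : T, {t : K | ∀ y ∈ X, t.1 y = t0.1 y} = {t : K | t.1 x = true} := by
  classical
  induction X using Finset.induction_on with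
  | empty =>
    have h : {t : K | ∀ y ∈ (∅ : Finset T), t.1 y = t0.1 y} = univ := by
      ext t
      simp
    rw [h]
    exact exists_term_univ
  | insert y X _ ih =>
    have h : {t : K | ∀ z ∈ insert y X, t.1 z = t0.1 z} =
        {t : K | t.1 y = t0.1 y} ∩ {t : K | ∀ z ∈ X, t.1 z = t0.1 z} := by
      ext t
      simp
    rw [h]
    refine exists_term_inter ?_ ih
    cases hy : t0.1 y with
    | true => exact ⟨y, rfl⟩
    | false =>
      have h2 : {t : K | t.1 y = false} = {t : K | t.1 y = true}ᶜ := by
        ext t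
        simp
      rw [h2]
      exact exists_term_compl ⟨y, rfl⟩

theorem exists_term_of_clopen (U : Set K) (hU : IsClopen U) :
    ∃ x : T, U = {t : K | t.1 x = true} := by
  classical
  have h1 : ∀ t : K, ∃ X : Finset T, t ∈ U → {t' : K | ∀ y ∈ X, t'.1 y = t.1 y} ⊆ U := by
    intro t
    by_cases ht : t ∈ U
    · obtain ⟨X, hX⟩ := exists_finset_nhds t U hU.2 ht
      exact ⟨X, fun _ t' ht' => hX t' ht'⟩
    · exact ⟨∅, fun h => absurd h ht⟩
  choose X hX using h1
  have h2 : ∀ t ∈ U, {t' : K | ∀ y ∈ X t, t'.1 y = t.1 y} ∈ 𝓝 t := by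
    intro t _
    obtain ⟨x, hx⟩ := exists_term_box t (X t)
    rw [hx]
    refine (isClopen_term x).2.mem_nhds ?_
    rw [← hx]
    intro y _
    rfl
  obtain ⟨S, hS1, hS2⟩ := hU.1.isCompact.elim_nhds_subcover
    (fun t => {t' : K | ∀ y ∈ X t, t'.1 y = t.1 y}) h2
  have h3 : U = ⋃ t ∈ S, {t' : K | ∀ y ∈ X t, t'.1 y = t.1 y} := by
    apply Subset.antisymm hS2
    intro t' ht'
    obtain ⟨t, ht, ht2⟩ := mem_iUnion₂.1 ht'
    exact hX t (hS1 t ht) ht2
  rw [h3]
  clear h3 hS1 hS2
  induction S using Finset.induction_on with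
  | empty =>
    simpa using exists_term_empty
  | insert t S _ ih =>
    rw [Finset.set_biUnion_insert]
    exact exists_term_union (exists_term_box t (X t)) ih

end Pool.Agent.GB
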