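import Pool.Agent.GB.D4
import Pool.Agent.GB.C
import Pool.Agent.GB.Top
import Pool.Agent.GB.Sel
import Pool.Agent.GB.Rep
import Pool.Agent.GB.Jordan

set_option autoImplicit false

/-!
# Every functional is measurable with respect to the evaluations
-/

namespace Pool.Agent.GB

open Set Filter Topology MeasureTheory T

namespace FIN

theorem continuous_term (x : T) : Continuous (fun t : K => t.1 x) :=
  (continuous_apply x).comp continuous_subtype_val

/-- step functions -/
noncomputable def stp {n : ℕ} (Φ : (Fin n → Bool) → ℚ) (γ : Fin n → T) : C(K, ℝ) where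
  toFun t := (Φ (fun i => t.1 (γ i)) : ℝ)
  continuous_toFun := by
    have h1 : Continuous (fun t : K => (fun i : Fin n => t.1 (γ i))) :=
      continuous_pi (fun i => continuous_term (γ i))
    have h2 : Continuous (fun x : Fin n → Bool => ((Φ x : ℚ) : ℝ)) :=
      continuous_of_discreteTopology
    exact h2.comp h1

theorem stp_apply {n : ℕ} (Φ : (Fin n → Bool) → ℚ) (γ : Fin n → T) (t : K) :
    stp Φ γ t = (Φ (fun i => t.1 (γ i)) : ℝ) := rfl

theorem exists_finset (f : C(K, ℝ)) {ε : ℝ} (hε : 0 < ε) :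
    ∃ S : Finset T, (∀ x ∈ S, x ∈ Gs f) ∧
      ∀ t t' : K, (∀ x ∈ S, t.1 x = t'.1 x) → |f t - f t'| < ε := by
  classical
  by_contra hcon
  push Not at hcon
  have h1 : (⋂ S : {S : Finset T // ∀ x ∈ S, x ∈ Gs f},
      {z : K × K | (∀ x ∈ S.1, z.1.1 x = z.2.1 x) ∧ ε ≤ |f z.1 - f z.2|}).Nonempty := by
    have : Nonempty {S : Finset T // ∀ x ∈ S, x ∈ Gs f} :=
      ⟨⟨∅, fun x hx => absurd hx (Finset.notMem_empty x)⟩⟩
    have hcl : ∀ S : {S : Finset T // ∀ x ∈ S, x ∈ Gs f},
        IsClosed {z : K × K | (∀ x ∈ S.1, z.1.1 x = z.2.1 x) ∧ ε ≤ |f z.1 - f z.2|} := by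
      intro S
      apply IsClosed.inter
      · have : {z : K × K | ∀ x ∈ S.1, z.1.1 x = z.2.1 x} =
            ⋂ x ∈ S.1, {z : K × K | z.1.1 x = z.2.1 x} := by
          ext z
          simp
        change IsClosed {z : K × K | ∀ x ∈ S.1, z.1.1 x = z.2.1 x}
        rw [this]
        refine isClosed_biInter fun x _ => ?_
        exact isClosed_eq ((continuous_term x).comp continuous_fst)
          ((continuous_term x).comp continuous_snd)
      · exact isClosed_le continuous_const
          ((((map_continuous f).comp continuous_fst).sub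
            ((map_continuous f).comp continuous_snd)).abs)
    apply IsCompact.nonempty_iInter_of_directed_nonempty_isCompact_isClosed
    · intro S S'
      refine ⟨⟨S.1 ∪ S'.1, fun x hx => ?_⟩, ?_, ?_⟩
      · rcases Finset.mem_union.1 hx with h | h
        · exact S.2 x h
        · exact S'.2 x h
      · rintro z ⟨hz1, hz2⟩
        exact ⟨fun x hx => hz1 x (Finset.mem_union_left _ hx), hz2⟩
      · rintro z ⟨hz1, hz2⟩
        exact ⟨fun x hx => hz1 x (Finset.mem_union_right _ hx), hz2⟩
    · intro S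
      obtain ⟨t, t', h2, h3⟩ := hcon S.1 S.2
      exact ⟨(t, t'), h2, h3⟩
    · exact fun S => (hcl S).isCompact
    · exact hcl
  obtain ⟨⟨t, t'⟩, hz⟩ := h1
  rw [mem_iInter] at hz
  have h2 : f t = f t' := by
    apply eq_of_eqOn_Gs
    intro x hx
    have := (hz ⟨{x}, fun y hy => by rw [Finset.mem_singleton.1 hy]; exact hx⟩).1 x
      (Finset.mem_singleton_self x)
    exact this
  have h3 := (hz ⟨∅, fun x hx => absurd hx (Finset.notMem_empty x)⟩).2
  simp only [h2, sub_self, abs_zero] at h3
  linarith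

theorem exists_stp (f : C(K, ℝ)) {ε : ℝ} (hε : 0 < ε) :
    ∃ (n : ℕ) (γ : Fin n → T) (Φ : (Fin n → Bool) → ℚ), (∀ i, γ i ∈ Gs f) ∧
      ‖f - stp Φ γ‖ ≤ ε := by
  classical
  obtain ⟨S, hS, h1⟩ := exists_finset f (ε := ε / 2) (by linarith)
  set γ : Fin S.card → T := fun i => (S.equivFin.symm i).1 with hγ
  have hγS : ∀ x ∈ S, ∃ i, γ i = x := by
    intro x hx
    refine ⟨S.equivFin ⟨x, hx⟩, ?_⟩
    rw [hγ]
    simp
  have h2 : ∀ x : Fin S.card → Bool, ∃ q : ℚ, ∀ t : K, (∀ i, t.1 (γ i) = x i) → |f t - q| < ε := by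
    intro x
    by_cases hx : ∃ t : K, ∀ i, t.1 (γ i) = x i
    · obtain ⟨t, ht⟩ := hx
      obtain ⟨q, hq1, hq2⟩ := exists_rat_btwn (show f t - ε / 2 < f t + ε / 2 by linarith)
      refine ⟨q, fun t' ht' => ?_⟩
      have h3 : |f t' - f t| < ε / 2 := by
        apply h1
        intro y hy
        obtain ⟨i, rfl⟩ := hγS y hy
        rw [ht, ht']
      rw [abs_lt] at h3 ⊢
      constructor <;> linarith [h3.1, h3.2]
    · exact ⟨0, fun t ht => absurd ⟨t, ht⟩ hx⟩
  choose Φ hΦ using h2
  refine ⟨S.card, γ, Φ, fun i => hS _ (S.equivFin.symm i).2, ?_⟩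
  rw [ContinuousMap.norm_le _ hε.le]
  intro t
  rw [ContinuousMap.sub_apply, stp_apply, Real.norm_eq_abs]
  exact (hΦ _ t (fun i => rfl)).le

theorem measurable_eval (t : K) :
    @Measurable _ _ (SigP K) _ (fun f : C(K, ℝ) => f t) := by
  rw [measurable_iff_comap_le]
  exact le_iSup (fun t : K => MeasurableSpace.comap (fun f : C(K, ℝ) => f t) (borel ℝ)) t

theorem measurable_val : Measurable (fun t : K => t.1) :=
  measurable_pi_iff.2 fun x => (continuous_term x).measurable

/-- the integral of a step function depends measurably on the terms -/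
theorem measurable_int_stp {r : T → ℕ → Bool} (hr : Function.Injective r) (μ : Measure K)
    [IsFiniteMeasure μ] {n : ℕ} (Φ : (Fin n → Bool) → ℚ) :
    @Measurable (Fin n → T) ℝ (@MeasurableSpace.pi (Fin n) (fun _ => T) (fun _ => ⊤)) _
      (fun γ => ∫ t, stp Φ γ t ∂μ) := by
  classical
  have h1 : ∀ γ : Fin n → T, ∫ t, stp Φ γ t ∂μ =
      ∑ x : Fin n → Bool, (Φ x : ℝ) * ((μ.map (fun t : K => t.1)) {t | ∀ i, t (γ i) = x i}).toReal := by
    intro γ
    have hm : ∀ x : Fin n → Bool, MeasurableSet {t : T → Bool | ∀ i, t (γ i) = x i} := by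
      intro x
      have : {t : T → Bool | ∀ i, t (γ i) = x i} = ⋂ i, {t : T → Bool | t (γ i) = x i} := by
        ext t
        simp
      rw [this]
      refine MeasurableSet.iInter fun i => ?_
      change MeasurableSet ((fun t : T → Bool => t (γ i)) ⁻¹' {x i})
      exact measurable_pi_apply (γ i) (measurableSet_singleton (x i))
    have h2 : ∀ t : K, stp Φ γ t = ∑ x : Fin n → Bool,
        ({t : K | ∀ i, t.1 (γ i) = x i}.indicator (fun _ => (Φ x : ℝ)) t) := by
      intro t
      rw [Finset.sum_eq_single (fun i => t.1 (γ i))]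
      · rw [indicator_of_mem]
        · rfl
        · exact fun i => rfl
      · intro x _ hx
        rw [indicator_of_notMem]
        intro h
        exact hx (funext fun i => (h i).symm)
      · intro h
        exact absurd (Finset.mem_univ _) h
    simp_rw [h2]
    rw [integral_finsetSum]
    · refine Finset.sum_congr rfl fun x _ => ?_
      have hs : MeasurableSet {t : K | ∀ i, t.1 (γ i) = x i} := measurable_val (hm x)
      rw [integral_indicator_const _ hs, Measure.map_apply measurable_val (hm x),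
        smul_eq_mul, mul_comm]
      rfl
    · intro x _
      exact (integrable_const _).indicator (measurable_val (hm x))
  simp_rw [h1]
  let _ : MeasurableSpace (Fin n → T) := @MeasurableSpace.pi (Fin n) (fun _ => T) (fun _ => ⊤)
  refine Finset.measurable_sum _ fun x _ => ?_
  exact measurable_const.mul (rep' r hr (μ.map (fun t : K => t.1)) n x).ennreal_toReal

theorem int_ge (f u : C(K, ℝ)) (μ : Measure K) [IsFiniteMeasure μ] {ε : ℝ} (h : ‖f - u‖ ≤ ε) :
    |∫ t, f t ∂μ - ∫ t, u t ∂μ| ≤ ε * (μ univ).toReal := by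
  have hf : ∀ g : C(K, ℝ), Integrable (fun t => g t) μ := fun g =>
    (map_continuous g).integrable_of_hasCompactSupport (HasCompactSupport.of_compactSpace _)
  rw [← integral_sub (hf f) (hf u)]
  have h1 : ∀ t, ‖f t - u t‖ ≤ ε := fun t => (ContinuousMap.norm_coe_le_norm (f - u) t).trans h
  have h2 := norm_integral_le_of_norm_le_const (μ := μ) (Filter.Eventually.of_forall h1)
  exact h2

theorem int_measurable (μ : Measure K) [IsFiniteMeasure μ] :
    @Measurable _ _ (SigP K) _ (fun f : C(K, ℝ) => ∫ t, f t ∂μ) := by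
  classical
  obtain ⟨r, hr⟩ := exists_code
  let _ : MeasurableSpace C(K, ℝ) := SigP K
  refine measurable_of_Ioi fun c => ?_
  set G : (n : ℕ) → (Fin n → ℚ) → (Fin n → ℚ) → (Fin n → ℕ) → (Fin n → ℕ) →
      ((Fin n → Bool) → ℚ) → ℚ → C(K, ℝ) → Prop := fun n p q l j0 Φ ε f =>
    (0 ≤ ε ∧ ∀ i, p i < q i) ∧ ∃ γ : Fin n → T, (∀ i, γ i ∈ Hs r (p i) (q i) (l i) (j0 i) f) ∧
      (f, γ) ∈ {z : C(K, ℝ) × (Fin n → T) |
        (∀ j (φ : (Fin j → Bool) → Bool), |z.1 (PP r j φ) - Φ (fun i => (PP r j φ).1 (z.2 i))| ≤ ε) ∧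
        c + ε * (μ univ).toReal < ∫ t, stp Φ z.2 t ∂μ} with hG
  have key : (fun f : C(K, ℝ) => ∫ t, f t ∂μ) ⁻¹' Ioi c =
      {f | ∃ (n : ℕ) (p q : Fin n → ℚ) (l j0 : Fin n → ℕ) (Φ : (Fin n → Bool) → ℚ) (ε : ℚ),
        G n p q l j0 Φ ε f} := by
    ext f
    simp only [mem_preimage, mem_Ioi, mem_ofPred_eq]
    constructor
    · intro hf
      set m := (μ univ).toReal with hm
      have hm0 : 0 ≤ m := ENNReal.toReal_nonneg
      obtain ⟨ε, hε0, hε1⟩ := exists_rat_btwn
        (show (0 : ℝ) < (∫ t, f t ∂μ - c) / (2 * m + 1) by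
          apply div_pos (by linarith) (by linarith))
      have hε0' : (0 : ℝ) < ε := by exact_mod_cast hε0
      obtain ⟨n, γ, Φ, hγ, hn⟩ := exists_stp f hε0'
      choose p q l j0 hpq hH using fun i => Gs_sub_Hs hr f (γ i) (hγ i)
      refine ⟨n, p, q, l, j0, Φ, ε, ⟨by exact_mod_cast hε0'.le, fun i => by exact_mod_cast hpq i⟩,
        γ, hH, ?_, ?_⟩
      · intro j φ
        exact (ContinuousMap.norm_coe_le_norm (f - stp Φ γ) (PP r j φ)).trans hn
      · have h1 := int_ge f (stp Φ γ) μ hn
        rw [abs_le] at h1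
        rw [lt_div_iff₀ (by linarith)] at hε1
        have h2 := h1.2
        change c + ε * m < ∫ t, stp Φ γ t ∂μ
        rw [← hm] at h2
        nlinarith
    · rintro ⟨n, p, q, l, j0, Φ, ε, ⟨hε, hpq⟩, γ, hγ, h1, h2⟩
      have hε' : (0 : ℝ) ≤ ε := by exact_mod_cast hε
      have h3 : ‖f - stp Φ γ‖ ≤ ε := norm_le_of_blocks hr _ hε' (fun j φ => h1 j φ)
      have h4 := int_ge f (stp Φ γ) μ h3
      rw [abs_le] at h4
      have h5 := h4.1
      simp only at h2
      linarith
  rw [key]
  refine measurableSet_setOfPred.2 ?_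
  refine Measurable.exists fun n => Measurable.exists fun p => Measurable.exists fun q =>
    Measurable.exists fun l => Measurable.exists fun j0 => Measurable.exists fun Φ =>
    Measurable.exists fun ε => ?_
  by_cases hcond : 0 ≤ ε ∧ ∀ i, p i < q i
  · refine Measurable.and measurable_const ?_
    refine measurableSet_setOfPred.1 ?_
    refine sel r hr n (fun i f => Hs r (p i) (q i) (l i) (j0 i) f)
      (fun i f => Hs_finite hr f (by exact_mod_cast hcond.2 i) _ _)
      (fun i X => measurable_Hs hr (by exact_mod_cast hcond.2 i) _ _ X) _ ?_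
    let mT : MeasurableSpace T := ⊤
    refine MeasurableSet.inter ?_ ?_
    · refine measurableSet_setOfPred.2 (Measurable.forall fun j => Measurable.forall fun φ => ?_)
      refine measurableSet_setOfPred.1 (measurableSet_le ?_ measurable_const)
      refine (Measurable.sub ?_ ?_).abs
      · exact (measurable_eval _).comp measurable_fst
      · have h1 : Measurable (fun z : C(K, ℝ) × (Fin n → T) => fun i => (PP r j φ).1 (z.2 i)) := by
          refine measurable_pi_iff.2 fun i => ?_
          have h2 : Measurable (fun x : T => (PP r j φ).1 x) := fun _ _ => trivial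
          exact h2.comp ((measurable_pi_apply i).comp measurable_snd)
        have h3 : Measurable (fun x : Fin n → Bool => ((Φ x : ℚ) : ℝ)) := measurable_of_finite _
        exact h3.comp h1
    · refine measurableSet_lt (f := fun _ : C(K, ℝ) × (Fin n → T) => c + ε * (μ univ).toReal)
        (g := fun z : C(K, ℝ) × (Fin n → T) => ∫ t, stp Φ z.2 t ∂μ) measurable_const ?_
      exact (measurable_int_stp hr μ Φ).comp measurable_snd
  · have : G n p q l j0 Φ ε = fun _ => False := by
      funext f
      simp only [hG, hcond, false_and]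
    rw [this]
    exact measurable_const

end FIN

open FIN

theorem functional_measurable (φ : StrongDual ℝ C(K, ℝ)) :
    @Measurable _ _ (SigP K) (borel ℝ) (fun f : C(K, ℝ) => φ f) := by
  obtain ⟨μ, ν, hμ, hν, _, _, h⟩ := jordan φ
  have e : (fun f : C(K, ℝ) => φ f) = fun f : C(K, ℝ) => ∫ x, f x ∂μ - ∫ x, f x ∂ν := by
    funext f
    exact h f
  rw [e]
  let _ : MeasurableSpace C(K, ℝ) := SigP K
  exact (int_measurable μ).sub (int_measurable ν)

end Pool.Agent.GB
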