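import Pool.Agent.GB.Edgar
import Pool.Agent.GB.Top
import Pool.Agent.Helper96.Baire.Core

set_option autoImplicit false

/-!
# From measurability of all functionals to equality of the two Baire `σ`-algebras
-/

namespace Pool.Agent.GB

open Set Filter Topology MeasureTheory T
open Pool.Agent.Helper96.Baire (Ba tp tw ba_le)

/-- the evaluations are continuous for the pointwise topology -/
theorem SigP_le_Ba (X : Type*) [TopologicalSpace X] : SigP X ≤ Ba (tp X) := by
  refine iSup_le (fun t => ?_)
  have hc : @Continuous C(X, ℝ) ℝ (tp X) _ (fun f : C(X, ℝ) => f t) :=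
    @Continuous.comp _ _ _ (tp X) _ _ (fun (f : C(X, ℝ)) (x : X) => f x) (fun u : X → ℝ => u t)
      (continuous_apply t) continuous_induced_dom
  exact le_iSup_of_le (f := fun F : {f : C(X, ℝ) → ℝ // @Continuous C(X, ℝ) ℝ (tp X) _ f} =>
    MeasurableSpace.comap F.1 (borel ℝ)) ⟨fun f : C(X, ℝ) => f t, hc⟩ le_rfl

/-- if all functionals are measurable for the `σ`-algebra of evaluations, the two Baire
`σ`-algebras coincide -/
theorem ba_eq_of_functionals (X : Type*) [TopologicalSpace X] [CompactSpace X] [T2Space X]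
    (h : ∀ φ : StrongDual ℝ C(X, ℝ), @Measurable _ _ (SigP X) (borel ℝ) (fun f : C(X, ℝ) => φ f)) :
    Ba (tp X) = Ba (tw X) := by
  refine le_antisymm ba_le ?_
  refine le_trans (edgar_weak C(X, ℝ)) (le_trans (iSup_le fun φ => ?_) (SigP_le_Ba X))
  exact (h φ).comap_le

end Pool.Agent.GB
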