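import Pool.Agent.GB.Basic

set_option autoImplicit false

/-!
# Conditions: every finite pattern realised at a point is forced by a finite condition
-/

namespace Pool.Agent.GB

open Set T

def Cond.Below (c : Cond) (σ : Ordinal.{0}) : Prop := ∀ x ∈ c.s, rk x < σ

theorem Cond.Le.mem {c c' : Cond} (h : c.Le c') {x : T → Bool} (hx : c'.Mem x) : c.Mem x := by
  intro y hy
  rw [hx y (h.1 hy), h.2 y hy]

theorem Cond.Le.refl (c : Cond) : c.Le c := ⟨subset_refl _, fun _ _ => rfl⟩

theorem Cond.Le.trans {c c' c'' : Cond} (h : c.Le c') (h' : c'.Le c'') : c.Le c'' :=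
  ⟨h.1.trans h'.1, fun x hx => by rw [h'.2 x (h.1 hx), h.2 x hx]⟩

theorem Cond.Free.mono {c c' : Cond} (h : c.Le c') {a : ℕ → T} {g : ℕ → ℕ} (hf : c.Free a g) :
    c'.Free a g := fun x hx => hf x (h.mem hx)

/-- the first index of `a` is decided -/
def Cond.Dec (c : Cond) (a : ℕ → T) : Prop :=
  (∃ m, ∀ h, c.Mem h → ev h (a m) = true ∧ ∀ m' < m, ev h (a m') = false) ∨
    ∀ h, c.Mem h → ∀ m, ev h (a m) = false

theorem Cond.Dec.mono {c c' : Cond} (h : c.Le c') {a : ℕ → T} (hf : c.Dec a) : c'.Dec a := by
  rcases hf with ⟨m, hm⟩ | hm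
  · exact Or.inl ⟨m, fun x hx => hm x (h.mem hx)⟩
  · exact Or.inr fun x hx => hm x (h.mem hx)

theorem Cond.exists_mem (c : Cond) : ∃ h, c.Mem h := ⟨c.p, fun _ _ => rfl⟩

theorem base_aux (p : T → Bool) (s : Finset T) : ∃ (u : T → Bool) (Y : Finset T), InK u ∧
    (∀ y ∈ Y, isGen y ∧ (y ∈ s ∨ ∃ x ∈ s, rk y < rk x)) ∧
    ∀ x ∈ s, (∀ t, InK t → (∀ y ∈ Y, t y = u y) → Det t x) ∨
      (∀ t, InK t → (∀ y ∈ Y, t y = u y) → ¬ Det t x ∧ t x = p x) := by
  classical
  induction s using Finset.induction_on_max_value rk with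
  | empty => exact ⟨ev (fun _ => false), ∅, ev_inK _, by simp, by simp⟩
  | insert a s has hmax ih =>
    obtain ⟨u0, Y0, hu0, hY0, hd⟩ := ih
    have hrk : ∀ y ∈ Y0, rk y ≤ rk a ∧ y ≠ a := by
      intro y hy
      rcases (hY0 y hy).2 with h | ⟨x, hx, hlt⟩
      · exact ⟨hmax y h, fun h' => has (h' ▸ h)⟩
      · have h1 := hlt.trans_le (hmax x hx)
        exact ⟨h1.le, fun h' => by rw [h'] at h1; exact lt_irrefl _ h1⟩
    have hY1 : ∀ y ∈ Y0, isGen y ∧ (y ∈ insert a s ∨ ∃ x ∈ insert a s, rk y < rk x) := by
      intro y hy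
      refine ⟨(hY0 y hy).1, ?_⟩
      rcases (hY0 y hy).2 with h | ⟨x, hx, hlt⟩
      · exact Or.inl (Finset.mem_insert_of_mem h)
      · exact Or.inr ⟨x, Finset.mem_insert_of_mem hx, hlt⟩
    -- the updated point
    have hupd : ∀ y ∈ Y0, ev (Function.update u0 a (p a)) y = u0 y := by
      intro y hy
      have h1 := hrk y hy
      have h2 : ev (Function.update u0 a (p a)) y = ev u0 y := by
        apply ev_gen_local y (hY0 y hy).1
        · rw [Function.update_of_ne h1.2]
        · intro z hz
          rw [Function.update_of_ne]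
          intro h3
          rw [h3] at hz
          exact lt_irrefl _ (hz.trans_le h1.1)
      rw [h2, ev_self hu0]
    have hold : ∀ (u : T → Bool) (Y : Finset T), Y0 ⊆ Y → (∀ y ∈ Y0, u y = u0 y) →
        ∀ x ∈ s, (∀ t, InK t → (∀ y ∈ Y, t y = u y) → Det t x) ∨
          (∀ t, InK t → (∀ y ∈ Y, t y = u y) → ¬ Det t x ∧ t x = p x) := by
      intro u Y hYY huu x hx
      rcases hd x hx with h | h
      · left
        intro t ht hty
        exact h t ht (fun y hy => by rw [hty y (hYY hy), huu y hy])
      · right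
        intro t ht hty
        exact h t ht (fun y hy => by rw [hty y (hYY hy), huu y hy])
    by_cases hnd : ∀ t, InK t → (∀ y ∈ Y0, t y = u0 y) → ¬ Det t a
    · -- free case
      have hgen : isGen a := by
        cases a with
        | bot => exact absurd trivial (hnd u0 hu0 (fun _ _ => rfl))
        | imp x y => exact absurd trivial (hnd u0 hu0 (fun _ _ => rfl))
        | w a n v => trivial
        | b a e g => trivial
      refine ⟨ev (Function.update u0 a (p a)), insert a Y0, ev_inK _, ?_, ?_⟩
      · intro y hy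
        rcases Finset.mem_insert.1 hy with h | h
        · rw [h]
          exact ⟨hgen, Or.inl (Finset.mem_insert_self _ _)⟩
        · exact hY1 y h
      · intro x hx
        rcases Finset.mem_insert.1 hx with h | h
        · right
          rw [h]
          intro t ht hty
          have h1 : ¬ Det t a := hnd t ht (fun y hy => by
            rw [hty y (Finset.mem_insert_of_mem hy), hupd y hy])
          refine ⟨h1, ?_⟩
          rw [hty a (Finset.mem_insert_self _ _)]
          have h2 : ¬ Det (ev (Function.update u0 a (p a))) a := hnd _ (ev_inK _) hupd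
          rw [ev_of_not_det _ _ h2, Function.update_self]
        · exact hold _ _ (Finset.subset_insert _ _) hupd x h
    · -- determined somewhere
      push Not at hnd
      obtain ⟨t1, ht1, ht1Y, hdet⟩ := hnd
      cases a with
      | bot =>
        refine ⟨u0, Y0, hu0, hY1, ?_⟩
        intro x hx
        rcases Finset.mem_insert.1 hx with h | h
        · left
          rw [h]
          intro t _ _
          trivial
        · exact hold _ _ (subset_refl _) (fun _ _ => rfl) x h
      | imp x y =>
        refine ⟨u0, Y0, hu0, hY1, ?_⟩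
        intro x hx
        rcases Finset.mem_insert.1 hx with h | h
        · left
          rw [h]
          intro t _ _
          trivial
        · exact hold _ _ (subset_refl _) (fun _ _ => rfl) x h
      | w a n v => exact absurd hdet id
      | b a e g =>
        obtain ⟨n, h1, h2, h3⟩ := hdet
        refine ⟨t1, Y0 ∪ ((Finset.range (n + 1)).biUnion (fun m => gens (a m)) ∪
          (insert (w a n (g n)) ((Finset.range ((n + 1) ^ 2)).image (fun v => w a n v)))),
          ht1, ?_, ?_⟩
        · intro y hy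
          rcases Finset.mem_union.1 hy with h | h
          · exact hY1 y h
          rcases Finset.mem_union.1 h with h | h
          · obtain ⟨m, _, hm⟩ := Finset.mem_biUnion.1 h
            exact ⟨isGen_of_mem_gens hm, Or.inr ⟨_, Finset.mem_insert_self _ _,
              (rk_le_of_mem_gens hm).trans_lt (rk_a_lt_b a e g m)⟩⟩
          rcases Finset.mem_insert.1 h with h | h
          · rw [h]
            exact ⟨trivial, Or.inr ⟨_, Finset.mem_insert_self _ _, rk_w_lt_b a e g n _⟩⟩
          · obtain ⟨v, _, hv⟩ := Finset.mem_image.1 h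
            rw [← hv]
            exact ⟨trivial, Or.inr ⟨_, Finset.mem_insert_self _ _, rk_w_lt_b a e g n _⟩⟩
        · intro x hx
          rcases Finset.mem_insert.1 hx with h | h
          · left
            rw [h]
            intro t ht hty
            have ha : ∀ m ≤ n, t (a m) = t1 (a m) := by
              intro m hm
              apply eq_of_gens ht ht1
              intro y hy
              apply hty
              apply Finset.mem_union_right
              apply Finset.mem_union_left
              exact Finset.mem_biUnion.2 ⟨m, Finset.mem_range.2 (Nat.lt_succ_of_le hm), hy⟩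
            refine ⟨n, by rw [ha n le_rfl]; exact h1, fun m hm => by rw [ha m hm.le]; exact h2 m hm,
              ?_⟩
            rw [← h3]
            apply zv_congr
            · intro v hv
              apply hty
              apply Finset.mem_union_right
              apply Finset.mem_union_right
              exact Finset.mem_insert_of_mem (Finset.mem_image.2 ⟨v, Finset.mem_range.2 hv, rfl⟩)
            · apply hty
              apply Finset.mem_union_right
              apply Finset.mem_union_right
              exact Finset.mem_insert_self _ _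
          · exact hold _ _ Finset.subset_union_left ht1Y x h

/-- the statement that finite patterns of rank `< σ` are forced -/
def Forcible (σ : Ordinal.{0}) : Prop :=
  ∀ (u : T → Bool), InK u → ∀ X : Finset T, (∀ x ∈ X, isGen x ∧ rk x < σ) →
    ∃ c : Cond, c.Below σ ∧ ∀ h, c.Mem h → ∀ x ∈ X, ev h x = u x

/-- a base point of a condition -/
def IsBase (c : Cond) (u : T → Bool) (Y : Finset T) : Prop :=
  InK u ∧ (∀ y ∈ Y, isGen y ∧ (y ∈ c.s ∨ ∃ x ∈ c.s, rk y < rk x)) ∧
    ∀ x ∈ c.s, (∀ t, InK t → (∀ y ∈ Y, t y = u y) → Det t x) ∨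
      (∀ t, InK t → (∀ y ∈ Y, t y = u y) → ¬ Det t x ∧ t x = c.p x)

theorem exists_isBase (c : Cond) : ∃ u Y, IsBase c u Y := base_aux c.p c.s

theorem IsBase.below {c : Cond} {u : T → Bool} {Y : Finset T} (hb : IsBase c u Y)
    {σ : Ordinal.{0}} (hc : c.Below σ) : ∀ y ∈ Y, isGen y ∧ rk y < σ := by
  intro y hy
  refine ⟨(hb.2.1 y hy).1, ?_⟩
  rcases (hb.2.1 y hy).2 with h | ⟨x, hx, hlt⟩
  · exact hc y h
  · exact hlt.trans (hc x hx)

theorem IsBase.merge {c : Cond} {u : T → Bool} {Y : Finset T} (hb : IsBase c u Y)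
    {σ : Ordinal.{0}} (CH : Forcible σ) (hc : c.Below σ) (u' : T → Bool) (hu' : InK u')
    (huu : ∀ y ∈ Y, u' y = u y) (X' : Finset T) (hX' : ∀ x ∈ X', isGen x ∧ rk x < σ) :
    ∃ c' : Cond, c.Le c' ∧ c'.Below σ ∧ ∀ h, c'.Mem h →
      (∀ x ∈ X', ev h x = u' x) ∧ ∀ x ∈ Y, ev h x = u' x := by
  classical
  have hY' := hb.below hc
  obtain ⟨hu, hY, hd⟩ := hb
  obtain ⟨c2, hc2, hf⟩ := CH u' hu' (X' ∪ Y) (by
    intro x hx
    rcases Finset.mem_union.1 hx with h | h
    · exact hX' x h
    · exact hY' x h)
  refine ⟨⟨c2.s ∪ c.s, fun x => if x ∈ c.s then c.p x else c2.p x⟩, ?_, ?_, ?_⟩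
  · refine ⟨Finset.subset_union_right, fun x hx => ?_⟩
    simp only [hx, if_true]
  · intro x hx
    rcases Finset.mem_union.1 hx with h | h
    · exact hc2 x h
    · exact hc x h
  · intro h hh
    set h' : T → Bool := fun x => if x ∈ c2.s then c2.p x else h x with hh'
    have hm : c2.Mem h' := by
      intro x hx
      simp only [hh', hx, if_true]
    have h1 := hf h' hm
    have h2 : ∀ y ∈ Y, ev h' y = u y := fun y hy => by
      rw [h1 y (Finset.mem_union_right _ hy), huu y hy]
    have h3 : ev h = ev h' := by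
      apply ev_overwrite
      intro x hx
      have hx2 : x ∈ c2.s := by
        by_contra hcon
        apply hx
        simp only [hh', hcon, if_false]
      have hx' : h' x = c2.p x := by
        simp only [hh', hx2, if_true]
      have hxc : x ∈ c.s := by
        by_contra hcon
        apply hx
        rw [hx', hh x (Finset.mem_union_left _ hx2)]
        simp only [hcon, if_false]
      have hhx : h x = c.p x := by
        rw [hh x (Finset.mem_union_left _ hx2)]
        simp only [hxc, if_true]
      rcases hd x hxc with h4 | h4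
      · exact h4 _ (ev_inK _) h2
      · exfalso
        obtain ⟨h5, h6⟩ := h4 _ (ev_inK _) h2
        rw [ev_of_not_det _ _ h5, hx'] at h6
        exact hx (by rw [hhx, hx', h6])
    rw [h3]
    exact ⟨fun x hx => h1 x (Finset.mem_union_left _ hx),
      fun x hx => h1 x (Finset.mem_union_right _ hx)⟩

theorem merge {σ : Ordinal.{0}} (CH : Forcible σ) (c : Cond) (hc : c.Below σ) :
    ∃ (u : T → Bool) (Y : Finset T), InK u ∧ (∀ y ∈ Y, isGen y ∧ rk y < σ) ∧
      ∀ u', InK u' → (∀ y ∈ Y, u' y = u y) → ∀ X' : Finset T, (∀ x ∈ X', isGen x ∧ rk x < σ) →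
        ∃ c' : Cond, c.Le c' ∧ c'.Below σ ∧ ∀ h, c'.Mem h →
          (∀ x ∈ X', ev h x = u' x) ∧ ∀ x ∈ Y, ev h x = u' x := by
  obtain ⟨u, Y, hb⟩ := exists_isBase c
  exact ⟨u, Y, hb.1, hb.below hc, fun u' hu' huu X' hX' => hb.merge CH hc u' hu' huu X' hX'⟩

theorem decide_task {σ : Ordinal.{0}} (CH : Forcible σ) (c : Cond) (hc : c.Below σ) (a : ℕ → T)
    (ha : ∀ k, rk (a k) < σ) : ∃ c' : Cond, c.Le c' ∧ c'.Below σ ∧ c'.Dec a := by
  classical
  obtain ⟨u, Y, hu, hY, H⟩ := merge CH c hc
  by_cases hex : ∃ u', InK u' ∧ (∀ y ∈ Y, u' y = u y) ∧ ∃ m, u' (a m) = true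
  · obtain ⟨u', hu', huu, m0, hm0⟩ := hex
    rcases first_or u' a with h | ⟨m, h1, h2⟩
    · rw [h m0] at hm0
      exact absurd hm0 Bool.false_ne_true
    · obtain ⟨c', hc1, hc2, hc3⟩ := H u' hu' huu
        ((Finset.range (m + 1)).biUnion (fun m' => gens (a m'))) (by
          intro x hx
          obtain ⟨m', _, hm'⟩ := Finset.mem_biUnion.1 hx
          exact ⟨isGen_of_mem_gens hm', (rk_le_of_mem_gens hm').trans_lt (ha m')⟩)
      refine ⟨c', hc1, hc2, Or.inl ⟨m, fun h hh => ?_⟩⟩
      have h3 : ∀ m' ≤ m, ev h (a m') = u' (a m') := by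
        intro m' hm'
        apply eq_of_gens (ev_inK h) hu'
        intro y hy
        apply (hc3 h hh).1
        exact Finset.mem_biUnion.2 ⟨m', Finset.mem_range.2 (Nat.lt_succ_of_le hm'), hy⟩
      exact ⟨by rw [h3 m le_rfl]; exact h1, fun m' hm' => by rw [h3 m' hm'.le]; exact h2 m' hm'⟩
  · obtain ⟨c', hc1, hc2, hc3⟩ := H u hu (fun _ _ => rfl) ∅ (by simp)
    refine ⟨c', hc1, hc2, Or.inr fun h hh m => ?_⟩
    by_contra hcon
    apply hex
    refine ⟨ev h, ev_inK h, fun y hy => (hc3 h hh).2 y hy, m, ?_⟩
    simpa using hcon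

/-- agreement of two conditions on `S` -/
def Agree (S : Set T) (c c' : Cond) : Prop :=
  (∀ x ∈ S, (x ∈ c.s ↔ x ∈ c'.s)) ∧ ∀ x ∈ S, x ∈ c.s → c.p x = c'.p x

theorem Agree.symm {S : Set T} {c c' : Cond} (h : Agree S c c') : Agree S c' c :=
  ⟨fun x hx => (h.1 x hx).symm, fun x hx hx' => (h.2 x hx ((h.1 x hx).2 hx')).symm⟩

theorem copy_step {S : Set T} {σ : Ordinal.{0}} {c c' c2 : Cond} (h : Agree S c c') (hle : c.Le c2)
    (h2 : c2.Below σ) (h' : c'.Below σ) :
    ∃ c2' : Cond, c'.Le c2' ∧ Agree S c2 c2' ∧ c2'.Below σ := by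
  classical
  refine ⟨⟨c'.s ∪ c2.s.filter (fun x => x ∈ S), fun x => if x ∈ S ∧ x ∈ c2.s then c2.p x else c'.p x⟩,
    ?_, ?_, ?_⟩
  · refine ⟨Finset.subset_union_left, fun x hx => ?_⟩
    by_cases h3 : x ∈ S ∧ x ∈ c2.s
    · simp only [h3, and_self, if_true]
      have h4 : x ∈ c.s := (h.1 x h3.1).2 hx
      rw [hle.2 x h4, h.2 x h3.1 h4]
    · simp only [h3, if_false]
  · constructor
    · intro x hx
      simp only [Finset.mem_union, Finset.mem_filter, hx, and_true]
      constructor
      · exact fun h3 => Or.inr h3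
      · rintro (h3 | h3)
        · exact hle.1 ((h.1 x hx).2 h3)
        · exact h3
    · intro x hx hx2
      simp only [hx, hx2, and_self, if_true]
  · intro x hx
    rcases Finset.mem_union.1 hx with h3 | h3
    · exact h' x h3
    · exact h2 x (Finset.mem_filter.1 h3).1

theorem decide_tasks {S : Set T} {σ : Ordinal.{0}} (CH : Forcible σ) (A : Finset (ℕ → T))
    (hA : ∀ a ∈ A, ∀ k, rk (a k) < σ) (c c' : Cond) (hc : c.Below σ) (hc' : c'.Below σ)
    (h : Agree S c c') :
    ∃ c2 c2' : Cond, c.Le c2 ∧ c'.Le c2' ∧ c2.Below σ ∧ c2'.Below σ ∧ Agree S c2 c2' ∧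
      ∀ a ∈ A, c2.Dec a := by
  classical
  induction A using Finset.induction_on with
  | empty => exact ⟨c, c', .refl c, .refl c', hc, hc', h, by simp⟩
  | insert a A _ ih =>
    obtain ⟨c1, c1', h1, h2, h3, h4, h5, h6⟩ := ih (fun x hx => hA x (Finset.mem_insert_of_mem hx))
    obtain ⟨c2, g1, g2, g3⟩ := decide_task CH c1 h3 a (hA a (Finset.mem_insert_self _ _))
    obtain ⟨c2', g4, g5, g6⟩ := copy_step h5 g1 g2 h4
    refine ⟨c2, c2', h1.trans g1, h2.trans g4, g2, g6, g5, ?_⟩
    intro x hx
    rcases Finset.mem_insert.1 hx with h | h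
    · rw [h]
      exact g3
    · exact (h6 x h).mono g1

/-- what is needed to force the value of one generator `x` at `u` -/
theorem low_dem {u : T → Bool} (hu : InK u) (x : T) (hx : isGen x) :
    ∃ (L : Finset T) (D : Finset ((ℕ → T) × (ℕ → ℕ))), (∀ y ∈ L, isGen y ∧ rk y < rk x) ∧
      (∀ ag ∈ D, rk (w ag.1 0 0) < rk x ∧ ∀ n, u (ag.1 n) = false) ∧
      ∀ h : T → Bool, (∀ y ∈ L, ev h y = u y) →
        (∀ ag ∈ D, ∀ n, ev h (ag.1 n) = true → (∀ m < n, ev h (ag.1 m) = false) →
          zv h ag.1 n (ag.2 n) = true) → h x = u x → ev h x = u x := by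
  classical
  cases x with
  | bot => exact absurd hx id
  | imp x y => exact absurd hx id
  | w a n v => exact ⟨∅, ∅, by simp, by simp, fun h _ _ h1 => h1⟩
  | b a e g =>
    rcases first_or u a with h0 | ⟨n, h1, h2⟩
    · refine ⟨∅, {(a, g)}, by simp, ?_, ?_⟩
      · intro ag hag
        rw [Finset.mem_singleton.1 hag]
        exact ⟨rk_w_lt_b a e g 0 0, h0⟩
      · intro h _ hD hx
        rcases first_or (ev h) a with h3 | ⟨m, h3, h4⟩
        · rw [ev_b_none h a e g h3, hx]
        · rw [ev_b_of h a e g m h3 h4, if_pos (hD (a, g) (Finset.mem_singleton_self _) m h3 h4), hx]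
    · refine ⟨((Finset.range (n + 1)).biUnion (fun m => gens (a m)) ∪ gens (e n)) ∪
          (insert (w a n (g n)) ((Finset.range ((n + 1) ^ 2)).image (fun v => w a n v))), ∅,
          ?_, by simp, ?_⟩
      · intro y hy
        rcases Finset.mem_union.1 hy with h | h
        · rcases Finset.mem_union.1 h with h | h
          · obtain ⟨m, _, hm⟩ := Finset.mem_biUnion.1 h
            exact ⟨isGen_of_mem_gens hm, (rk_le_of_mem_gens hm).trans_lt (rk_a_lt_b a e g m)⟩
          · exact ⟨isGen_of_mem_gens h, (rk_le_of_mem_gens h).trans_lt (rk_e_lt_b a e g n)⟩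
        · rcases Finset.mem_insert.1 h with h | h
          · rw [h]
            exact ⟨trivial, rk_w_lt_b a e g n _⟩
          · obtain ⟨v, _, hv⟩ := Finset.mem_image.1 h
            rw [← hv]
            exact ⟨trivial, rk_w_lt_b a e g n _⟩
      · intro h hL _ hx
        have ha : ∀ m ≤ n, ev h (a m) = u (a m) := by
          intro m hm
          apply eq_of_gens (ev_inK h) hu
          intro y hy
          apply hL
          apply Finset.mem_union_left
          apply Finset.mem_union_left
          exact Finset.mem_biUnion.2 ⟨m, Finset.mem_range.2 (Nat.lt_succ_of_le hm), hy⟩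
        have he : ev h (e n) = u (e n) := by
          apply eq_of_gens (ev_inK h) hu
          intro y hy
          apply hL
          apply Finset.mem_union_left
          exact Finset.mem_union_right _ hy
        have hz : zv h a n (g n) = zv u a n (g n) := by
          apply zv_congr
          · intro v hv
            have := hL (w a n v) (Finset.mem_union_right _ (Finset.mem_insert_of_mem
              (Finset.mem_image.2 ⟨v, Finset.mem_range.2 hv, rfl⟩)))
            exact this
          · have := hL (w a n (g n)) (Finset.mem_union_right _ (Finset.mem_insert_self _ _))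
            exact this
        rw [ev_b_of h a e g n (by rw [ha n le_rfl]; exact h1)
          (fun m hm => by rw [ha m hm.le]; exact h2 m hm), hz, he, hx]
        by_cases hz' : zv u a n (g n) = true
        · rw [if_pos hz']
        · rw [if_neg hz']
          exact (hu.b a e g n h1 h2 (by simpa using hz')).symm

end Pool.Agent.GB
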