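import Pool.Agent.GB.Force

set_option autoImplicit false

/-!
# The main forcing lemma
-/

namespace Pool.Agent.GB

open Set T

/-- pattern of the error bits -/
noncomputable def pat (Γ : Finset ((ℕ → T) × (ℕ → ℕ))) : T → Bool
  | T.bot => false
  | T.imp _ _ => false
  | T.w a m v => @decide (∃ ag ∈ Γ, ag.1 = a ∧ ag.2 m = v) (Classical.propDecidable _)
  | T.b _ _ _ => false

theorem pat_w (Γ : Finset ((ℕ → T) × (ℕ → ℕ))) (a : ℕ → T) (m v : ℕ) :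
    pat Γ (w a m v) = true ↔ ∃ ag ∈ Γ, ag.1 = a ∧ ag.2 m = v := by
  unfold pat
  simp

theorem zv_of_pat (Γ : Finset ((ℕ → T) × (ℕ → ℕ))) (h : T → Bool) (a : ℕ → T) (g : ℕ → ℕ) (m : ℕ)
    (hm : Γ.card ≤ m) (hag : (a, g) ∈ Γ)
    (hh : ∀ v, v < (m + 1) ^ 2 ∨ v = g m → h (w a m v) = pat Γ (w a m v)) :
    zv h a m (g m) = true := by
  classical
  have h1 : h (w a m (g m)) = true := by
    rw [hh _ (Or.inr rfl), pat_w]
    exact ⟨(a, g), hag, rfl, rfl⟩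
  have h2 : cnt h a m ≤ m := by
    refine le_trans ?_ hm
    unfold cnt
    have h3 : (Finset.range ((m + 1) ^ 2)).filter (fun v => h (w a m v) = true) ⊆
        Γ.image (fun ag => ag.2 m) := by
      intro v hv
      rw [Finset.mem_filter, Finset.mem_range] at hv
      have h4 := hv.2
      rw [hh v (Or.inl hv.1), pat_w] at h4
      obtain ⟨ag, h5, _, h6⟩ := h4
      exact Finset.mem_image.2 ⟨ag, h5, h6⟩
    exact (Finset.card_le_card h3).trans Finset.card_image_le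
  unfold zv
  rw [h1]
  simp [h2]

/-- the two-point forcing statement at rank `ρ` -/
def C2 (S : Set T) (ρ : Ordinal.{0}) : Prop :=
  ∀ (u u' : T → Bool), InK u → InK u' → (∀ x ∈ S, u x = u' x) →
  ∀ X X' : Finset T, (∀ x ∈ X, isGen x ∧ rk x < ρ) → (∀ x ∈ X', isGen x ∧ rk x < ρ) →
  ∀ Γ Γ' : Finset ((ℕ → T) × (ℕ → ℕ)),
    (∀ ag ∈ Γ, rk (w ag.1 0 0) < ρ ∧ ∀ n, u (ag.1 n) = false) →
    (∀ ag ∈ Γ', rk (w ag.1 0 0) < ρ ∧ ∀ n, u' (ag.1 n) = false) →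
  ∃ c c' : Cond, c.Below ρ ∧ c'.Below ρ ∧ Agree S c c' ∧
    (∀ h, c.Mem h → ∀ x ∈ X, ev h x = u x) ∧ (∀ h, c'.Mem h → ∀ x ∈ X', ev h x = u' x) ∧
    (∀ ag ∈ Γ, c.Free ag.1 ag.2) ∧ (∀ ag ∈ Γ', c'.Free ag.1 ag.2)

theorem Forcible.of_C2 {ρ : Ordinal.{0}} (h : C2 ∅ ρ) : Forcible ρ := by
  intro u hu X hX
  obtain ⟨c, c', h1, _, _, h4, _⟩ := h u u hu hu (by simp) X ∅ hX (by simp) ∅ ∅ (by simp) (by simp)
  exact ⟨c, h1, h4⟩

/-- one side of the final extension: the bits of rank exactly `σ` are added -/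
theorem side {S : Set T} {σ : Ordinal.{0}} {u : T → Bool} (hu : InK u) (c : Cond)
    (hc : c.Below σ) (X Z : Finset T) (hX : ∀ x ∈ X, isGen x ∧ rk x ≤ σ)
    (hZ : ∀ x ∈ Z, rk x = σ)
    (Γ Δ : Finset ((ℕ → T) × (ℕ → ℕ))) (N M B : ℕ)
    (hΓ : ∀ ag ∈ Γ, rk (w ag.1 0 0) ≤ σ)
    (hΔ : ∀ ag ∈ Δ, rk (w ag.1 0 0) = σ)
    (hΓΔ : ∀ ag ∈ Γ, rk (w ag.1 0 0) = σ → ag ∈ Δ)
    (hN : Δ.card ≤ N) (hXN : ∀ a n v, (w a n v ∈ X ∨ w a n v ∈ Z) → n ≤ N)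
    (hB : ∀ m ≤ M, (m + 1) ^ 2 ≤ B ∧ ∀ ag ∈ Δ, ag.2 m < B)
    (L : T → Finset T) (D : T → Finset ((ℕ → T) × (ℕ → ℕ)))
    (hLD : ∀ x ∈ X, rk x = σ → ∀ h : T → Bool, (∀ y ∈ L x, ev h y = u y) →
        (∀ ag ∈ D x, ∀ n, ev h (ag.1 n) = true → (∀ m < n, ev h (ag.1 m) = false) →
          zv h ag.1 n (ag.2 n) = true) → h x = u x → ev h x = u x)
    (hforce : ∀ h, c.Mem h → (∀ x ∈ X, rk x < σ → ev h x = u x) ∧
      (∀ x ∈ X, rk x = σ → ∀ y ∈ L x, ev h y = u y) ∧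
      (∀ ag ∈ Γ, rk (w ag.1 0 0) = σ → ∀ k ≤ N, ev h (ag.1 k) = false))
    (hfree1 : ∀ ag ∈ Γ, rk (w ag.1 0 0) < σ → c.Free ag.1 ag.2)
    (hfree2 : ∀ x ∈ X, rk x = σ → ∀ ag ∈ D x, c.Free ag.1 ag.2)
    (hdec : ∀ ag ∈ Γ, rk (w ag.1 0 0) = σ → c.Dec ag.1)
    (hM : ∀ ag ∈ Γ, ∀ m, (∀ h, c.Mem h → ev h (ag.1 m) = true ∧ ∀ m' < m, ev h (ag.1 m') = false) →
      m ≤ M)
    (s : Finset T) (p : T → Bool)
    (hs : ∀ x, x ∈ s ↔ x ∈ c.s ∨ (x ∈ X ∧ rk x = σ) ∨ x ∈ Z ∨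
      ∃ ag ∈ Δ, ∃ m v, N < m ∧ m ≤ M ∧ v < B ∧ x = w ag.1 m v)
    (hp1 : ∀ x, rk x < σ → p x = c.p x)
    (hp2 : ∀ x, (∃ ag ∈ Δ, ∃ m v, N < m ∧ m ≤ M ∧ v < B ∧ x = w ag.1 m v) → p x = pat Δ x)
    (hp3 : ∀ x, rk x = σ → ¬ (∃ ag ∈ Δ, ∃ m v, N < m ∧ m ≤ M ∧ v < B ∧ x = w ag.1 m v) →
      p x = u x) :
    c.Le ⟨s, p⟩ ∧ (∀ x ∈ s, rk x ≤ σ) ∧ (∀ h, Cond.Mem ⟨s, p⟩ h → ∀ x ∈ X, ev h x = u x) ∧
      ∀ ag ∈ Γ, Cond.Free ⟨s, p⟩ ag.1 ag.2 := by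
  classical
  have hle : c.Le ⟨s, p⟩ := by
    refine ⟨fun x hx => (hs x).2 (Or.inl hx), fun x hx => hp1 x (hc x hx)⟩
  refine ⟨hle, ?_, ?_, ?_⟩
  · intro x hx
    rcases (hs x).1 hx with h | h | h | ⟨ag, hag, m, v, _, _, _, rfl⟩
    · exact (hc x h).le
    · exact h.2.le
    · exact (hZ x h).le
    · rw [rk_w]
      exact (hΔ ag hag).le
  · intro h hh x hx
    have hcm : c.Mem h := hle.mem hh
    rcases lt_or_eq_of_le (hX x hx).2 with hlt | heq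
    · exact (hforce h hcm).1 x hx hlt
    · apply hLD x hx heq h ((hforce h hcm).2.1 x hx heq)
      · intro ag hag
        exact hfree2 x hx heq ag hag h hcm
      · rw [hh x ((hs x).2 (Or.inr (Or.inl ⟨hx, heq⟩)))]
        apply hp3 x heq
        rintro ⟨ag, hag, m, v, hm1, _, _, rfl⟩
        exact absurd (hXN _ _ _ (Or.inl hx)) (not_le.2 hm1)
  · intro ag hag
    rcases lt_or_eq_of_le (hΓ ag hag) with hlt | heq
    · exact (hfree1 ag hag hlt).mono hle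
    · intro h hh n hn1 hn2
      have hcm : c.Mem h := hle.mem hh
      rcases hdec ag hag heq with ⟨m, hm⟩ | hm
      · have hnm : n = m := first_unique hn1 hn2 (hm h hcm).1 (hm h hcm).2
        subst hnm
        have hNm : N < n := by
          by_contra hcon
          have := (hforce h hcm).2.2 ag hag heq n (not_lt.1 hcon)
          rw [hn1] at this
          exact Bool.false_ne_true this.symm
        have hnM : n ≤ M := hM ag hag n hm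
        have hagΔ := hΓΔ ag hag heq
        apply zv_of_pat Δ h ag.1 ag.2 n (hN.trans hNm.le) hagΔ
        intro v hv
        have hvB : v < B := by
          rcases hv with hv | hv
          · exact hv.trans_le (hB n hnM).1
          · rw [hv]
            exact (hB n hnM).2 ag hagΔ
        have hex : ∃ ag' ∈ Δ, ∃ m v', N < m ∧ m ≤ M ∧ v' < B ∧ w ag.1 n v = w ag'.1 m v' :=
          ⟨ag, hagΔ, n, v, hNm, hnM, hvB, rfl⟩
        rw [hh _ ((hs _).2 (Or.inr (Or.inr (Or.inr hex))))]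
        exact hp2 _ hex
      · rw [hm h hcm n] at hn1
        exact absurd hn1 Bool.false_ne_true

end Pool.Agent.GB
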