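import Pool.Agent.GB.Defs2

set_option autoImplicit false

namespace Pool.Agent.GB

open Set Filter Topology MeasureTheory
open scoped ENNReal InnerProductSpace

/-- a clopen set between a compact and an open set -/
theorem exists_clopen_between {X : Type*} [TopologicalSpace X] [CompactSpace X] [T2Space X]
    [TotallyDisconnectedSpace X] {K U : Set X} (hK : IsCompact K) (hU : IsOpen U) (hKU : K ⊆ U) :
    ∃ C : Set X, IsClopen C ∧ K ⊆ C ∧ C ⊆ U := by
  classical
  have h1 : ∀ x : X, x ∈ K → ∃ V : Set X, IsClopen V ∧ x ∈ V ∧ V ⊆ U := fun x hx =>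
    compact_exists_isClopen_in_isOpen hU (hKU hx)
  choose! V hV1 hV2 hV3 using h1
  obtain ⟨t, ht1, ht2⟩ := hK.elim_nhds_subcover V
    (fun x hx => (hV1 x hx).isOpen.mem_nhds (hV2 x hx))
  refine ⟨⋃ x ∈ t, V x, ?_, ht2, ?_⟩
  · exact t.finite_toSet.isClopen_biUnion (fun x hx => hV1 x (ht1 x hx))
  · exact iUnion₂_subset (fun x hx => hV3 x (ht1 x hx))

/-! ## G1 -/
theorem clopen_approx {X : Type*} [TopologicalSpace X] [CompactSpace X] [T2Space X]
    [TotallyDisconnectedSpace X] [MeasurableSpace X] [BorelSpace X] (μ : Measure X)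
    [IsFiniteMeasure μ] (hμ : μ.Regular) {B : Set X} (hB : MeasurableSet B) {ε : ℝ≥0∞} (hε : 0 < ε) :
    ∃ C : Set X, IsClopen C ∧ μ (symmDiff C B) < ε := by
  haveI := hμ
  have hε2 : ε / 2 ≠ 0 := (ENNReal.half_pos hε.ne').ne'
  obtain ⟨U, hBU, hUo, -, hUm⟩ := hB.exists_isOpen_sdiff_lt (measure_ne_top μ B) hε2
  obtain ⟨K, hKB, hK, hKm⟩ := hB.exists_isCompact_sdiff_lt (measure_ne_top μ B) hε2
  obtain ⟨C, hC, hKC, hCU⟩ := exists_clopen_between hK hUo (hKB.trans hBU)
  refine ⟨C, hC, ?_⟩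
  have hsub : symmDiff C B ⊆ (U \ B) ∪ (B \ K) := by
    rintro x (⟨hx1, hx2⟩ | ⟨hx1, hx2⟩)
    · exact Or.inl ⟨hCU hx1, hx2⟩
    · exact Or.inr ⟨hx1, fun hxK => hx2 (hKC hxK)⟩
  calc μ (symmDiff C B) ≤ μ ((U \ B) ∪ (B \ K)) := measure_mono hsub
    _ ≤ μ (U \ B) + μ (B \ K) := measure_union_le _ _
    _ < ε / 2 + ε / 2 := ENNReal.add_lt_add hUm hKm
    _ = ε := ENNReal.add_halves ε

/-! ## G3 -/
theorem hilbert_subseq {H : Type*} [NormedAddCommGroup H] [InnerProductSpace ℝ H] [CompleteSpace H]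
    (x : ℕ → H) (C : ℝ) (hx : ∀ n, ‖x n‖ ≤ C) :
    ∃ κ : ℕ → ℕ, StrictMono κ ∧ ∀ y : H, ∃ L : ℝ, Tendsto (fun i => ⟪x (κ i), y⟫_ℝ) atTop (𝓝 L) := by
  have hC : 0 ≤ C := (norm_nonneg _).trans (hx 0)
  -- diagonal subsequence
  have hcomp : IsCompact (Set.univ.pi (fun _ : ℕ => Set.Icc (-(C * C)) (C * C))) :=
    isCompact_univ_pi (fun _ => isCompact_Icc)
  have hmem : ∀ i, (fun l => ⟪x i, x l⟫_ℝ) ∈ Set.univ.pi (fun _ : ℕ => Set.Icc (-(C * C)) (C * C)) := by
    intro i l _
    have h1 : |⟪x i, x l⟫_ℝ| ≤ C * C :=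
      (abs_real_inner_le_norm _ _).trans (mul_le_mul (hx i) (hx l) (norm_nonneg _) hC)
    exact abs_le.mp h1
  obtain ⟨a, -, κ, hκ, hlim⟩ := hcomp.isSeqCompact hmem
  refine ⟨κ, hκ, ?_⟩
  have hl : ∀ l, Tendsto (fun i => ⟪x (κ i), x l⟫_ℝ) atTop (𝓝 (a l)) := by
    intro l
    exact (tendsto_pi_nhds.mp hlim) l
  -- the set of good y is a subspace
  let G : Submodule ℝ H :=
    { carrier := {y | CauchySeq (fun i => ⟪x (κ i), y⟫_ℝ)}
      add_mem' := by
        intro y z hy hz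
        simp only [Set.mem_setOf_eq] at hy hz ⊢
        obtain ⟨L, hL⟩ := cauchySeq_tendsto_of_complete hy
        obtain ⟨L', hL'⟩ := cauchySeq_tendsto_of_complete hz
        have := (hL.add hL').cauchySeq
        simpa [inner_add_right] using this
      zero_mem' := by
        simpa using (tendsto_const_nhds (x := (0 : ℝ)) (f := (atTop : Filter ℕ))).cauchySeq
      smul_mem' := by
        intro c y hy
        simp only [Set.mem_setOf_eq] at hy ⊢
        obtain ⟨L, hL⟩ := cauchySeq_tendsto_of_complete hy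
        have := (hL.const_mul c).cauchySeq
        simpa [inner_smul_right] using this }
  have hGmem : ∀ y : H, y ∈ G ↔ CauchySeq (fun i => ⟪x (κ i), y⟫_ℝ) := fun y => Iff.rfl
  have hGclosed : IsClosed (G : Set H) := by
    rw [← closure_subset_iff_isClosed]
    intro y hy
    rw [SetLike.mem_coe, hGmem, Metric.cauchySeq_iff]
    intro ε hε
    obtain ⟨z, hz, hyz⟩ := Metric.mem_closure_iff.mp hy (ε / (4 * (C + 1))) (by positivity)
    rw [SetLike.mem_coe, hGmem, Metric.cauchySeq_iff] at hz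
    obtain ⟨N, hN⟩ := hz (ε / 4) (by positivity)
    refine ⟨N, fun m hm n hn => ?_⟩
    have h1 := hN m hm n hn
    have hb : ∀ k, |⟪x (κ k), y⟫_ℝ - ⟪x (κ k), z⟫_ℝ| ≤ ε / 4 := by
      intro k
      rw [← inner_sub_right]
      refine (abs_real_inner_le_norm _ _).trans ?_
      rw [dist_eq_norm] at hyz
      calc ‖x (κ k)‖ * ‖y - z‖ ≤ C * (ε / (4 * (C + 1))) :=
            mul_le_mul (hx _) hyz.le (norm_nonneg _) hC
        _ ≤ ε / 4 := by
            rw [mul_div_assoc', div_le_div_iff₀ (by positivity) (by norm_num)]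
            nlinarith
    rw [Real.dist_eq] at h1 ⊢
    have h2 := hb m
    have h3 := hb n
    have h4 := abs_le.mp h2
    have h5 := abs_le.mp h3
    have h6 := abs_lt.mp h1
    rw [abs_lt]
    constructor <;> linarith [h4.1, h4.2, h5.1, h5.2, h6.1, h6.2]
  have hxG : ∀ l, x l ∈ G := fun l => (hl l).cauchySeq
  have hspan : (Submodule.span ℝ (Set.range x)).topologicalClosure ≤ G := by
    apply Submodule.topologicalClosure_minimal _ _ hGclosed
    rw [Submodule.span_le]
    rintro _ ⟨l, rfl⟩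
    exact hxG l
  set M := (Submodule.span ℝ (Set.range x)).topologicalClosure with hM
  haveI : CompleteSpace M := (Submodule.isClosed_topologicalClosure _).completeSpace_coe
  intro y
  have hyM : ((M.starProjection y : H)) ∈ G := hspan (by exact Submodule.starProjection_apply_mem M y)
  obtain ⟨L, hL⟩ := cauchySeq_tendsto_of_complete ((hGmem _).mp hyM)
  refine ⟨L, hL.congr (fun i => ?_)⟩
  have hxM : x (κ i) ∈ M := Submodule.le_topologicalClosure _ (Submodule.subset_span ⟨_, rfl⟩)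
  have horth : ⟪x (κ i), y - M.starProjection y⟫_ℝ = 0 :=
    (Submodule.mem_orthogonal M _).mp (Submodule.sub_starProjection_mem_orthogonal y) _ hxM
  rw [inner_sub_right] at horth
  linarith

end Pool.Agent.GB
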