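import Pool.Agent.GB.Jordan
import Pool.Agent.GB.G13

/-! Densities for a sequence of functionals (module G2 of MP_bb644c_an). -/

set_option autoImplicit false

namespace Pool.Agent.GB

open Set Filter Topology MeasureTheory
open scoped ENNReal InnerProductSpace

namespace DensAux

variable {X : Type*} [TopologicalSpace X] [CompactSpace X] [T2Space X]
    [MeasurableSpace X] [BorelSpace X]

/-- a finite regular measure dominating a sequence -/
theorem exists_dom (μ : ℕ → Measure X) (hf : ∀ n, IsFiniteMeasure (μ n)) (hr : ∀ n, (μ n).Regular) :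
    ∃ lam : Measure X, IsFiniteMeasure lam ∧ lam.Regular ∧ ∀ n, μ n ≪ lam := by
  set c : ℕ → ℝ≥0∞ := fun n => (2:ℝ≥0∞)⁻¹ ^ (n + 1) * (1 + μ n univ)⁻¹ with hc
  have hcpos : ∀ n, c n ≠ 0 := by
    intro n
    rw [hc]
    simp only [ne_eq, mul_eq_zero, not_or]
    refine ⟨pow_ne_zero _ (by simp), ?_⟩
    rw [ENNReal.inv_eq_zero]
    exact ENNReal.add_ne_top.2 ⟨by simp, measure_ne_top _ _⟩
  set lam : Measure X := Measure.sum (fun n => c n • μ n) with hlam
  have hfin : IsFiniteMeasure lam := by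
    refine ⟨?_⟩
    rw [hlam, Measure.sum_apply _ MeasurableSet.univ]
    have h1 : ∀ n, (c n • μ n) univ ≤ (2:ℝ≥0∞)⁻¹ ^ (n + 1) := by
      intro n
      rw [Measure.smul_apply, smul_eq_mul, hc]
      simp only
      rw [mul_assoc]
      calc (2:ℝ≥0∞)⁻¹ ^ (n + 1) * ((1 + μ n univ)⁻¹ * μ n univ)
          ≤ (2:ℝ≥0∞)⁻¹ ^ (n + 1) * 1 := by
            gcongr
            rw [mul_comm, ← div_eq_mul_inv]
            exact ENNReal.div_le_of_le_mul (by rw [one_mul]; exact le_add_self)
        _ = (2:ℝ≥0∞)⁻¹ ^ (n + 1) := mul_one _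
    calc ∑' n, (c n • μ n) univ ≤ ∑' n, (2:ℝ≥0∞)⁻¹ ^ (n + 1) := ENNReal.tsum_le_tsum h1
      _ = 1 := by rw [ENNReal.tsum_geometric_add_one]; simp [ENNReal.inv_mul_cancel]
      _ < ∞ := ENNReal.one_lt_top
  have hin : ∀ n, (c n • μ n).InnerRegular := by
    intro n
    have := hf n
    have := hr n
    infer_instance
  have hin2 : lam.InnerRegular := by
    rw [hlam]
    infer_instance
  refine ⟨lam, hfin, inferInstance, fun n => ?_⟩
  intro s hs
  rw [hlam] at hs
  have h2 : (c n • μ n) s ≤ 0 := by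
    rw [← hs]
    exact Measure.le_sum_apply _ _ |>.trans' (ENNReal.le_tsum n)
  have h3 : c n * μ n s = 0 := by simpa using h2
  rcases mul_eq_zero.1 h3 with h | h
  · exact absurd h (hcpos n)
  · exact h

theorem norm_bound [TotallyDisconnectedSpace X] (lam : Measure X) [IsFiniteMeasure lam]
    (hreg : lam.Regular) (h : X → ℝ) (hm : Measurable h) (hi : Integrable h lam)
    (φ : StrongDual ℝ C(X, ℝ)) (hφ : ∀ f : C(X, ℝ), φ f = ∫ x, f x * h x ∂lam) :
    ∫ x, |h x| ∂lam ≤ ‖φ‖ := by
  refine le_of_forall_pos_le_add fun ε hε => ?_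
  obtain ⟨δ, hδ, hδ2⟩ := exists_pos_setLIntegral_lt_of_measure_lt (μ := lam)
    (f := fun x => ENNReal.ofReal |h x|) (ε := ENNReal.ofReal (ε / 2))
    (by simpa [Real.norm_eq_abs] using (hasFiniteIntegral_iff_norm h).1 hi.2 |>.ne)
    (by simpa using hε)
  have hP : MeasurableSet {x | 0 ≤ h x} := measurableSet_le measurable_const hm
  obtain ⟨C, hC, hCP⟩ := clopen_approx lam hreg hP hδ
  classical
  let f : C(X, ℝ) := ⟨fun x => if x ∈ C then 1 else -1, by
    refine continuous_const.if (fun x hx => ?_) continuous_const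
    have : frontier {x | x ∈ C} = ∅ := hC.frontier_eq
    rw [this] at hx
    exact absurd hx (notMem_empty x)⟩
  have hf : ∀ x, f x = if x ∈ C then 1 else -1 := fun x => rfl
  have hfn : ‖f‖ ≤ 1 := by
    rw [ContinuousMap.norm_le _ zero_le_one]
    intro x
    rw [hf]
    split_ifs <;> simp
  have h1 : φ f ≤ ‖φ‖ := by
    calc φ f ≤ ‖φ f‖ := Real.le_norm_self _
      _ ≤ ‖φ‖ * ‖f‖ := φ.le_opNorm f
      _ ≤ ‖φ‖ * 1 := by gcongr
      _ = ‖φ‖ := mul_one _
  rw [hφ f] at h1
  have hS : MeasurableSet (symmDiff C {x | 0 ≤ h x}) := hC.isOpen.measurableSet.symmDiff hP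
  have h2 : ∫ x in symmDiff C {x | 0 ≤ h x}, |h x| ∂lam ≤ ε / 2 := by
    rw [integral_eq_lintegral_of_nonneg_ae (Eventually.of_forall fun x => abs_nonneg _)
      hm.abs.aestronglyMeasurable]
    refine ENNReal.toReal_le_of_le_ofReal (by positivity) (hδ2 _ hCP).le
  have h3 : ∫ x, (|h x| - f x * h x) ∂lam =
      ∫ x in symmDiff C {x | 0 ≤ h x}, 2 * |h x| ∂lam := by
    rw [← integral_indicator hS]
    congr 1
    ext x
    by_cases hx : x ∈ symmDiff C {x | 0 ≤ h x}
    · rw [indicator_of_mem hx, hf]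
      rcases hx with ⟨hx1, hx2⟩ | ⟨hx1, hx2⟩
      · rw [if_pos hx1]
        have : h x < 0 := by simpa using hx2
        rw [abs_of_neg this]; ring
      · rw [if_neg hx2]
        have : 0 ≤ h x := hx1
        rw [abs_of_nonneg this]; ring
    · rw [indicator_of_notMem hx, hf]
      rw [mem_symmDiff] at hx
      push Not at hx
      by_cases hxC : x ∈ C
      · have : 0 ≤ h x := hx.1 hxC
        rw [if_pos hxC, abs_of_nonneg this]; ring
      · have : ¬ (0 ≤ h x) := fun h' => hxC (hx.2 h')
        rw [if_neg hxC, abs_of_neg (not_le.1 this)]; ring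
  have hfh : Integrable (fun x => f x * h x) lam := by
    refine hi.bdd_mul (c := ‖f‖) f.continuous.aestronglyMeasurable
      (Eventually.of_forall fun x => f.norm_coe_le_norm x)
  rw [integral_sub hi.abs hfh, integral_const_mul] at h3
  linarith

end DensAux

/-! ## G2 -/
theorem densities {X : Type*} [TopologicalSpace X] [CompactSpace X] [T2Space X]
    [TotallyDisconnectedSpace X] [MeasurableSpace X] [BorelSpace X]
    (φ : ℕ → StrongDual ℝ C(X, ℝ)) :
    ∃ (lam : Measure X) (h : ℕ → X → ℝ), IsFiniteMeasure lam ∧ lam.Regular ∧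
      (∀ n, Measurable (h n)) ∧ (∀ n, Integrable (h n) lam) ∧
      (∀ n (f : C(X, ℝ)), φ n f = ∫ x, f x * h n x ∂lam) ∧
      ∀ n, ∫ x, |h n x| ∂lam ≤ ‖φ n‖ := by
  choose μ ν hμf hνf hμr hνr hφ using fun n => jordan (φ n)
  have hin : ∀ n, (μ n + ν n).InnerRegular := by
    intro n
    have := hμf n
    have := hμr n
    have := hνf n
    have := hνr n
    infer_instance
  obtain ⟨lam, hfin, hreg, hac⟩ := DensAux.exists_dom (fun n => μ n + ν n)
    (fun n => by have := hμf n; have := hνf n; infer_instance)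
    (fun n => by have := hμf n; have := hνf n; have := hin n; infer_instance)
  have hacμ : ∀ n, μ n ≪ lam := fun n => (Measure.absolutelyContinuous_of_le
    (Measure.le_add_right le_rfl)).trans (hac n)
  have hacν : ∀ n, ν n ≪ lam := fun n => (Measure.absolutelyContinuous_of_le
    (Measure.le_add_left le_rfl)).trans (hac n)
  set h : ℕ → X → ℝ := fun n x => ((μ n).rnDeriv lam x).toReal - ((ν n).rnDeriv lam x).toReal
    with hh
  have hm : ∀ n, Measurable (h n) := fun n =>
    ((Measure.measurable_rnDeriv _ _).ennreal_toReal).sub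
      ((Measure.measurable_rnDeriv _ _).ennreal_toReal)
  have hiμ : ∀ n, Integrable (fun x => ((μ n).rnDeriv lam x).toReal) lam := fun n => by
    have := hμf n
    exact Measure.integrable_toReal_rnDeriv
  have hiν : ∀ n, Integrable (fun x => ((ν n).rnDeriv lam x).toReal) lam := fun n => by
    have := hνf n
    exact Measure.integrable_toReal_rnDeriv
  have hi : ∀ n, Integrable (h n) lam := fun n => (hiμ n).sub (hiν n)
  have hfi : ∀ (m : Measure X) [IsFiniteMeasure m] (f : C(X, ℝ)), Integrable (fun x => f x) m :=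
    fun m _ f => Integrable.of_bound f.continuous.aestronglyMeasurable ‖f‖
      (Eventually.of_forall fun x => f.norm_coe_le_norm x)
  have hrep : ∀ n (f : C(X, ℝ)), φ n f = ∫ x, f x * h n x ∂lam := by
    intro n f
    have := hμf n
    have := hνf n
    rw [hφ n f, ← integral_rnDeriv_smul (hacμ n), ← integral_rnDeriv_smul (hacν n)]
    rw [← integral_sub]
    · congr 1
      ext x
      simp only [hh, smul_eq_mul]
      ring
    · exact (integrable_rnDeriv_smul_iff (hacμ n)).2 (hfi (μ n) f)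
    · exact (integrable_rnDeriv_smul_iff (hacν n)).2 (hfi (ν n) f)
  refine ⟨lam, h, hfin, hreg, hm, hi, hrep, fun n => ?_⟩
  exact DensAux.norm_bound lam hreg (h n) (hm n) (hi n) (φ n) (hrep n)

end Pool.Agent.GB
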