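import Pool.Agent.GB.Defs2

set_option autoImplicit false

/-!
# Uniformly integrable weak-star null sequences are weakly null
-/

namespace Pool.Agent.GB

open Set Filter Topology MeasureTheory
open scoped ENNReal InnerProductSpace

theorem g4_bound_gen {E : Type*} [NormedAddCommGroup E] [NormedSpace ℝ E]
    (Ψ : StrongDual ℝ (StrongDual ℝ E)) :
    ∃ c : ℝ, 0 ≤ c ∧ ∀ y : StrongDual ℝ E, |Ψ y| ≤ c * ‖y‖ := by
  refine ⟨‖Ψ‖, Ψ.opNorm_nonneg, fun y => ?_⟩
  have := Ψ.le_opNorm y
  rwa [Real.norm_eq_abs] at this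

theorem g4_bound {X : Type*} [TopologicalSpace X] [CompactSpace X]
    (Ψ : StrongDual ℝ (StrongDual ℝ C(X, ℝ))) :
    ∃ c : ℝ, 0 ≤ c ∧ ∀ y : StrongDual ℝ C(X, ℝ), |Ψ y| ≤ c * ‖y‖ :=
  g4_bound_gen Ψ

section G4

variable {X : Type*} [TopologicalSpace X] [CompactSpace X] [MeasurableSpace X] [BorelSpace X]
  (lam : Measure X) [IsFiniteMeasure lam]

omit [IsFiniteMeasure lam] in
theorem g4_int_mul (f : C(X, ℝ)) {g : X → ℝ} (hg : Integrable g lam) :
    Integrable (fun x => f x * g x) lam :=
  hg.bdd_mul f.continuous.aestronglyMeasurable (c := ‖f‖)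
    (Eventually.of_forall fun x => f.norm_coe_le_norm x)

omit [IsFiniteMeasure lam] in
theorem g4_int_bd (f : C(X, ℝ)) {g : X → ℝ} (hg : Integrable g lam) :
    |∫ x, f x * g x ∂lam| ≤ ‖f‖ * ∫ x, |g x| ∂lam := by
  rw [← integral_const_mul]
  calc |∫ x, f x * g x ∂lam| ≤ ∫ x, |f x * g x| ∂lam := abs_integral_le_integral_abs
    _ ≤ ∫ x, ‖f‖ * |g x| ∂lam := by
        apply integral_mono (g4_int_mul lam f hg).abs (hg.abs.const_mul _)
        intro x
        simp only
        rw [abs_mul]
        exact mul_le_mul_of_nonneg_right (f.norm_coe_le_norm x) (abs_nonneg _)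

/-- the functional given by a square integrable density -/
noncomputable def g4J : Lp ℝ 2 lam →L[ℝ] StrongDual ℝ C(X, ℝ) :=
  LinearMap.mkContinuous
    { toFun := fun g => (InnerProductSpace.toDual ℝ (Lp ℝ 2 lam) g).comp
        (ContinuousMap.toLp 2 lam ℝ)
      map_add' := fun g g' => by
        rw [map_add]; rfl
      map_smul' := fun c g => by
        rw [map_smulₛₗ]; rfl }
    ‖(ContinuousMap.toLp 2 lam ℝ : C(X, ℝ) →L[ℝ] Lp ℝ 2 lam)‖ (fun g => by
      refine (ContinuousLinearMap.opNorm_comp_le _ _).trans ?_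
      rw [LinearIsometryEquiv.norm_map, mul_comm])

theorem g4J_apply {g : X → ℝ} (hg : MemLp g 2 lam) (f : C(X, ℝ)) :
    g4J lam (hg.toLp g) f = ∫ x, f x * g x ∂lam := by
  have h1 : g4J lam (hg.toLp g) f =
      ⟪hg.toLp g, (ContinuousMap.toLp 2 lam ℝ f : Lp ℝ 2 lam)⟫_ℝ := rfl
  rw [h1, L2.inner_def]
  apply integral_congr_ae
  filter_upwards [hg.coeFn_toLp, ContinuousMap.coeFn_toLp (p := 2) (𝕜 := ℝ) lam f] with x e1 e2
  rw [e1, e2, Real.inner_apply, mul_comm]

theorem g4J_norm {g : X → ℝ} (hg : MemLp g 2 lam) :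
    ‖g4J lam (hg.toLp g)‖ ≤ ∫ x, |g x| ∂lam := by
  apply ContinuousLinearMap.opNorm_le_bound _ (integral_nonneg fun x => abs_nonneg _)
  intro f
  rw [g4J_apply, Real.norm_eq_abs, mul_comm]
  exact g4_int_bd lam f (hg.integrable one_le_two)

/-- every functional on the dual is represented on the densities by a bounded function -/
theorem g4_repr (Ψ : StrongDual ℝ (StrongDual ℝ C(X, ℝ))) (c : ℝ) (hc0 : 0 ≤ c)
    (hc : ∀ y : StrongDual ℝ C(X, ℝ), |Ψ y| ≤ c * ‖y‖) :
    ∃ G : X → ℝ, Integrable G lam ∧ (∀ᵐ x ∂lam, |G x| ≤ c) ∧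
      ∀ (g : X → ℝ) (hg : MemLp g 2 lam), Ψ (g4J lam (hg.toLp g)) = ∫ x, G x * g x ∂lam := by
  set G := (InnerProductSpace.toDual ℝ (Lp ℝ 2 lam)).symm (Ψ.comp (g4J lam)) with hG
  have hGi : Integrable G lam := (Lp.memLp G).integrable one_le_two
  have h1 : ∀ (g : X → ℝ) (hg : MemLp g 2 lam), Ψ (g4J lam (hg.toLp g)) =
      ∫ x, G x * g x ∂lam := by
    intro g hg
    have h2 : Ψ (g4J lam (hg.toLp g)) = ⟪G, hg.toLp g⟫_ℝ := by
      rw [hG, InnerProductSpace.toDual_symm_apply]
      rfl
    rw [h2, L2.inner_def]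
    apply integral_congr_ae
    filter_upwards [hg.coeFn_toLp] with x e1
    rw [e1, Real.inner_apply]
  have h3 : ∀ s : Set X, MeasurableSet s → |∫ x in s, G x ∂lam| ≤ ∫ x in s, c ∂lam := by
    intro s hs
    have hg : MemLp (s.indicator (fun _ => (1 : ℝ))) 2 lam :=
      memLp_indicator_const 2 hs 1 (Or.inr (measure_ne_top _ _))
    have h4 := h1 _ hg
    have h5 : ∫ x, G x * s.indicator (fun _ => (1 : ℝ)) x ∂lam = ∫ x in s, G x ∂lam := by
      rw [← integral_indicator hs]
      congr 1
      funext x
      by_cases hx : x ∈ s <;> simp [hx]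
    rw [h5] at h4
    rw [← h4]
    refine (hc _).trans ?_
    have h7 := g4J_norm lam hg
    have h8 : ∫ x, |s.indicator (fun _ => (1 : ℝ)) x| ∂lam = ∫ x in s, (1 : ℝ) ∂lam := by
      rw [← integral_indicator hs]
      congr 1
      funext x
      by_cases hx : x ∈ s <;> simp [hx]
    rw [h8] at h7
    calc c * ‖g4J lam (hg.toLp _)‖ ≤ c * ∫ x in s, (1 : ℝ) ∂lam :=
          mul_le_mul_of_nonneg_left h7 hc0
      _ = ∫ x in s, c ∂lam := by
          rw [← integral_const_mul]
          simp
  refine ⟨G, hGi, ?_, h1⟩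
  have hle : (G : X → ℝ) ≤ᵐ[lam] fun _ => c := by
    apply ae_le_of_forall_setIntegral_le hGi (integrable_const _)
    intro s hs _
    exact (le_abs_self _).trans (h3 s hs)
  have hge : (fun x => -G x) ≤ᵐ[lam] fun _ => c := by
    apply ae_le_of_forall_setIntegral_le hGi.neg (integrable_const _)
    intro s hs _
    have e : ∫ x in s, (-(G : X → ℝ)) x ∂lam = -∫ x in s, G x ∂lam := by
      simp only [Pi.neg_apply]
      exact integral_neg _
    rw [e]
    exact (neg_le_abs _).trans (h3 s hs)
  filter_upwards [hle, hge] with x e1 e2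
  exact abs_le.2 ⟨by linarith, e1⟩

omit [IsFiniteMeasure lam] in
/-- approximation of a bounded function by continuous functions with the same bound -/
theorem g4_approx [T2Space X] (hreg : lam.Regular) {G : X → ℝ} (hG : Integrable G lam) {c : ℝ}
    (hc0 : 0 ≤ c) (hGc : ∀ᵐ x ∂lam, |G x| ≤ c) {ε : ℝ} (hε : 0 < ε) :
    ∃ f : C(X, ℝ), (∀ x, |f x| ≤ c) ∧ ∫ x, |G x - f x| ∂lam ≤ ε := by
  have := hreg
  obtain ⟨f0, hf0, hf0i⟩ := hG.exists_boundedContinuous_integral_sub_le hε
  refine ⟨⟨fun x => max (min (f0 x) c) (-c), by fun_prop⟩, ?_, ?_⟩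
  · intro x
    simp only [ContinuousMap.coe_mk]
    exact abs_le.2 ⟨le_max_right _ _, max_le (min_le_right _ _) (by linarith)⟩
  · refine le_trans ?_ hf0
    apply integral_mono_ae
    · apply Integrable.abs
      apply hG.sub
      apply Continuous.integrable_of_hasCompactSupport
      · simp only [ContinuousMap.coe_mk]
        fun_prop
      · exact HasCompactSupport.of_compactSpace _
    · exact (hG.sub hf0i).norm
    · filter_upwards [hGc] with x hx
      simp only [ContinuousMap.coe_mk]
      rw [Real.norm_eq_abs]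
      obtain ⟨h1, h2⟩ := abs_le.1 hx
      rcases le_total (f0 x) c with h3 | h3
      · rw [min_eq_left h3]
        rcases le_total (f0 x) (-c) with h4 | h4
        · rw [max_eq_right h4]
          rw [abs_of_nonneg (by linarith), abs_of_nonneg (by linarith)]
          linarith
        · rw [max_eq_left h4]
      · rw [min_eq_right h3, max_eq_left (by linarith)]
        rw [abs_of_nonpos (by linarith), abs_of_nonpos (by linarith)]
        linarith

end G4

/-- **G4** -/
theorem weak_of_UI {X : Type*} [TopologicalSpace X] [CompactSpace X] [T2Space X]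
    [TotallyDisconnectedSpace X] [MeasurableSpace X] [BorelSpace X]
    (lam : Measure X) [IsFiniteMeasure lam] (hreg : lam.Regular) (h : ℕ → X → ℝ)
    (hm : ∀ n, Measurable (h n)) (hi : ∀ n, Integrable (h n) lam) (hui : UI lam h)
    (φ : ℕ → StrongDual ℝ C(X, ℝ)) (hφ : ∀ n (f : C(X, ℝ)), φ n f = ∫ x, f x * h n x ∂lam)
    (h0 : ∀ f : C(X, ℝ), Tendsto (fun n => φ n f) atTop (𝓝 0))
    (Ψ : StrongDual ℝ (StrongDual ℝ C(X, ℝ))) :
    Tendsto (fun n => Ψ (φ n)) atTop (𝓝 0) := by
  obtain ⟨c, hc0, hc⟩ := g4_bound Ψ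
  obtain ⟨G, hGi, hGc, hGr⟩ := g4_repr lam Ψ c hc0 hc
  have main : ∀ ε : ℝ, 0 < ε → ∀ᶠ n in atTop, |Ψ (φ n)| ≤ (2 * c + 2) * ε := by
    intro ε hε
    obtain ⟨M0, hM0⟩ := hui ε hε
    set M := max M0 1 with hMdef
    have hM1 : 0 < M := lt_of_lt_of_le one_pos (le_max_right _ _)
    obtain ⟨f1, hf1c, hf1⟩ := g4_approx lam hreg hGi hc0 hGc (div_pos hε hM1)
    -- the truncations
    have hSm : ∀ n, MeasurableSet {x | M < |h n x|} := fun n =>
      measurableSet_lt measurable_const (hm n).abs
    let u : ℕ → X → ℝ := fun n => {x | M < |h n x|}ᶜ.indicator (h n)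
    let w : ℕ → X → ℝ := fun n => {x | M < |h n x|}.indicator (h n)
    have huw : ∀ n x, h n x = u n x + w n x := by
      intro n x
      by_cases hx : x ∈ {x | M < |h n x|}
      · simp only [u, w, indicator_of_mem hx, indicator_of_notMem (notMem_compl_iff.2 hx), zero_add]
      · simp only [u, w, indicator_of_notMem hx, indicator_of_mem (mem_compl hx), add_zero]
    have hub : ∀ n x, |u n x| ≤ M := by
      intro n x
      by_cases hx : x ∈ {x | M < |h n x|}
      · simp only [u, indicator_of_notMem (notMem_compl_iff.2 hx), abs_zero]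
        exact hM1.le
      · simp only [u, indicator_of_mem (mem_compl hx)]
        exact not_lt.1 hx
    have hum : ∀ n, Measurable (u n) := fun n => (hm n).indicator (hSm n).compl
    have hu2 : ∀ n, MemLp (u n) 2 lam := fun n =>
      MemLp.of_bound (hum n).aestronglyMeasurable M (Eventually.of_forall fun x => hub n x)
    have hui' : ∀ n, Integrable (u n) lam := fun n => (hu2 n).integrable one_le_two
    have hwi : ∀ n, Integrable (w n) lam := fun n => (hi n).indicator (hSm n)
    have hwb : ∀ n, ∫ x, |w n x| ∂lam ≤ ε := by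
      intro n
      have e1 : ∫ x, |w n x| ∂lam = ∫ x in {x | M < |h n x|}, |h n x| ∂lam := by
        rw [← integral_indicator (hSm n)]
        congr 1
        funext x
        by_cases hx : x ∈ {x | M < |h n x|}
        · simp only [w, indicator_of_mem hx]
        · simp only [w, indicator_of_notMem hx, abs_zero]
      rw [e1]
      refine le_trans ?_ (hM0 n)
      apply setIntegral_mono_set (hi n).abs.integrableOn
      · exact Eventually.of_forall fun x => abs_nonneg _
      · apply Eventually.of_forall
        intro x hx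
        exact lt_of_le_of_lt (le_max_left _ _) hx
    have hev : ∀ᶠ n in atTop, |φ n f1| < ε := by
      have := (h0 f1).abs
      rw [abs_zero] at this
      exact this.eventually (gt_mem_nhds hε)
    filter_upwards [hev] with n hn
    have hd : ‖φ n - g4J lam ((hu2 n).toLp (u n))‖ ≤ ε := by
      apply ContinuousLinearMap.opNorm_le_bound _ hε.le
      intro f
      have e1 : (φ n - g4J lam ((hu2 n).toLp (u n))) f = ∫ x, f x * w n x ∂lam := by
        have e2 : (φ n - g4J lam ((hu2 n).toLp (u n))) f =
            φ n f - g4J lam ((hu2 n).toLp (u n)) f := rfl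
        rw [e2, g4J_apply, hφ, ← integral_sub (g4_int_mul lam f (hi n))
          (g4_int_mul lam f (hui' n))]
        congr 1
        funext x
        rw [huw n x]
        ring
      rw [e1, Real.norm_eq_abs]
      refine (g4_int_bd lam f (hwi n)).trans ?_
      rw [mul_comm]
      exact mul_le_mul_of_nonneg_right (hwb n) (norm_nonneg _)
    have hΨ : Ψ (φ n) = Ψ (φ n - g4J lam ((hu2 n).toLp (u n))) +
        Ψ (g4J lam ((hu2 n).toLp (u n))) := by
      rw [← map_add, sub_add_cancel]
    have hb1 : |Ψ (φ n - g4J lam ((hu2 n).toLp (u n)))| ≤ c * ε :=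
      (hc _).trans (mul_le_mul_of_nonneg_left hd hc0)
    have hb2 : |∫ x, G x * u n x ∂lam| ≤ ε + c * ε + ε := by
      have hGu : Integrable (fun x => G x * u n x) lam := by
        have := (hGi.mul_bdd (c := M) (hum n).aestronglyMeasurable
          (Eventually.of_forall fun x => hub n x))
        exact this
      have e1 : ∫ x, G x * u n x ∂lam = ∫ x, (G x - f1 x) * u n x ∂lam -
          ∫ x, f1 x * w n x ∂lam + φ n f1 := by
        rw [hφ, ← integral_sub, ← integral_add]
        · congr 1
          funext x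
          rw [huw n x]
          ring
        · apply Integrable.sub
          · have : (fun x => (G x - f1 x) * u n x) = fun x => G x * u n x - f1 x * u n x := by
              funext x
              ring
            rw [this]
            exact hGu.sub (g4_int_mul lam f1 (hui' n))
          · exact g4_int_mul lam f1 (hwi n)
        · exact g4_int_mul lam f1 (hi n)
        · have : (fun x => (G x - f1 x) * u n x) = fun x => G x * u n x - f1 x * u n x := by
            funext x
            ring
          rw [this]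
          exact hGu.sub (g4_int_mul lam f1 (hui' n))
        · exact g4_int_mul lam f1 (hwi n)
      have hf1i : Integrable (fun x => f1 x) lam := by
        have := g4_int_mul lam f1 (integrable_const (1 : ℝ))
        simpa using this
      have b1 : |∫ x, (G x - f1 x) * u n x ∂lam| ≤ ε := by
        calc |∫ x, (G x - f1 x) * u n x ∂lam| ≤ ∫ x, |(G x - f1 x) * u n x| ∂lam :=
              abs_integral_le_integral_abs
          _ ≤ ∫ x, |G x - f1 x| * M ∂lam := by
              apply integral_mono_of_nonneg
              · exact Eventually.of_forall fun x => abs_nonneg _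
              · exact ((hGi.sub hf1i).abs).mul_const _
              · apply Eventually.of_forall
                intro x
                simp only
                rw [abs_mul]
                exact mul_le_mul_of_nonneg_left (hub n x) (abs_nonneg _)
          _ = (∫ x, |G x - f1 x| ∂lam) * M := integral_mul_const _ _
          _ ≤ ε / M * M := mul_le_mul_of_nonneg_right hf1 hM1.le
          _ = ε := div_mul_cancel₀ _ hM1.ne'
      have b2 : |∫ x, f1 x * w n x ∂lam| ≤ c * ε := by
        calc |∫ x, f1 x * w n x ∂lam| ≤ ∫ x, |f1 x * w n x| ∂lam :=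
              abs_integral_le_integral_abs
          _ ≤ ∫ x, c * |w n x| ∂lam := by
              apply integral_mono_of_nonneg
              · exact Eventually.of_forall fun x => abs_nonneg _
              · exact (hwi n).abs.const_mul _
              · apply Eventually.of_forall
                intro x
                simp only
                rw [abs_mul]
                exact mul_le_mul_of_nonneg_right (hf1c x) (abs_nonneg _)
          _ = c * ∫ x, |w n x| ∂lam := integral_const_mul _ _
          _ ≤ c * ε := mul_le_mul_of_nonneg_left (hwb n) hc0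
      rw [e1]
      refine (abs_add_le _ _).trans ?_
      refine add_le_add ?_ hn.le
      refine (abs_sub _ _).trans ?_
      exact add_le_add b1 b2
    rw [hΨ, hGr]
    refine (abs_add_le _ _).trans ?_
    linarith
  rw [Metric.tendsto_atTop]
  intro ε hε
  have hpos : 0 < (2 * c + 2) := by linarith
  have hε2 : 0 < ε / (2 * (2 * c + 2)) := by positivity
  obtain ⟨N, hN⟩ := eventually_atTop.1 (main _ hε2)
  refine ⟨N, fun n hn => ?_⟩
  rw [Real.dist_eq, sub_zero]
  have h3 := hN n hn
  have h4 : (2 * c + 2) * (ε / (2 * (2 * c + 2))) = ε / 2 := by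
    field_simp
  rw [h4] at h3
  linarith

end Pool.Agent.GB
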