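import Pool.Agent.GB.G13

set_option autoImplicit false

/-!
# Selection of disjoint clopen sets carrying a sequence of small supports
-/

namespace Pool.Agent.GB

open Set Filter Topology MeasureTheory
open scoped ENNReal InnerProductSpace

theorem g5_conv {X : Type*} [MeasurableSpace X] {lam : Measure X} {v : X → ℝ}
    (hv : Integrable v lam) (S : Set X) :
    ENNReal.ofReal (∫ x in S, |v x| ∂lam) = ∫⁻ x in S, ‖v x‖ₑ ∂lam := by
  have := ofReal_integral_norm_eq_lintegral_enorm (hv.integrableOn (s := S))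
  simpa [Real.norm_eq_abs] using this

/-- disjoint clopen neighbourhoods of finitely many disjoint compact sets -/
theorem g5_sep {X : Type*} [TopologicalSpace X] [CompactSpace X] [T2Space X]
    [TotallyDisconnectedSpace X] (T : ℕ → Set X) (hT : ∀ k, IsCompact (T k))
    (hd : Pairwise (Function.onFun Disjoint T)) (F : Finset ℕ) :
    ∃ C : ℕ → Set X, (∀ k, IsClopen (C k)) ∧ (∀ k, T k ⊆ C k) ∧
      ∀ i ∈ F, ∀ j ∈ F, i ≠ j → Disjoint (C i) (C j) := by
  have h1 : ∀ i j : ℕ, ∃ D : Set X, IsClopen D ∧ (i ≠ j → T i ⊆ D ∧ D ⊆ (T j)ᶜ) := by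
    intro i j
    by_cases hij : i = j
    · exact ⟨∅, isClopen_empty, fun h => absurd hij h⟩
    · obtain ⟨D, hD1, hD2, hD3⟩ := exists_clopen_between (hT i) (hT j).isClosed.isOpen_compl
        (disjoint_left.1 (hd hij))
      exact ⟨D, hD1, fun _ => ⟨hD2, hD3⟩⟩
  choose D hD1 hD2 using h1
  refine ⟨fun k => (⋂ j ∈ F.filter (fun j => k < j), D k j) ∩
    (⋂ j ∈ F.filter (fun j => j < k), (D j k)ᶜ), ?_, ?_, ?_⟩
  · intro k
    apply IsClopen.inter
    · exact isClopen_biInter_finset fun j _ => hD1 k j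
    · exact isClopen_biInter_finset fun j _ => (hD1 j k).compl
  · intro k x hx
    refine ⟨?_, ?_⟩
    · simp only [mem_iInter, Finset.mem_filter]
      intro j hj
      exact (hD2 k j hj.2.ne).1 hx
    · simp only [mem_iInter, Finset.mem_filter]
      intro j hj hxD
      exact (hD2 j k hj.2.ne).2 hxD hx
  · have key : ∀ i ∈ F, ∀ j ∈ F, i < j → Disjoint
        ((⋂ j ∈ F.filter (fun j => i < j), D i j) ∩ (⋂ j ∈ F.filter (fun j => j < i), (D j i)ᶜ))
        ((⋂ l ∈ F.filter (fun l => j < l), D j l) ∩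
          (⋂ l ∈ F.filter (fun l => l < j), (D l j)ᶜ)) := by
      intro i hi j hj hij
      rw [disjoint_left]
      rintro x ⟨hx1, _⟩ ⟨_, hx2⟩
      simp only [mem_iInter, Finset.mem_filter] at hx1 hx2
      exact hx2 i ⟨hi, hij⟩ (hx1 j ⟨hj, hij⟩)
    intro i hi j hj hij
    rcases lt_or_gt_of_ne hij with h | h
    · exact key i hi j hj h
    · exact (key j hj i hi h).symm

/-- one step of the selection -/
theorem g5_step {X : Type*} [TopologicalSpace X] [CompactSpace X] [T2Space X]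
    [TotallyDisconnectedSpace X] [MeasurableSpace X] [BorelSpace X]
    (μ : ℕ → Measure X) (hμ : ∀ k, μ k univ ≤ 1) (T : ℕ → Set X) (hT : ∀ k, IsCompact (T k))
    (hd : Pairwise (Function.onFun Disjoint T)) {ε : ℝ≥0∞} (hε : 0 < ε) (Q : Set ℕ)
    (hQ : Q.Infinite) :
    ∃ (k : ℕ) (C : Set X) (Q' : Set ℕ), k ∈ Q ∧ IsClopen C ∧ T k ⊆ C ∧ Q' ⊆ Q ∧ Q'.Infinite ∧
      ∀ m ∈ Q', k < m ∧ μ m C < ε := by
  obtain ⟨N, hN⟩ := ENNReal.exists_inv_nat_lt hε.ne'
  obtain ⟨F, hFQ, hFN⟩ := hQ.exists_subset_card_eq (N + 1)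
  obtain ⟨C, hC1, hC2, hC3⟩ := g5_sep T hT hd F
  have hne : F.Nonempty := by
    rw [← Finset.card_pos, hFN]
    omega
  -- every measure is small on one of the sets
  have h1 : ∀ m : ℕ, ∃ j ∈ F, μ m (C j) < ε := by
    intro m
    by_contra hcon
    push Not at hcon
    have h2 : ∑ j ∈ F, μ m (C j) ≤ 1 := by
      rw [← measure_biUnion_finset (fun i hi j hj hij => hC3 i hi j hj hij)
        (fun j _ => (hC1 j).isOpen.measurableSet)]
      exact (measure_mono (subset_univ _)).trans (hμ m)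
    have h3 : ∑ j ∈ F, ε ≤ ∑ j ∈ F, μ m (C j) := Finset.sum_le_sum hcon
    rw [Finset.sum_const, hFN, nsmul_eq_mul] at h3
    have h4 : (N + 1 : ℕ) * ε ≤ 1 := h3.trans h2
    have h5 : (1 : ℝ≥0∞) < (N + 1 : ℕ) * ε := by
      rcases Nat.eq_zero_or_pos N with h0 | h0
      · subst h0
        simp at hN
      · have e1 : (1 : ℝ≥0∞) = N * (N : ℝ≥0∞)⁻¹ := by
          rw [ENNReal.mul_inv_cancel]
          · exact_mod_cast h0.ne'
          · exact ENNReal.natCast_ne_top N
        calc (1 : ℝ≥0∞) = N * (N : ℝ≥0∞)⁻¹ := e1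
          _ < N * ε := by
              apply ENNReal.mul_lt_mul_right _ _ hN
              · exact_mod_cast h0.ne'
              · exact ENNReal.natCast_ne_top N
          _ ≤ (N + 1 : ℕ) * ε := by
              gcongr
              omega
    exact absurd h4 (not_le.2 h5)
  have h2 : ∃ j ∈ F, {m ∈ Q | μ m (C j) < ε}.Infinite := by
    by_contra hcon
    push Not at hcon
    apply hQ
    have h3 : (⋃ j ∈ F, {m ∈ Q | μ m (C j) < ε}).Finite :=
      F.finite_toSet.biUnion fun j hj => by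
        have := hcon j hj
        exact not_infinite.1 (by simpa using this)
    apply h3.subset
    intro m hm
    obtain ⟨j, hj, hmj⟩ := h1 m
    simp only [mem_iUnion]
    exact ⟨j, hj, hm, hmj⟩
  obtain ⟨j, hj, hinf⟩ := h2
  refine ⟨j, C j, {m ∈ Q | μ m (C j) < ε} \ Iic j, hFQ hj, hC1 j, hC2 j, ?_,
    hinf.sdiff (finite_Iic j), ?_⟩
  · exact fun m hm => hm.1.1
  · intro m hm
    refine ⟨?_, hm.1.2⟩
    have := hm.2
    simpa using this

/-- selection for measures concentrated on disjoint compact sets -/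
theorem g5_sel {X : Type*} [TopologicalSpace X] [CompactSpace X] [T2Space X]
    [TotallyDisconnectedSpace X] [MeasurableSpace X] [BorelSpace X]
    (μ : ℕ → Measure X) (hμ : ∀ k, μ k univ ≤ 1) (T : ℕ → Set X) (hT : ∀ k, IsCompact (T k))
    (hd : Pairwise (Function.onFun Disjoint T)) {δ : ℝ≥0∞} (hδ : δ ≠ 0) :
    ∃ (κ : ℕ → ℕ) (A : ℕ → Set X), StrictMono κ ∧ (∀ i, IsClopen (A i)) ∧
      Pairwise (Function.onFun Disjoint A) ∧
      ∀ i, μ (κ i) (A i)ᶜ ≤ μ (κ i) (T (κ i))ᶜ + δ := by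
  obtain ⟨ε, hε, hεs⟩ := ENNReal.exists_pos_sum_of_countable' hδ ℕ
  choose kf Cf Qf hk hCc hTC hQQ hQi hQm using
    fun (i : ℕ) (Q : {Q : Set ℕ // Q.Infinite}) => g5_step μ hμ T hT hd (hε i) Q.1 Q.2
  let Qs : ℕ → {Q : Set ℕ // Q.Infinite} := fun i =>
    Nat.rec ⟨univ, infinite_univ⟩ (fun j Q => ⟨Qf j Q, hQi j Q⟩) i
  have hQs : ∀ i, (Qs (i + 1)).1 = Qf i (Qs i) := fun i => rfl
  have hanti : Antitone (fun i => (Qs i).1) := by
    apply antitone_nat_of_succ_le
    intro i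
    rw [hQs]
    exact hQQ i (Qs i)
  let κ : ℕ → ℕ := fun i => kf i (Qs i)
  let C : ℕ → Set X := fun i => Cf i (Qs i)
  have hκ : ∀ i j, j < i → κ j < κ i ∧ μ (κ i) (C j) < ε j := by
    intro i j hji
    have h1 : κ i ∈ (Qs (j + 1)).1 := hanti (Nat.succ_le_of_lt hji) (hk i (Qs i))
    rw [hQs] at h1
    exact hQm j (Qs j) _ h1
  refine ⟨κ, fun i => C i \ ⋃ j ∈ Finset.range i, C j, ?_, ?_, ?_, ?_⟩
  · intro j i hji
    exact (hκ i j hji).1
  · intro i
    exact (hCc i _).diff (isClopen_biUnion_finset fun j _ => hCc j _)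
  · have key : ∀ i j, i < j → Disjoint (C i \ ⋃ l ∈ Finset.range i, C l)
        (C j \ ⋃ l ∈ Finset.range j, C l) := by
      intro i j hij
      rw [disjoint_left]
      rintro x ⟨hx1, _⟩ ⟨_, hx2⟩
      apply hx2
      simp only [mem_iUnion, Finset.mem_range]
      exact ⟨i, hij, hx1⟩
    intro i j hij
    rcases lt_or_gt_of_ne hij with h | h
    · exact key i j h
    · exact (key j i h).symm
  · intro i
    have hsub : (C i \ ⋃ j ∈ Finset.range i, C j)ᶜ ⊆
        (T (κ i))ᶜ ∪ ⋃ j ∈ Finset.range i, C j := by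
      intro x hx
      by_cases hxT : x ∈ T (κ i)
      · right
        by_contra hcon
        exact hx ⟨hTC i _ hxT, hcon⟩
      · left
        exact hxT
    refine (measure_mono hsub).trans ((measure_union_le _ _).trans ?_)
    gcongr
    calc μ (κ i) (⋃ j ∈ Finset.range i, C j) ≤ ∑ j ∈ Finset.range i, μ (κ i) (C j) :=
          measure_biUnion_finset_le _ _
      _ ≤ ∑ j ∈ Finset.range i, ε j :=
          Finset.sum_le_sum fun j hj => (hκ i j (Finset.mem_range.1 hj)).2.le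
      _ ≤ ∑' j, ε j := ENNReal.sum_le_tsum _
      _ ≤ δ := hεs.le

/-- **G5** -/
theorem select {X : Type*} [TopologicalSpace X] [CompactSpace X] [T2Space X]
    [TotallyDisconnectedSpace X] [MeasurableSpace X] [BorelSpace X]
    (lam : Measure X) [IsFiniteMeasure lam] (hreg : lam.Regular) (v : ℕ → X → ℝ)
    (hm : ∀ n, Measurable (v n)) (hi : ∀ n, Integrable (v n) lam)
    (h1 : ∀ n, ∫ x, |v n x| ∂lam ≤ 1) (S : ℕ → Set X) (hS : ∀ n, MeasurableSet (S n))
    (hvS : ∀ n x, x ∉ S n → v n x = 0) (hlim : Tendsto (fun n => lam (S n)) atTop (𝓝 0))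
    {δ : ℝ} (hδ : 0 < δ) :
    ∃ (κ : ℕ → ℕ) (A : ℕ → Set X), StrictMono κ ∧ (∀ i, IsClopen (A i)) ∧
      Pairwise (Function.onFun Disjoint A) ∧ ∀ i, ∫ x in (A i)ᶜ, |v (κ i) x| ∂lam ≤ δ := by
  have := hreg
  set d : ℝ≥0∞ := ENNReal.ofReal (δ / 3) with hd
  have hd0 : d ≠ 0 := by
    rw [hd]
    simp [hδ]
  -- absolute continuity
  have hac : ∀ n, ∃ η > 0, ∀ s, lam s < η → ∫⁻ x in s, ‖v n x‖ₑ ∂lam < d := by
    intro n
    exact exists_pos_setLIntegral_lt_of_measure_lt (hi n).2.ne hd0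
  choose η hη hηs using hac
  -- a subsequence with summable measures
  obtain ⟨ε, hε, hεs⟩ := ENNReal.exists_pos_sum_of_countable' (one_ne_zero (α := ℝ≥0∞)) ℕ
  obtain ⟨b, hb, hbs⟩ := extraction_forall_of_eventually
    (P := fun n k => lam (S k) < ε n) (fun n => hlim.eventually_lt_const (hε n))
  have hsum : ∑' l, lam (S (b l)) ≠ ∞ := by
    have : ∑' l, lam (S (b l)) ≤ ∑' l, ε l := ENNReal.tsum_le_tsum fun l => (hbs l).le
    exact ne_top_of_le_ne_top ENNReal.one_ne_top (this.trans hεs.le)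
  have htail : Tendsto (fun m => lam (⋃ l ∈ Ici m, S (b l))) atTop (𝓝 0) := by
    have h2 := ENNReal.tendsto_sum_nat_add _ hsum
    refine tendsto_of_tendsto_of_tendsto_of_le_of_le tendsto_const_nhds h2 (fun _ => zero_le) ?_
    intro m
    simp only
    have h3 : (⋃ l ∈ Ici m, S (b l)) ⊆ ⋃ k, S (b (k + m)) := by
      intro x hx
      simp only [mem_iUnion, mem_Ici] at hx ⊢
      obtain ⟨l, hl, hx⟩ := hx
      exact ⟨l - m, by rwa [Nat.sub_add_cancel hl]⟩
    exact (measure_mono h3).trans (measure_iUnion_le _)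
  have hnext : ∀ k : ℕ, ∃ m : ℕ, k < m ∧ lam (⋃ l ∈ Ici m, S (b l)) < η (b k) := by
    intro k
    have h2 := (htail.eventually_lt_const (hη (b k))).and (eventually_gt_atTop k)
    obtain ⟨m, hm⟩ := h2.exists
    exact ⟨m, hm.2, hm.1⟩
  choose nx hnx1 hnx2 using hnext
  let a : ℕ → ℕ := fun i => Nat.rec 0 (fun _ k => nx k) i
  have ha : ∀ i, a (i + 1) = nx (a i) := fun i => rfl
  have hamono : StrictMono a := strictMono_nat_of_lt_succ fun i => by
    rw [ha]
    exact hnx1 _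
  -- the disjoint pieces
  let D : ℕ → Set X := fun k => S (b (a k)) \ ⋃ l ∈ Ici (a (k + 1)), S (b l)
  have hDm : ∀ k, MeasurableSet (D k) := fun k =>
    (hS _).diff (MeasurableSet.biUnion (to_countable _) fun l _ => hS _)
  have hDv : ∀ k, ∫⁻ x in (D k)ᶜ, ‖v (b (a k)) x‖ₑ ∂lam ≤ d := by
    intro k
    have h2 : (D k)ᶜ = (S (b (a k)))ᶜ ∪ ⋃ l ∈ Ici (a (k + 1)), S (b l) := by
      ext x
      simp only [D, mem_compl_iff, Set.mem_sdiff, mem_union]
      tauto
    rw [h2]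
    refine (lintegral_union_le _ _ _).trans ?_
    have h3 : ∫⁻ x in (S (b (a k)))ᶜ, ‖v (b (a k)) x‖ₑ ∂lam = 0 := by
      rw [setLIntegral_congr_fun (g := fun _ => 0) (hS _).compl]
      · simp
      · intro x hx
        simp only
        rw [hvS _ x hx]
        simp
    rw [h3, zero_add]
    exact (hηs _ _ (by rw [ha]; exact hnx2 _)).le
  have hDd : ∀ i j, i < j → Disjoint (D i) (D j) := by
    intro i j hij
    rw [disjoint_left]
    rintro x ⟨_, hx2⟩ ⟨hx1, _⟩
    apply hx2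
    simp only [mem_iUnion, mem_Ici]
    exact ⟨a j, hamono.monotone (Nat.succ_le_of_lt hij), hx1⟩
  have hT : ∀ k, ∃ T ⊆ D k, IsCompact T ∧ lam (D k \ T) < η (b (a k)) := fun k =>
    (hDm k).exists_isCompact_sdiff_lt (measure_ne_top _ _) (hη _).ne'
  choose T hTD hTc hTm using hT
  have hTd : Pairwise (Function.onFun Disjoint T) := by
    intro i j hij
    rcases lt_or_gt_of_ne hij with h | h
    · exact (hDd i j h).mono (hTD i) (hTD j)
    · exact ((hDd j i h).mono (hTD j) (hTD i)).symm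
  obtain ⟨κ, A, hκ, hAc, hAd, hAm⟩ := g5_sel
    (fun k => lam.withDensity (fun x => ‖v (b (a k)) x‖ₑ)) (fun k => by
      rw [withDensity_apply _ MeasurableSet.univ]
      rw [← g5_conv (hi _), Measure.restrict_univ]
      exact ENNReal.ofReal_le_one.2 (h1 _)) T hTc hTd hd0
  refine ⟨fun i => b (a (κ i)), A, hb.comp (hamono.comp hκ), hAc, hAd, fun i => ?_⟩
  have h2 := hAm i
  rw [withDensity_apply _ (hAc i).compl.isOpen.measurableSet,
    withDensity_apply _ (hTc _).measurableSet.compl] at h2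
  have h3 : ∫⁻ x in (T (κ i))ᶜ, ‖v (b (a (κ i))) x‖ₑ ∂lam ≤ d + d := by
    have h4 : (T (κ i))ᶜ ⊆ (D (κ i))ᶜ ∪ (D (κ i) \ T (κ i)) := by
      intro x hx
      by_cases hxD : x ∈ D (κ i)
      · exact Or.inr ⟨hxD, hx⟩
      · exact Or.inl hxD
    refine (lintegral_mono_set h4).trans ((lintegral_union_le _ _ _).trans ?_)
    exact add_le_add (hDv _) (hηs _ _ (hTm _)).le
  have h5 := h2.trans (add_le_add_left h3 d)
  rw [← g5_conv (hi _), hd, ← ENNReal.ofReal_add (by positivity) (by positivity),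
    ← ENNReal.ofReal_add (by positivity) (by positivity)] at h5
  rw [ENNReal.ofReal_le_ofReal_iff (by positivity)] at h5
  linarith

end Pool.Agent.GB
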