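import Pool.Agent.GB.G5

set_option autoImplicit false

/-!
# Uniform integrability of weak-star null sequences of densities under (AIP)
-/

namespace Pool.Agent.GB

open Set Filter Topology MeasureTheory
open scoped ENNReal InnerProductSpace

/-- the tails of an integrable function -/
theorem g6_tail {X : Type*} [MeasurableSpace X] {lam : Measure X} {g : X → ℝ}
    (hm : Measurable g) (hi : Integrable g lam) {ε : ℝ} (hε : 0 < ε) :
    ∃ M0 : ℝ, ∀ M, M0 ≤ M → ∫ x in {x | M < |g x|}, |g x| ∂lam < ε := by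
  have hS : ∀ M : ℝ, MeasurableSet {x | M < |g x|} := fun M =>
    measurableSet_lt measurable_const hm.abs
  have hanti : ∀ M M' : ℝ, M ≤ M' → {x | M' < |g x|} ⊆ {x | M < |g x|} := by
    intro M M' h x hx
    exact lt_of_le_of_lt h hx
  have h1 := tendsto_setIntegral_of_antitone (μ := lam) (f := fun x => |g x|)
    (s := fun n : ℕ => {x | (n : ℝ) < |g x|}) (fun n => hS n)
    (fun m n hmn => hanti _ _ (by exact_mod_cast hmn)) ⟨0, hi.abs.integrableOn⟩
  have h2 : (⋂ n : ℕ, {x | (n : ℝ) < |g x|}) = ∅ := by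
    rw [eq_empty_iff_forall_notMem]
    intro x hx
    simp only [mem_iInter, mem_ofPred_eq] at hx
    obtain ⟨n, hn⟩ := exists_nat_gt |g x|
    exact absurd (hx n) (not_lt.2 hn.le)
  rw [h2, setIntegral_empty] at h1
  obtain ⟨n, hn⟩ := (h1.eventually (gt_mem_nhds hε)).exists
  refine ⟨n, fun M hM => lt_of_le_of_lt ?_ hn⟩
  apply setIntegral_mono_set hi.abs.integrableOn
  · exact Eventually.of_forall fun x => abs_nonneg _
  · exact Eventually.of_forall (hanti _ _ hM)

/-- integrals over nearby sets -/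
theorem g6_symm {X : Type*} [MeasurableSpace X] {lam : Measure X} {g : X → ℝ}
    (hi : Integrable g lam) {E D : Set X} (hE : MeasurableSet E) (hD : MeasurableSet D) :
    |∫ x in E, g x ∂lam - ∫ x in D, g x ∂lam| ≤ ∫ x in symmDiff E D, |g x| ∂lam := by
  rw [← integral_indicator hE, ← integral_indicator hD, ← integral_indicator
    (hE.symmDiff hD), ← integral_sub (hi.indicator hE) (hi.indicator hD)]
  refine abs_integral_le_integral_abs.trans (le_of_eq ?_)
  congr 1
  funext x
  by_cases h1 : x ∈ E <;> by_cases h2 : x ∈ D <;>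
    simp [h1, h2, Set.mem_symmDiff]

/-- a clopen set on which the signed integral is large -/
theorem g6_E {X : Type*} [TopologicalSpace X] [CompactSpace X] [T2Space X]
    [TotallyDisconnectedSpace X] [MeasurableSpace X] [BorelSpace X]
    (lam : Measure X) [IsFiniteMeasure lam] (hreg : lam.Regular) {v : X → ℝ}
    (hm : Measurable v) (hi : Integrable v lam) {A : Set X} (hA : IsClopen A) {c δ : ℝ}
    (hc : c ≤ ∫ x in A, |v x| ∂lam) (hδ : 0 < δ) :
    ∃ E : Set X, IsClopen E ∧ E ⊆ A ∧ c / 2 - δ ≤ |∫ x in E, v x ∂lam| := by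
  have hAm : MeasurableSet A := hA.isOpen.measurableSet
  have hPm : MeasurableSet {x | 0 ≤ v x} := measurableSet_le measurable_const hm
  -- a measurable set with large integral
  have h1 : ∃ D : Set X, MeasurableSet D ∧ D ⊆ A ∧ c / 2 ≤ |∫ x in D, v x ∂lam| := by
    have h2 := integral_inter_add_sdiff (μ := lam) (f := fun x => |v x|) (s := A) hPm
      hi.abs.integrableOn
    have h3 : ∫ x in A ∩ {x | 0 ≤ v x}, |v x| ∂lam = ∫ x in A ∩ {x | 0 ≤ v x}, v x ∂lam := by
      apply setIntegral_congr_fun (hAm.inter hPm)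
      intro x hx
      exact abs_of_nonneg hx.2
    have h4 : ∫ x in A \ {x | 0 ≤ v x}, |v x| ∂lam =
        -∫ x in A \ {x | 0 ≤ v x}, v x ∂lam := by
      rw [← integral_neg]
      apply setIntegral_congr_fun (hAm.diff hPm)
      intro x hx
      exact abs_of_nonpos (not_le.1 hx.2).le
    rw [h3, h4] at h2
    rcases le_total (c / 2) (∫ x in A ∩ {x | 0 ≤ v x}, v x ∂lam) with h5 | h5
    · exact ⟨_, hAm.inter hPm, inter_subset_left, h5.trans (le_abs_self _)⟩
    · refine ⟨_, hAm.diff hPm, sdiff_subset, ?_⟩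
      refine le_trans ?_ (neg_le_abs _)
      linarith
  obtain ⟨D, hDm, hDA, hDc⟩ := h1
  obtain ⟨η, hη, hηs⟩ := exists_pos_setLIntegral_lt_of_measure_lt (μ := lam)
    (f := fun x => ‖v x‖ₑ) hi.2.ne (ε := ENNReal.ofReal δ) (by simp [hδ])
  obtain ⟨C, hC, hCD⟩ := clopen_approx lam hreg hDm hη
  refine ⟨C ∩ A, hC.inter hA, inter_subset_right, ?_⟩
  have h2 : lam (symmDiff (C ∩ A) D) < η := by
    refine lt_of_le_of_lt (measure_mono ?_) hCD
    rintro x (⟨⟨hx1, hx2⟩, hx3⟩ | ⟨hx1, hx2⟩)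
    · exact Or.inl ⟨hx1, hx3⟩
    · exact Or.inr ⟨hx1, fun h => hx2 ⟨h, hDA hx1⟩⟩
  have h3 := hηs _ h2
  rw [← g5_conv hi, ENNReal.ofReal_lt_ofReal_iff hδ] at h3
  have h4 := g6_symm hi (hC.inter hA).isOpen.measurableSet hDm
  have h5 := abs_sub_abs_le_abs_sub (∫ x in D, v x ∂lam) (∫ x in C ∩ A, v x ∂lam)
  rw [abs_sub_comm] at h5
  linarith

/-- the contradiction -/
theorem g6_core {X : Type*} [TopologicalSpace X] [CompactSpace X] [T2Space X]
    [TotallyDisconnectedSpace X] [MeasurableSpace X] [BorelSpace X] (hA : AIP X)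
    (lam : Measure X) [IsFiniteMeasure lam] (hreg : lam.Regular) (v w r : ℕ → X → ℝ)
    (hvm : ∀ n, Measurable (v n)) (hvi : ∀ n, Integrable (v n) lam)
    (hwi : ∀ n, Integrable (w n) lam) (hri : ∀ n, Integrable (r n) lam)
    {s δ : ℝ} (hδ : 0 < δ) (hs : 100 * δ ≤ s) (hv1 : ∀ n, ∫ x, |v n x| ∂lam ≤ 1)
    (hvs : ∀ n, s - δ ≤ ∫ x, |v n x| ∂lam) (hr : ∀ n, ∫ x, |r n x| ∂lam ≤ 2 * δ)
    (hw : ∀ B : Set X, MeasurableSet B → ∃ L, Tendsto (fun n => ∫ x in B, w n x ∂lam) atTop (𝓝 L))
    (h0 : ∀ B : Set X, IsClopen B →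
      Tendsto (fun n => ∫ x in B, (v n x + w n x + r n x) ∂lam) atTop (𝓝 0))
    (A : ℕ → Set X) (hAc : ∀ i, IsClopen (A i)) (hAd : Pairwise (Function.onFun Disjoint A))
    (hAv : ∀ i, ∫ x in (A i)ᶜ, |v i x| ∂lam ≤ δ) : False := by
  have hE : ∀ i, ∃ E : Set X, IsClopen E ∧ E ⊆ A i ∧
      (s - 2 * δ) / 2 - δ ≤ |∫ x in E, v i x ∂lam| := by
    intro i
    apply g6_E lam hreg (hvm i) (hvi i) (hAc i) _ hδ
    have h1 := integral_add_compl (μ := lam) (hAc i).isOpen.measurableSet (hvi i).abs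
    have h2 := hvs i
    have h3 := hAv i
    linarith
  choose E hEc hEA hEv using hE
  obtain ⟨B, hB, hBm⟩ := hA A (fun i => if Even i then E i else ∅) hAc hAd
    (fun i => by
      split_ifs
      · exact hEc i
      · exact isClopen_empty)
    (fun i => by
      split_ifs
      · exact hEA i
      · exact empty_subset _)
    (fun i => lam.withDensity (fun x => ‖v i x‖ₑ))
    (fun i => by
      rw [withDensity_apply _ MeasurableSet.univ, ← g5_conv (hvi i), Measure.restrict_univ]
      exact ENNReal.ofReal_le_one.2 (hv1 i))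
  have hBm' : MeasurableSet B := hB.isOpen.measurableSet
  -- the integral over B is close to the integral over E' i
  have key : ∀ i, |∫ x in B, v i x ∂lam - ∫ x in (if Even i then E i else ∅), v i x ∂lam| ≤
      1 / (i + 1) + δ := by
    intro i
    set E' : Set X := if Even i then E i else ∅ with hE'
    have hE'c : IsClopen E' := by
      rw [hE']
      split_ifs
      · exact hEc i
      · exact isClopen_empty
    have h1 := hBm i
    rw [withDensity_apply _ (((hB.inter (hAc i)).isOpen.measurableSet).symmDiff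
      hE'c.isOpen.measurableSet), ← g5_conv (hvi i),
      ENNReal.ofReal_le_ofReal_iff (by positivity)] at h1
    have h2 := g6_symm (hvi i) (hB.inter (hAc i)).isOpen.measurableSet hE'c.isOpen.measurableSet
    have h3 := integral_inter_add_sdiff (μ := lam) (f := fun x => v i x) (s := B)
      (hAc i).isOpen.measurableSet (hvi i).integrableOn
    have h4 : |∫ x in B \ A i, v i x ∂lam| ≤ δ := by
      refine (abs_integral_le_integral_abs).trans (le_trans ?_ (hAv i))
      apply setIntegral_mono_set (hvi i).abs.integrableOn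
      · exact Eventually.of_forall fun x => abs_nonneg _
      · exact Eventually.of_forall fun x hx => hx.2
    have h5 : ∫ x in B, v i x ∂lam - ∫ x in E', v i x ∂lam =
        (∫ x in B ∩ A i, v i x ∂lam - ∫ x in E', v i x ∂lam) + ∫ x in B \ A i, v i x ∂lam := by
      rw [← h3]
      ring
    rw [h5]
    refine (abs_add_le _ _).trans (add_le_add (h2.trans h1) h4)
  obtain ⟨L, hL⟩ := hw B hBm'
  have h0B := h0 B hB
  have hinv : Tendsto (fun i : ℕ => 1 / ((i : ℝ) + 1)) atTop (𝓝 0) :=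
    tendsto_one_div_add_atTop_nhds_zero_nat
  have e1 : ∀ᶠ i : ℕ in atTop, 1 / ((i : ℝ) + 1) < δ := hinv.eventually (gt_mem_nhds hδ)
  have e2 : ∀ᶠ i : ℕ in atTop, |∫ x in B, w i x ∂lam - L| < δ := by
    have := (hL.sub_const L).abs
    rw [sub_self, abs_zero] at this
    exact this.eventually (gt_mem_nhds hδ)
  have e3 : ∀ᶠ i : ℕ in atTop, |∫ x in B, (v i x + w i x + r i x) ∂lam| < δ := by
    have := h0B.abs
    rw [abs_zero] at this
    exact this.eventually (gt_mem_nhds hδ)
  obtain ⟨N, hN⟩ := eventually_atTop.1 (e1.and (e2.and e3))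
  -- the integral of v i over B is close to -L
  have hclose : ∀ i, N ≤ i → |∫ x in B, v i x ∂lam + L| ≤ 4 * δ := by
    intro i hi
    obtain ⟨_, h2, h3⟩ := hN i hi
    have h4 : ∫ x in B, (v i x + w i x + r i x) ∂lam =
        ∫ x in B, v i x ∂lam + ∫ x in B, w i x ∂lam + ∫ x in B, r i x ∂lam := by
      rw [integral_add, integral_add]
      · exact (hvi i).integrableOn
      · exact (hwi i).integrableOn
      · exact ((hvi i).add (hwi i)).integrableOn
      · exact (hri i).integrableOn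
    have h5 : |∫ x in B, r i x ∂lam| ≤ 2 * δ := by
      refine (abs_integral_le_integral_abs).trans (le_trans ?_ (hr i))
      apply setIntegral_le_integral (hri i).abs
      exact Eventually.of_forall fun x => abs_nonneg _
    rw [h4] at h3
    rw [abs_lt] at h2 h3
    rw [abs_le] at h5
    rw [abs_le]
    constructor <;> linarith [h2.1, h2.2, h3.1, h3.2, h5.1, h5.2]
  have hev := hclose (2 * N) (by omega)
  have hod := hclose (2 * N + 1) (by omega)
  have kev := key (2 * N)
  have kod := key (2 * N + 1)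
  rw [if_pos (even_two_mul N)] at kev
  rw [if_neg (by simp), setIntegral_empty, sub_zero] at kod
  have hEN := hEv (2 * N)
  have i1 := (hN (2 * N) (by omega)).1
  have i2 := (hN (2 * N + 1) (by omega)).1
  have t1 := abs_sub_abs_le_abs_sub (∫ x in E (2 * N), v (2 * N) x ∂lam)
    (∫ x in B, v (2 * N) x ∂lam)
  rw [abs_sub_comm] at t1
  have t2 : |∫ x in B, v (2 * N) x ∂lam| ≤ |∫ x in B, v (2 * N) x ∂lam + L| + |L| := by
    have := abs_sub_abs_le_abs_sub (∫ x in B, v (2 * N) x ∂lam) (-L)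
    rw [abs_neg, sub_neg_eq_add] at this
    linarith
  have t3 : |L| ≤ |∫ x in B, v (2 * N + 1) x ∂lam + L| + |∫ x in B, v (2 * N + 1) x ∂lam| := by
    have := abs_sub_abs_le_abs_sub L (-∫ x in B, v (2 * N + 1) x ∂lam)
    rw [abs_neg, sub_neg_eq_add, add_comm L] at this
    linarith
  push_cast at kev kod i1 i2
  linarith

/-- **G6** -/
theorem UI_of_AIP {X : Type*} [TopologicalSpace X] [CompactSpace X] [T2Space X]
    [TotallyDisconnectedSpace X] [MeasurableSpace X] [BorelSpace X] (hA : AIP X)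
    (lam : Measure X) [IsFiniteMeasure lam] (hreg : lam.Regular) (h : ℕ → X → ℝ)
    (hm : ∀ n, Measurable (h n)) (hi : ∀ n, Integrable (h n) lam)
    (h1 : ∀ n, ∫ x, |h n x| ∂lam ≤ 1)
    (h0 : ∀ f : C(X, ℝ), Tendsto (fun n => ∫ x, f x * h n x ∂lam) atTop (𝓝 0)) :
    UI lam h := by
  by_contra hcon
  unfold UI at hcon
  push Not at hcon
  obtain ⟨ε, hε, hεM⟩ := hcon
  have hSm : ∀ (n : ℕ) (M : ℝ), MeasurableSet {x | M < |h n x|} := fun n M =>
    measurableSet_lt measurable_const (hm n).abs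
  set I : ℕ → ℝ → ℝ := fun n M => ∫ x in {x | M < |h n x|}, |h n x| ∂lam with hI
  have hImono : ∀ n M M', M ≤ M' → I n M' ≤ I n M := by
    intro n M M' hMM
    apply setIntegral_mono_set (hi n).abs.integrableOn
    · exact Eventually.of_forall fun x => abs_nonneg _
    · exact Eventually.of_forall fun x hx => lt_of_le_of_lt hMM hx
  have hI1 : ∀ n M, I n M ≤ 1 := by
    intro n M
    refine le_trans ?_ (h1 n)
    apply setIntegral_le_integral (hi n).abs
    exact Eventually.of_forall fun x => abs_nonneg _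
  set Z : Set ℝ := {z | ∀ M : ℝ, ∃ n, z ≤ I n M} with hZ
  have hZb : BddAbove Z := ⟨1, fun z hz => by
    obtain ⟨n, hn⟩ := hz 0
    exact hn.trans (hI1 n 0)⟩
  have hZε : ε ∈ Z := fun M => by
    obtain ⟨n, hn⟩ := hεM M
    exact ⟨n, hn.le⟩
  set s := sSup Z with hs
  set δ := ε / 100 with hδdef
  have hδ : 0 < δ := by positivity
  have hsε : ε ≤ s := le_csSup hZb hZε
  have hslow : ∀ M : ℝ, ∃ n, s - δ ≤ I n M := by
    obtain ⟨z, hz, hz2⟩ := exists_lt_of_lt_csSup ⟨ε, hZε⟩ (show s - δ < sSup Z by linarith)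
    intro M
    obtain ⟨n, hn⟩ := hz M
    exact ⟨n, by linarith⟩
  have hsup : ∃ M0 : ℝ, 0 ≤ M0 ∧ ∀ n, I n M0 ≤ s + δ := by
    have h2 : s + δ ∉ Z := notMem_of_csSup_lt (by linarith) hZb
    rw [hZ, mem_ofPred_eq] at h2
    push Not at h2
    obtain ⟨M0, hM0⟩ := h2
    exact ⟨max M0 0, le_max_right _ _, fun n => (hImono n _ _ (le_max_left _ _)).trans (hM0 n).le⟩
  obtain ⟨M0, hM00, hM0⟩ := hsup
  -- late indices
  have hfreq : ∀ k : ℕ, ∃ᶠ n in atTop, s - δ ≤ I n (M0 + k) := by
    intro k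
    rw [frequently_atTop]
    intro N
    have h2 : ∃ M1 : ℝ, ∀ n, n ≤ N → I n M1 < s - δ := by
      have hsδ : 0 < s - δ := by linarith
      have h3 : ∀ n, ∃ M1 : ℝ, ∀ M, M1 ≤ M → I n M < s - δ := fun n =>
        g6_tail (hm n) (hi n) hsδ
      choose M1 hM1 using h3
      refine ⟨∑ n ∈ Finset.range (N + 1), |M1 n|, fun n hn => hM1 n _ ?_⟩
      refine (le_abs_self _).trans ?_
      exact Finset.single_le_sum (f := fun n => |M1 n|) (fun i _ => abs_nonneg _)
        (Finset.mem_range.2 (Nat.lt_succ_of_le hn))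
    obtain ⟨M1, hM1⟩ := h2
    obtain ⟨n, hn⟩ := hslow (max M1 (M0 + k))
    refine ⟨n, ?_, hn.trans (hImono n _ _ (le_max_right _ _))⟩
    by_contra hcon2
    push Not at hcon2
    have h4 := hM1 n hcon2.le
    have h5 := hImono n M1 (max M1 (M0 + k)) (le_max_left _ _)
    linarith
  obtain ⟨a, ha, has⟩ := extraction_forall_of_frequently hfreq
  -- the pieces
  let S : ℕ → Set X := fun k => {x | M0 + k < |h (a k) x|}
  let R : ℕ → Set X := fun k => {x | M0 < |h (a k) x|}
  have hSS : ∀ k, MeasurableSet (S k) := fun k => hSm _ _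
  have hRR : ∀ k, MeasurableSet (R k) := fun k => hSm _ _
  have hSR : ∀ k, S k ⊆ R k := by
    intro k x hx
    have h2 : M0 + k < |h (a k) x| := hx
    have h3 : (0 : ℝ) ≤ k := Nat.cast_nonneg k
    exact lt_of_le_of_lt (by linarith) h2
  let v : ℕ → X → ℝ := fun k => (S k).indicator (h (a k))
  let w : ℕ → X → ℝ := fun k => (R k)ᶜ.indicator (h (a k))
  let r : ℕ → X → ℝ := fun k => (R k \ S k).indicator (h (a k))
  have hvm : ∀ k, Measurable (v k) := fun k => (hm _).indicator (hSS k)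
  have hwm : ∀ k, Measurable (w k) := fun k => (hm _).indicator (hRR k).compl
  have hvi : ∀ k, Integrable (v k) lam := fun k => (hi _).indicator (hSS k)
  have hwi : ∀ k, Integrable (w k) lam := fun k => (hi _).indicator (hRR k).compl
  have hri : ∀ k, Integrable (r k) lam := fun k => (hi _).indicator ((hRR k).diff (hSS k))
  have hvwr : ∀ k x, v k x + w k x + r k x = h (a k) x := by
    intro k x
    by_cases hR : x ∈ R k
    · by_cases hS : x ∈ S k
      · simp [v, w, r, hR, hS]
      · simp [v, w, r, hR, hS]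
    · have hS : x ∉ S k := fun h => hR (hSR k h)
      simp [v, w, r, hR, hS]
  have hvabs : ∀ k, ∫ x, |v k x| ∂lam = I (a k) (M0 + k) := by
    intro k
    rw [hI]
    simp only
    rw [← integral_indicator (hSm _ _)]
    congr 1
    funext x
    by_cases hS : x ∈ S k
    · simp only [v, indicator_of_mem hS]
      rw [indicator_of_mem (show x ∈ {x | M0 + k < |h (a k) x|} from hS)]
    · simp only [v, indicator_of_notMem hS, abs_zero]
      rw [indicator_of_notMem (show x ∉ {x | M0 + k < |h (a k) x|} from hS)]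
  have hrabs : ∀ k, ∫ x, |r k x| ∂lam ≤ 2 * δ := by
    intro k
    have e1 : ∫ x, |r k x| ∂lam = ∫ x in R k \ S k, |h (a k) x| ∂lam := by
      rw [← integral_indicator ((hRR k).diff (hSS k))]
      congr 1
      funext x
      by_cases hx : x ∈ R k \ S k
      · simp only [r, indicator_of_mem hx]
      · simp only [r, indicator_of_notMem hx, abs_zero]
    have e2 := integral_inter_add_sdiff (μ := lam) (f := fun x => |h (a k) x|) (s := R k)
      (hSS k) (hi _).abs.integrableOn
    rw [inter_eq_self_of_subset_right (hSR k)] at e2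
    have e3 : ∫ x in S k, |h (a k) x| ∂lam = I (a k) (M0 + k) := rfl
    have e4 : ∫ x in R k, |h (a k) x| ∂lam = I (a k) M0 := rfl
    have e5 := has k
    have e6 := hM0 (a k)
    rw [e1]
    linarith
  have hv1 : ∀ k, ∫ x, |v k x| ∂lam ≤ 1 := fun k => by
    rw [hvabs]
    exact hI1 _ _
  have hvs : ∀ k, s - δ ≤ ∫ x, |v k x| ∂lam := fun k => by
    rw [hvabs]
    exact has k
  -- Hilbert space step
  have hwb : ∀ k x, ‖w k x‖ ≤ M0 := by
    intro k x
    by_cases hR : x ∈ R k
    · simp only [w, indicator_of_notMem (notMem_compl_iff.2 hR), norm_zero]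
      exact hM00
    · simp only [w, indicator_of_mem (mem_compl hR)]
      exact not_lt.1 hR
  have hw2 : ∀ k, MemLp (w k) 2 lam := fun k =>
    MemLp.of_bound (hwm k).aestronglyMeasurable M0 (Eventually.of_forall fun x => hwb k x)
  obtain ⟨κ1, hκ1, hlim1⟩ := hilbert_subseq (fun k => (hw2 k).toLp (w k))
    ((measureUnivNNReal lam : ℝ) ^ (2 : ℝ≥0∞).toReal⁻¹ * M0) (fun k => by
      refine Lp.norm_le_of_ae_bound hM00 ?_
      filter_upwards [(hw2 k).coeFn_toLp] with x hx
      rw [hx]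
      exact hwb k x)
  have hwlim : ∀ B : Set X, MeasurableSet B →
      ∃ L, Tendsto (fun n => ∫ x in B, w (κ1 n) x ∂lam) atTop (𝓝 L) := by
    intro B hB
    obtain ⟨L, hL⟩ := hlim1 (indicatorConstLp 2 hB (measure_ne_top _ _) (1 : ℝ))
    refine ⟨L, hL.congr fun i => ?_⟩
    rw [real_inner_comm, L2.inner_indicatorConstLp_one]
    apply setIntegral_congr_ae hB
    filter_upwards [(hw2 (κ1 i)).coeFn_toLp] with x hx _
    exact hx
  -- selection
  have hSb : ∀ k : ℕ, lam (S k) ≤ (k : ℝ≥0∞)⁻¹ := by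
    intro k
    have e1 := mul_meas_ge_le_lintegral₀ (μ := lam) (f := fun x => ‖h (a k) x‖ₑ)
      (hm _).enorm.aemeasurable (k : ℝ≥0∞)
    have e2 : ∫⁻ x, ‖h (a k) x‖ₑ ∂lam ≤ 1 := by
      rw [← Measure.restrict_univ (μ := lam), ← g5_conv (hi _), Measure.restrict_univ]
      exact ENNReal.ofReal_le_one.2 (h1 _)
    have e3 : S k ⊆ {x | (k : ℝ≥0∞) ≤ ‖h (a k) x‖ₑ} := by
      intro x hx
      have h2 : M0 + k < |h (a k) x| := hx
      change (k : ℝ≥0∞) ≤ ‖h (a k) x‖ₑ
      rw [← ofReal_norm, Real.norm_eq_abs, ← ENNReal.ofReal_natCast]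
      exact ENNReal.ofReal_le_ofReal (by linarith)
    rw [ENNReal.le_inv_iff_mul_le, mul_comm]
    calc (k : ℝ≥0∞) * lam (S k) ≤ k * lam {x | (k : ℝ≥0∞) ≤ ‖h (a k) x‖ₑ} := by
          gcongr
      _ ≤ 1 := e1.trans e2
  have hSlim : Tendsto (fun n => lam (S (κ1 n))) atTop (𝓝 0) := by
    refine tendsto_of_tendsto_of_tendsto_of_le_of_le tendsto_const_nhds
      (ENNReal.tendsto_inv_nat_nhds_zero.comp hκ1.tendsto_atTop) (fun _ => zero_le) ?_
    intro n
    exact hSb _
  obtain ⟨κ2, A, hκ2, hAc, hAd, hAv⟩ := select lam hreg (fun i => v (κ1 i)) (fun i => hvm _)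
    (fun i => hvi _) (fun i => hv1 _) (fun i => S (κ1 i)) (fun i => hSS _)
    (fun i x hx => indicator_of_notMem hx _) hSlim hδ
  refine g6_core hA lam hreg (fun i => v (κ1 (κ2 i))) (fun i => w (κ1 (κ2 i)))
    (fun i => r (κ1 (κ2 i))) (fun i => hvm _) (fun i => hvi _) (fun i => hwi _) (fun i => hri _)
    hδ (by rw [hδdef]; linarith) (fun i => hv1 _) (fun i => hvs _) (fun i => hrabs _) ?_ ?_
    A hAc hAd hAv
  · intro B hB
    obtain ⟨L, hL⟩ := hwlim B hB
    exact ⟨L, hL.comp hκ2.tendsto_atTop⟩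
  · intro B hB
    have h2 := h0 ⟨B.indicator (fun _ => 1), (IsClopen.continuous_indicator hB continuous_const)⟩
    have h3 := h2.comp (ha.comp (hκ1.comp hκ2)).tendsto_atTop
    refine h3.congr fun i => ?_
    simp only [Function.comp_apply, ContinuousMap.coe_mk]
    rw [← integral_indicator hB.isOpen.measurableSet]
    congr 1
    funext x
    by_cases hx : x ∈ B
    · simp only [indicator_of_mem hx, one_mul]
      exact (hvwr _ x).symm
    · simp only [indicator_of_notMem hx, zero_mul]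

end Pool.Agent.GB
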