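import Pool.Agent.GB.G2
import Pool.Agent.GB.G4
import Pool.Agent.GB.G6

/-! The Grothendieck property from approximate interpolation (module G7 of MP_bb644c_an). -/

set_option autoImplicit false

namespace Pool.Agent.GB

open Set Filter Topology MeasureTheory
open scoped ENNReal InnerProductSpace

/-! ## G7 -/
theorem grothendieck_of_AIP {X : Type*} [TopologicalSpace X] [CompactSpace X] [T2Space X]
    [TotallyDisconnectedSpace X] [MeasurableSpace X] [BorelSpace X] (h : AIP X) :
    Grothendieck C(X, ℝ) := by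
  intro φ ψ hlim Ψ
  -- Banach–Steinhaus
  have hb : ∃ C, ∀ n, ‖φ n - ψ‖ ≤ C := by
    apply banach_steinhaus
    intro f
    have hconv : Tendsto (fun n => (φ n - ψ) f) atTop (𝓝 0) := by
      have := (hlim f).sub_const (ψ f)
      simpa using this
    obtain ⟨C, hC⟩ := (hconv.norm).bddAbove_range
    exact ⟨C, fun n => hC ⟨n, rfl⟩⟩
  obtain ⟨C, hC⟩ := hb
  set D : ℝ := max C 1 with hD
  have hDpos : 0 < D := lt_of_lt_of_le one_pos (le_max_right _ _)
  set χ : ℕ → StrongDual ℝ C(X, ℝ) := fun n => D⁻¹ • (φ n - ψ) with hχ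
  have hχn : ∀ n, ‖χ n‖ ≤ 1 := by
    intro n
    have h5 : ‖χ n‖ ≤ ‖D⁻¹‖ * ‖φ n - ψ‖ := ContinuousLinearMap.opNorm_smul_le _ _
    refine h5.trans ?_
    rw [Real.norm_eq_abs, abs_of_pos (inv_pos.2 hDpos)]
    rw [inv_mul_le_iff₀ hDpos, mul_one]
    exact (hC n).trans (le_max_left _ _)
  have hχ0 : ∀ f : C(X, ℝ), Tendsto (fun n => χ n f) atTop (𝓝 0) := by
    intro f
    have h2 := ((hlim f).sub_const (ψ f)).const_mul D⁻¹
    simp only [sub_self, mul_zero] at h2
    refine h2.congr (fun n => ?_)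
    simp [hχ]
  obtain ⟨lam, g, hfin, hreg, hm, hi, hφ, hnorm⟩ := densities χ
  have hui : UI lam g := by
    refine UI_of_AIP h lam hreg g hm hi (fun n => (hnorm n).trans (hχn n)) (fun f => ?_)
    refine (hχ0 f).congr (fun n => hφ n f)
  have key := weak_of_UI lam hreg g hm hi hui χ hφ hχ0 Ψ
  have h3 := (key.const_mul D).add_const (Ψ ψ)
  simp only [mul_zero, zero_add] at h3
  refine h3.congr (fun n => ?_)
  simp only [hχ, map_smul, map_sub, smul_eq_mul]
  field_simp
  ring

end Pool.Agent.GB
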